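import Mathlib

/-!
Vertices of polyhedra: points with small denominators.
-/

set_option autoImplicit false

namespace Pool.Agent.Q41.RC

section vertex

variable {κ R : Type} [Fintype κ] [Fintype R]

open scoped Classical in
/-- the span of the tight rows -/
noncomputable def tsp (A : R → κ → ℤ) (b : R → ℤ) (e : κ → ℚ) : Submodule ℚ (κ → ℚ) :=
  Submodule.span ℚ {w | ∃ r, (∑ c, (A r c : ℚ) * e c = b r) ∧ w = fun c => (A r c : ℚ)}

theorem fun_eq (f : (κ → ℚ) →ₗ[ℚ] ℚ) [DecidableEq κ] (w : κ → ℚ) :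
    f w = ∑ c, w c * f (Pi.single c 1) := by
  conv_lhs => rw [pi_eq_sum_univ' w]
  rw [map_sum]
  refine Finset.sum_congr rfl fun c _ => ?_
  rw [map_smul, smul_eq_mul]

/-- feasible points with many tight rows -/
theorem exists_tight [DecidableEq κ] (A : R → κ → ℤ) (b : R → ℤ) (u : κ → R)
    (hu : ∀ c c', (A (u c) c' : ℚ) = if c = c' then 1 else 0) (e0 : κ → ℚ)
    (he0 : ∀ r, (b r : ℚ) ≤ ∑ c, (A r c : ℚ) * e0 c) (k : ℕ) (hk : k ≤ Fintype.card κ) :
    ∃ e : κ → ℚ, (∀ r, (b r : ℚ) ≤ ∑ c, (A r c : ℚ) * e c) ∧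
      k ≤ Module.finrank ℚ (tsp A b e) := by
  classical
  induction k with
  | zero => exact ⟨e0, he0, Nat.zero_le _⟩
  | succ k ih =>
    obtain ⟨e, he, hd⟩ := ih (by omega)
    by_cases hd1 : k + 1 ≤ Module.finrank ℚ (tsp A b e)
    · exact ⟨e, he, hd1⟩
    have hlt : tsp A b e < ⊤ := by
      rw [lt_top_iff_ne_top]
      intro h
      rw [h, finrank_top, Module.finrank_fintype_fun_eq_card] at hd1
      omega
    obtain ⟨f0, hf0, hf0k⟩ := Submodule.exists_le_ker_of_lt_top _ hlt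
    -- a functional with a negative value at a unit vector
    obtain ⟨f, hfk, c0, hc0⟩ : ∃ f : (κ → ℚ) →ₗ[ℚ] ℚ, tsp A b e ≤ LinearMap.ker f ∧
        ∃ c0, f (Pi.single c0 1) < 0 := by
      have h1 : ∃ c0, f0 (Pi.single c0 1) ≠ 0 := by
        by_contra hcon
        push Not at hcon
        apply hf0
        apply LinearMap.ext
        intro w
        rw [fun_eq f0 w]
        simp [hcon]
      obtain ⟨c0, hc0⟩ := h1
      rcases lt_or_gt_of_ne hc0 with h2 | h2
      · exact ⟨f0, hf0k, c0, h2⟩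
      · refine ⟨-f0, fun w hw => ?_, c0, by rw [LinearMap.neg_apply]; linarith⟩
        have h3 : f0 w = 0 := hf0k hw
        rw [LinearMap.mem_ker, LinearMap.neg_apply, h3, neg_zero]
    let g : κ → ℚ := fun c => f (Pi.single c 1)
    have hfg : ∀ r, f (fun c => (A r c : ℚ)) = ∑ c, (A r c : ℚ) * g c := fun r => fun_eq f _
    let Q : Finset R := Finset.univ.filter fun r => f (fun c => (A r c : ℚ)) < 0
    have hQ : Q.Nonempty := by
      refine ⟨u c0, Finset.mem_filter.2 ⟨Finset.mem_univ _, ?_⟩⟩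
      have h1 : (fun c => (A (u c0) c : ℚ)) = Pi.single c0 1 := by
        funext c
        rw [hu, Pi.single_apply]
        by_cases h : c0 = c
        · rw [if_pos h, if_pos h.symm]
        · rw [if_neg h, if_neg (Ne.symm h)]
      rw [h1]
      exact hc0
    obtain ⟨r0, hr0, hmin⟩ := Finset.exists_min_image Q
      (fun r => ((∑ c, (A r c : ℚ) * e c) - b r) / (-f (fun c => (A r c : ℚ)))) hQ
    obtain ⟨θ, hθ⟩ : ∃ θ : ℚ, θ = ((∑ c, (A r0 c : ℚ) * e c) - b r0) /
      (-f (fun c => (A r0 c : ℚ))) := ⟨_, rfl⟩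
    have hf0' : f (fun c => (A r0 c : ℚ)) < 0 := (Finset.mem_filter.1 hr0).2
    have hθ0 : 0 ≤ θ := by
      rw [hθ]
      exact div_nonneg (by linarith [he r0]) (by linarith)
    let e' : κ → ℚ := fun c => e c + θ * g c
    have he' : ∀ r, ∑ c, (A r c : ℚ) * e' c =
        ∑ c, (A r c : ℚ) * e c + θ * f (fun c => (A r c : ℚ)) := by
      intro r
      rw [hfg, Finset.mul_sum, ← Finset.sum_add_distrib]
      exact Finset.sum_congr rfl fun c _ => by simp only [e']; ring
    refine ⟨e', fun r => ?_, ?_⟩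
    · rw [he']
      by_cases hr : f (fun c => (A r c : ℚ)) < 0
      · have h1 := hmin r (Finset.mem_filter.2 ⟨Finset.mem_univ _, hr⟩)
        rw [← hθ, le_div_iff₀ (by linarith)] at h1
        linarith
      · have h1 := mul_nonneg hθ0 (not_lt.1 hr)
        linarith [he r]
    · have hsub : tsp A b e ≤ tsp A b e' := by
        refine Submodule.span_mono ?_
        rintro w ⟨r, hr, rfl⟩
        refine ⟨r, ?_, rfl⟩
        have h1 : f (fun c => (A r c : ℚ)) = 0 :=
          hfk (Submodule.subset_span ⟨r, hr, rfl⟩)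
        rw [he', h1, mul_zero, add_zero, hr]
      have hmem : (fun c => (A r0 c : ℚ)) ∈ tsp A b e' := by
        refine Submodule.subset_span ⟨r0, ?_, rfl⟩
        rw [he', hθ, div_neg, neg_mul, div_mul_cancel₀ _ (ne_of_lt hf0')]
        ring
      have hnot : (fun c => (A r0 c : ℚ)) ∉ tsp A b e := by
        intro h1
        have h2 : f (fun c => (A r0 c : ℚ)) = 0 := hfk h1
        rw [h2] at hf0'
        exact lt_irrefl _ hf0'
      have hlt' : tsp A b e < tsp A b e' :=
        lt_of_le_of_ne hsub fun h1 => hnot (h1 ▸ hmem)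
      have := Submodule.finrank_lt_finrank_of_lt hlt'
      omega

/-- **Points with small denominators.** -/
theorem exists_vertex (A : R → κ → ℤ) (b : R → ℤ) {M : ℕ} (hM : 1 ≤ M)
    (hA : ∀ r c, |A r c| ≤ M) {e0 : κ → ℚ} (h0 : ∀ c, 0 ≤ e0 c)
    (he0 : ∀ r, (b r : ℚ) ≤ ∑ c, (A r c : ℚ) * e0 c) :
    ∃ e : κ → ℚ, (∀ c, 0 ≤ e c) ∧ (∀ r, (b r : ℚ) ≤ ∑ c, (A r c : ℚ) * e c) ∧
      ∃ T : ℕ, 0 < T ∧ T ≤ (Fintype.card κ).factorial * M ^ Fintype.card κ ∧
        ∀ c, ∃ w : ℤ, (T : ℚ) * e c = w := by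
  classical
  let A' : κ ⊕ R → κ → ℤ := Sum.elim (fun c c' => if c = c' then 1 else 0) A
  let b' : κ ⊕ R → ℤ := Sum.elim (fun _ => 0) b
  have hunit : ∀ (e : κ → ℚ) c, ∑ c', (A' (Sum.inl c) c' : ℚ) * e c' = e c := by
    intro e c
    rw [Finset.sum_eq_single c]
    · simp [A']
    · intro c' _ hc'
      simp [A', Ne.symm hc']
    · intro h
      exact absurd (Finset.mem_univ _) h
  have hA' : ∀ r c, |A' r c| ≤ M := by
    rintro (c | r) c'
    · change |(if c = c' then (1 : ℤ) else 0)| ≤ M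
      split_ifs
      · rw [abs_one]
        exact_mod_cast hM
      · rw [abs_zero]
        positivity
    · exact hA r c'
  obtain ⟨e, he, hd⟩ := exists_tight A' b' Sum.inl (fun c c' => by simp [A']) e0 (by
    rintro (c | r)
    · rw [hunit]
      simpa [b'] using h0 c
    · exact he0 r) (Fintype.card κ) le_rfl
  have htop : tsp A' b' e = ⊤ := by
    apply Submodule.eq_top_of_finrank_eq
    apply le_antisymm (Submodule.finrank_le _)
    rw [Module.finrank_fintype_fun_eq_card]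
    exact hd
  -- independent tight rows
  let ι := {r : κ ⊕ R // ∑ c, (A' r c : ℚ) * e c = b' r}
  obtain ⟨κ', s, hs, hsp, hli⟩ := exists_linearIndependent' ℚ
    (fun r : ι => fun c => (A' r.1 c : ℚ))
  have hsp' : Submodule.span ℚ (Set.range ((fun r : ι => fun c => (A' r.1 c : ℚ)) ∘ s)) = ⊤ := by
    rw [hsp, ← htop]
    unfold tsp
    congr 1
    ext w
    constructor
    · rintro ⟨r, rfl⟩
      exact ⟨r.1, r.2, rfl⟩
    · rintro ⟨r, hr, rfl⟩
      exact ⟨⟨r, hr⟩, rfl⟩
  let B := Module.Basis.mk hli hsp'.ge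
  have hfin : Finite κ' := Module.Finite.finite_basis B
  have : Fintype κ' := Fintype.ofFinite κ'
  have hcard : Fintype.card κ = Fintype.card κ' := by
    rw [← Module.finrank_eq_card_basis B, Module.finrank_fintype_fun_eq_card]
  let φ : κ ≃ κ' := Fintype.equivOfCardEq hcard
  let Z : Matrix κ κ ℤ := Matrix.of fun i c => A' (s (φ i)).1 c
  have hZ : (Z.map (Int.cast : ℤ → ℚ)).det ≠ 0 := by
    have h1 : LinearIndependent ℚ (Z.map (Int.cast : ℤ → ℚ)).row := hli.comp φ φ.injective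
    have h2 := Matrix.linearIndependent_rows_iff_isUnit.1 h1
    exact ((Matrix.isUnit_iff_isUnit_det _).1 h2).ne_zero
  have hdet : ((Z.det : ℤ) : ℚ) = (Z.map (Int.cast : ℤ → ℚ)).det := by
    have := RingHom.map_det (Int.castRingHom ℚ) Z
    simpa using this
  have hZ0 : Z.det ≠ 0 := by
    intro h
    rw [← hdet, h] at hZ
    exact hZ (by simp)
  have hmul : (Z.map (Int.cast : ℤ → ℚ)).mulVec e = fun i => (b' (s (φ i)).1 : ℚ) := by
    funext i
    exact (s (φ i)).2
  have hsol : ∀ c, (Z.det : ℚ) * e c = ((Z.adjugate.mulVec fun i => b' (s (φ i)).1) c : ℤ) := by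
    intro c
    have h1 : (Z.map (Int.cast : ℤ → ℚ)).adjugate.mulVec ((Z.map (Int.cast : ℤ → ℚ)).mulVec e) c =
        (Z.map (Int.cast : ℤ → ℚ)).det * e c := by
      rw [Matrix.mulVec_mulVec, Matrix.adjugate_mul, Matrix.smul_mulVec, Matrix.one_mulVec]
      rfl
    rw [hdet, ← h1, hmul]
    have h2 : (Z.map (Int.cast : ℤ → ℚ)).adjugate = Z.adjugate.map (Int.cast : ℤ → ℚ) := by
      have := RingHom.map_adjugate (Int.castRingHom ℚ) Z
      exact this.symm
    rw [h2]
    simp only [Matrix.mulVec, dotProduct, Matrix.map_apply]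
    push_cast
    rfl
  refine ⟨e, fun c => ?_, fun r => he (Sum.inr r), Z.det.natAbs, Int.natAbs_pos.2 hZ0, ?_,
    fun c => ?_⟩
  · have h1 := he (Sum.inl c)
    rw [hunit] at h1
    simpa [b'] using h1
  · have h1 := Matrix.det_le (A := Z) (abv := AbsoluteValue.abs) (x := (M : ℤ)) fun i j => hA' _ _
    rw [nsmul_eq_mul] at h1
    have h2 : ((Z.det.natAbs : ℕ) : ℤ) = |Z.det| := Int.natCast_natAbs _
    have h3 : ((Z.det.natAbs : ℕ) : ℤ) ≤
        (((Fintype.card κ).factorial * M ^ Fintype.card κ : ℕ) : ℤ) := by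
      rw [h2]
      push_cast
      exact h1
    exact_mod_cast h3
  · rcases Int.natAbs_eq Z.det with h1 | h1
    · refine ⟨(Z.adjugate.mulVec fun i => b' (s (φ i)).1) c, ?_⟩
      rw [← hsol]
      congr 1
      have := congrArg (Int.cast : ℤ → ℚ) h1
      rw [this]
      simp
    · refine ⟨-(Z.adjugate.mulVec fun i => b' (s (φ i)).1) c, ?_⟩
      push_cast
      rw [← hsol]
      have := congrArg (Int.cast : ℤ → ℚ) h1
      rw [this]
      simp

end vertex

end Pool.Agent.Q41.RC
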