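import Pool.Agent.Q41.RC.Curve
import Pool.Agent.Y169.TH.Snc

/-!
Hypersurfaces in products of projective spaces with normal crossings: certificates.
-/

set_option autoImplicit false
set_option linter.unusedSectionVars false

open FF MvPolynomial Pool.Agent.W603.LV

namespace Pool.Agent.Q41.RC

section exch

variable {σ κ : Type} [Fintype σ] [DecidableEq σ] {k : Type} [Field k]

/-- the columns: basis vectors or the vectors `w` -/
def colK {R : Type} [Zero R] [One R] (w : κ → σ → R) (c : σ → Option κ) : Matrix σ σ R :=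
  Matrix.of fun l b => (c b).elim (if l = b then 1 else 0) fun k => w k l

/-- all the elements of `J`, and only these, are selected -/
def CovK (J : Finset κ) (c : σ → Option κ) : Prop :=
  (∀ k ∈ J, ∃ b, c b = some k) ∧ ∀ b k, c b = some k → k ∈ J

theorem exists_selK [DecidableEq κ] (J : Finset κ) (w : κ → σ → k)
    (hw : LinearIndependent k fun i : J => w i) (J' : Finset κ) (hJ : J' ⊆ J) :
    ∃ c, CovK J' c ∧ (colK w c).det ≠ 0 := by
  classical
  induction J' using Finset.induction_on with
  | empty =>
    refine ⟨fun _ => none, ⟨by simp, by simp⟩, ?_⟩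
    have h1 : colK w (fun _ => none) = 1 := by
      ext l b
      unfold colK
      rw [Matrix.of_apply, Matrix.one_apply]
      rfl
    rw [h1, Matrix.det_one]
    exact one_ne_zero
  | insert i J' hi ih =>
    obtain ⟨c, hc, hdet⟩ := ih fun x hx => hJ (Finset.mem_insert_of_mem hx)
    have hiJ : i ∈ J := hJ (Finset.mem_insert_self _ _)
    have hunit : IsUnit (colK w c).det := isUnit_iff_ne_zero.2 hdet
    obtain ⟨α, hα⟩ : ∃ α : σ → k, α = (colK w c)⁻¹.mulVec (w i) := ⟨_, rfl⟩
    have hwα : ∀ l, w i l = ∑ b, α b • colK w c l b := by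
      intro l
      have h1 : (colK w c).mulVec α = w i := by
        rw [hα, Matrix.mulVec_mulVec, Matrix.mul_nonsing_inv _ hunit, Matrix.one_mulVec]
      have h2 := congrFun h1 l
      rw [← h2, Matrix.mulVec, dotProduct]
      exact Finset.sum_congr rfl fun b _ => by rw [smul_eq_mul, mul_comm]
    obtain ⟨b, hb, hαb⟩ : ∃ b, c b = none ∧ α b ≠ 0 := by
      by_contra hcon
      push Not at hcon
      have h1 := hw.notMem_span_image (s := {j : J | j.1 ∈ J'}) (x := ⟨i, hiJ⟩) hi
      apply h1
      have h2 : w i = ∑ b, α b • fun l => colK w c l b := by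
        funext l
        rw [hwα l, Finset.sum_apply]
        rfl
      change w i ∈ _
      rw [h2]
      refine Submodule.sum_mem _ fun b _ => ?_
      rcases hcb : c b with _ | j
      · rw [hcon b hcb, zero_smul]
        exact Submodule.zero_mem _
      · refine Submodule.smul_mem _ _ (Submodule.subset_span ?_)
        have hjJ' := hc.2 b j hcb
        refine ⟨⟨j, hJ (Finset.mem_insert_of_mem hjJ')⟩, hjJ', ?_⟩
        funext l
        unfold colK
        rw [Matrix.of_apply, hcb]
        rfl
    refine ⟨Function.update c b (some i), ⟨?_, ?_⟩, ?_⟩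
    · intro j hj
      rcases Finset.mem_insert.1 hj with rfl | hj
      · exact ⟨b, Function.update_self _ _ _⟩
      · obtain ⟨b', hb'⟩ := hc.1 j hj
        refine ⟨b', ?_⟩
        rw [Function.update_of_ne]
        · exact hb'
        · rintro rfl
          rw [hb] at hb'
          exact absurd hb' (by simp)
    · intro b' j hb'
      by_cases hbb : b' = b
      · subst hbb
        rw [Function.update_self] at hb'
        rw [Finset.mem_insert]
        left
        exact (Option.some.inj hb').symm
      · rw [Function.update_of_ne hbb] at hb'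
        exact Finset.mem_insert_of_mem (hc.2 b' j hb')
    · have h1 : colK w (Function.update c b (some i)) =
          (colK w c).updateCol b fun l => ∑ b, α b • colK w c l b := by
        ext l b'
        rw [Matrix.updateCol_apply]
        by_cases hbb : b' = b
        · subst hbb
          rw [if_pos rfl, ← hwα]
          unfold colK
          rw [Matrix.of_apply, Function.update_self]
          rfl
        · rw [if_neg hbb]
          unfold colK
          rw [Matrix.of_apply, Matrix.of_apply, Function.update_of_ne hbb]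
      rw [h1, Matrix.det_updateCol_sum, smul_eq_mul]
      exact mul_ne_zero hαb hdet

theorem map_colK {R S : Type} [CommRing R] [CommRing S] (f : R →+* S)
    (w : κ → σ → R) (c : σ → Option κ) :
    f (colK w c).det = (colK (fun i l => f (w i l)) c).det := by
  rw [RingHom.map_det]
  congr 1
  ext l b
  unfold colK
  rw [RingHom.mapMatrix_apply, Matrix.map_apply, Matrix.of_apply, Matrix.of_apply]
  rcases c b with _ | j
  · change f (if l = b then 1 else 0) = if l = b then 1 else 0
    split_ifs
    · exact map_one f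
    · exact map_zero f
  · rfl

end exch

variable {k ρ σ κ : Type} [Field k] [Fintype ρ] [Fintype σ] [Fintype κ] [DecidableEq σ]

/-- `x` is (the vector of the homogeneous coordinates of) a point of the product of the projective
spaces. -/
def IsPt (pr : σ → ρ) (x : σ → k) : Prop := ∀ l, ∃ i, pr i = l ∧ x i ≠ 0

/-- The hypersurfaces have normal crossings: the gradients of the forms which vanish at a point are
linearly independent. -/
def SNC (pr : σ → ρ) (F : κ → MvPolynomial σ k) : Prop :=
  ∀ x : σ → k, IsPt pr x → LinearIndependent k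
    fun (c : {c // eval x (F c) = 0}) (i : σ) => eval x (pderiv i (F c.1))

/-- the gradients -/
noncomputable def grad (F : κ → MvPolynomial σ k) (c : κ) (i : σ) : MvPolynomial σ k := pderiv i (F c)

/-- the selections -/
abbrev SelK (σ : Type) {κ : Type} (J : Finset κ) : Type := {c : σ → Option κ // CovK J c}

variable {pr : σ → ρ} {F : κ → MvPolynomial σ k}

/-- a product of coordinates in an ideal whose zeros are no points -/
theorem prod_mem_radical [IsAlgClosed k] {I : Ideal (MvPolynomial σ k)}
    (hI : ∀ x : σ → k, IsPt pr x → ∃ p ∈ I, eval x p ≠ 0) (j : ρ → σ) (hj : ∀ l, pr (j l) = l) :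
    ∃ M : ℕ, (∏ l, X (j l)) ^ M ∈ I := by
  classical
  have h1 : (∏ l, X (j l) : MvPolynomial σ k) ∈ vanishingIdeal k (zeroLocus k I) := by
    rw [mem_vanishingIdeal_iff]
    intro x hx
    rw [map_prod]
    by_contra hne
    have hpt : IsPt pr x := by
      intro l
      refine ⟨j l, hj l, fun h0 => hne ?_⟩
      refine Finset.prod_eq_zero (Finset.mem_univ l) ?_
      rw [aeval_X, h0]
    obtain ⟨p, hp, hpx⟩ := hI x hpt
    rw [mem_zeroLocus_iff] at hx
    exact hpx (hx p hp)
  rw [vanishingIdeal_zeroLocus_eq_radical] at h1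
  exact h1

/-- **The certificate.** -/
theorem selK_cert [IsAlgClosed k] (hS : SNC pr F) (J : Finset κ) (j : ρ → σ)
    (hj : ∀ l, pr (j l) = l) :
    ∃ (M : ℕ) (A : κ → MvPolynomial σ k) (B : SelK σ J → MvPolynomial σ k),
      (∏ l, X (j l)) ^ M = ∑ c ∈ J, A c * F c + ∑ᶠ s : SelK σ J, B s * (colK (grad F) s.1).det := by
  classical
  have : Fintype (SelK σ J) := Fintype.ofFinite _
  let gen : ({c // c ∈ J} ⊕ SelK σ J) → MvPolynomial σ k :=
    Sum.elim (fun c => F c.1) fun s => (colK (grad F) s.1).det
  obtain ⟨I, hI⟩ : ∃ I : Ideal (MvPolynomial σ k), I = Ideal.span (Set.range gen) := ⟨_, rfl⟩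
  obtain ⟨M, hM⟩ := prod_mem_radical (pr := pr) (I := I) (by
    intro x hx
    by_contra hcon
    push Not at hcon
    have hz : ∀ i, eval x (gen i) = 0 := fun i =>
      hcon (gen i) (by rw [hI]; exact Ideal.subset_span ⟨i, rfl⟩)
    have hlin := hS x hx
    have hw : LinearIndependent k fun (i : J) (l : σ) => eval x (grad F i.1 l) :=
      hlin.comp (fun i : J => (⟨i.1, hz (Sum.inl i)⟩ : {c // eval x (F c) = 0}))
        (fun a b hab => Subtype.ext (congrArg (fun t : {c // eval x (F c) = 0} => t.1) hab))
    obtain ⟨c, hc, hdet⟩ := exists_selK (k := k) J (fun i l => eval x (grad F i l)) hw J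
      (Finset.Subset.refl J)
    apply hdet
    rw [← map_colK (eval x) (grad F) c]
    exact hz (Sum.inr ⟨c, hc⟩)) j hj
  rw [hI, Ideal.mem_span_range_iff_exists_fun] at hM
  obtain ⟨A, hA⟩ := hM
  refine ⟨M, fun c => if h : c ∈ J then A (Sum.inl ⟨c, h⟩) else 0, fun c => A (Sum.inr c), ?_⟩
  rw [← hA, Fintype.sum_sum_type, finsum_eq_sum_of_fintype]
  congr 1
  rw [← Finset.sum_coe_sort J]
  refine Finset.sum_congr rfl fun i _ => ?_
  dsimp only
  rw [dif_pos i.2]
  rfl

variable {K : Type} [Field K] [Algebra k K]

theorem reg_aevalK {w : Place k K} {Z : σ → K} (hZ : ∀ b, w.Reg (Z b)) (P : MvPolynomial σ k) :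
    w.Reg (aeval Z P) := by
  induction P using MvPolynomial.induction_on with
  | C a =>
    rw [aeval_C]
    exact w.reg_const a
  | add p q hp hq => rw [map_add]; exact w.reg_add hp hq
  | mul_X p i hp => rw [map_mul, aeval_X]; exact w.reg_mul hp (hZ i)

theorem ge_one_absurd (P : Place k K) (h : Ge P 1 (1 : K)) : False := by
  rcases h with h | h
  · exact one_ne_zero h
  · rw [P.ord_one] at h
    omega

/-- a selection with a determinant which is a unit -/
theorem exists_unit_selK [IsAlgClosed k] (P : Place k K) (hS : SNC pr F) {u : σ → K}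
    (hu : ∀ i, P.Reg (u i)) {j : ρ → σ} (hj : ∀ l, pr (j l) = l) (hj1 : ∀ l, u (j l) = 1)
    (J : Finset κ) (hJ : ∀ c ∈ J, Ge P 1 (aeval u (F c))) :
    ∃ c, CovK J c ∧ aeval u (colK (grad F) c).det ≠ 0 ∧
      P.ord (aeval u (colK (grad F) c).det) = 0 := by
  classical
  have : Fintype (SelK σ J) := Fintype.ofFinite _
  by_contra hcon
  push Not at hcon
  have h1 : ∀ c : SelK σ J, Ge P 1 (aeval u (colK (grad F) c.1).det) := by
    intro c
    by_cases h0 : aeval u (colK (grad F) c.1).det = 0
    · exact Or.inl h0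
    · right
      have h2 := hcon c.1 c.2 h0
      have h3 := (reg_aevalK hu (colK (grad F) c.1).det).resolve_left h0
      omega
  obtain ⟨M, A, B, hA⟩ := selK_cert hS J j hj
  apply ge_one_absurd P
  have h5 := congrArg (aeval u) hA
  rw [map_pow, map_prod, Finset.prod_eq_one (fun l _ => by rw [aeval_X, hj1]), one_pow, map_add,
    map_sum, finsum_eq_sum_of_fintype, map_sum] at h5
  rw [h5]
  refine Ge.add (Ge.sum _ _ fun c hc => ?_) (Ge.sum _ _ fun c _ => ?_)
  · rw [map_mul]
    have h6 := (show Ge P 0 (aeval u (A c)) from reg_aevalK hu (A c)).mul (hJ c hc)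
    simpa using h6
  · rw [map_mul]
    have h6 := (show Ge P 0 (aeval u (B c)) from reg_aevalK hu (B c)).mul (h1 c)
    simpa using h6

/-- a common zero of the forms which vanish at the centre of a place -/
theorem exists_pt [IsAlgClosed k] (P : Place k K) {u : σ → K} (hu : ∀ i, P.Reg (u i)) {j : ρ → σ}
    (hj : ∀ l, pr (j l) = l) (hj1 : ∀ l, u (j l) = 1) (J : Finset κ)
    (hJ : ∀ c ∈ J, Ge P 1 (aeval u (F c))) :
    ∃ x : σ → k, IsPt pr x ∧ ∀ c ∈ J, eval x (F c) = 0 := by
  classical
  by_contra hcon
  push Not at hcon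
  obtain ⟨M, hM⟩ := prod_mem_radical (pr := pr)
    (I := Ideal.span (Set.range fun c : J => F c.1)) (by
    intro x hx
    obtain ⟨c, hc, hcx⟩ := hcon x hx
    exact ⟨F c, Ideal.subset_span ⟨⟨c, hc⟩, rfl⟩, hcx⟩) j hj
  rw [Ideal.mem_span_range_iff_exists_fun] at hM
  obtain ⟨A, hA⟩ := hM
  apply ge_one_absurd P
  have h5 := congrArg (aeval u) hA
  rw [map_pow, map_prod, Finset.prod_eq_one (fun l _ => by rw [aeval_X, hj1]), one_pow,
    map_sum] at h5
  rw [← h5]
  refine Ge.sum _ _ fun c _ => ?_
  rw [map_mul]
  have h6 := (show Ge P 0 (aeval u (A c)) from reg_aevalK hu (A c)).mul (hJ c.1 c.2)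
  simpa using h6

end Pool.Agent.Q41.RC
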