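import Mathlib
import Pool.Agent.H952R2.Sextic.CommonZero

/-!
Curves with prescribed intersections with hypersurfaces, through every point: the equations
`F (q (t)) = F (x) ∏ (1 - α_j t) ^ (V_j)`.
-/

set_option autoImplicit false

namespace Pool.Agent.Q41.RC

open Finset Polynomial

section homog

variable {k : Type} [Field k] {ρ σ : Type} [Fintype ρ] [Fintype σ]

open scoped Classical in
/-- `F` is homogeneous of degree `δ l` in the coordinates of the factor `l`. -/
def MH (pr : σ → ρ) (δ : ρ → ℕ) (F : MvPolynomial σ k) : Prop :=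
  ∀ s ∈ F.support, ∀ l, ∑ i, (if pr i = l then s i else 0) = δ l

theorem MH.scale {pr : σ → ρ} {δ : ρ → ℕ} {F : MvPolynomial σ k} (h : MH pr δ F) {B : Type}
    [CommRing B] [Algebra k B] (f : ρ → B) (y : σ → B) :
    MvPolynomial.aeval (fun i => f (pr i) * y i) F =
      (∏ l, f l ^ δ l) * MvPolynomial.aeval y F := by
  classical
  rw [MvPolynomial.aeval_def, MvPolynomial.aeval_def, MvPolynomial.eval₂_eq',
    MvPolynomial.eval₂_eq', Finset.mul_sum]
  refine Finset.sum_congr rfl fun s hs => ?_
  have h1 : ∏ l, f l ^ δ l = ∏ i, f (pr i) ^ s i := by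
    have h2 : ∀ l, f l ^ δ l = ∏ i, f l ^ (if pr i = l then s i else 0) := by
      intro l
      rw [Finset.prod_pow_eq_pow_sum, h s hs l]
    rw [Finset.prod_congr rfl fun l _ => h2 l, Finset.prod_comm]
    refine Finset.prod_congr rfl fun i _ => ?_
    rw [Finset.prod_eq_single (pr i)]
    · rw [if_pos rfl]
    · intro l _ hl
      rw [if_neg (Ne.symm hl), pow_zero]
    · intro h3
      exact absurd (Finset.mem_univ _) h3
  rw [h1]
  simp only [mul_pow, Finset.prod_mul_distrib]
  ring

theorem MH.natDegree_le {pr : σ → ρ} {δ : ρ → ℕ} {F : MvPolynomial σ k} (h : MH pr δ F)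
    {L : Type} [Field L] [Algebra k L] (D : ρ → ℕ) (q : σ → L[X])
    (hq : ∀ i, (q i).natDegree ≤ D (pr i)) :
    (MvPolynomial.aeval q F).natDegree ≤ ∑ l, D l * δ l := by
  classical
  rw [MvPolynomial.aeval_def, MvPolynomial.eval₂_eq']
  refine Polynomial.natDegree_sum_le_of_forall_le _ _ fun s hs => ?_
  refine (Polynomial.natDegree_mul_le).trans ?_
  have h1 : ((algebraMap k L[X]) (MvPolynomial.coeff s F)).natDegree = 0 := by
    rw [IsScalarTower.algebraMap_apply k L L[X]]
    exact Polynomial.natDegree_C _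
  rw [h1, zero_add]
  refine (Polynomial.natDegree_prod_le _ _).trans ?_
  have h2 : ∑ l, D l * δ l = ∑ i, D (pr i) * s i := by
    have h3 : ∀ l, D l * δ l = ∑ i, D l * (if pr i = l then s i else 0) := by
      intro l
      rw [← Finset.mul_sum, h s hs l]
    rw [Finset.sum_congr rfl fun l _ => h3 l, Finset.sum_comm]
    refine Finset.sum_congr rfl fun i _ => ?_
    rw [Finset.sum_eq_single (pr i)]
    · rw [if_pos rfl]
    · intro l _ hl
      rw [if_neg (Ne.symm hl), mul_zero]
    · intro h3
      exact absurd (Finset.mem_univ _) h3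
  rw [h2]
  refine Finset.sum_le_sum fun i _ => ?_
  refine (Polynomial.natDegree_pow_le).trans ?_
  rw [mul_comm]
  exact Nat.mul_le_mul_right _ (hq i)

end homog

/-- the generic curve through `a` with coordinates of degrees at most `w i` -/
noncomputable def gen {R σ : Type} [CommRing R] (w : σ → ℕ) (a : σ → R)
    (c : ((i : σ) × Fin (w i)) → R) (i : σ) : R[X] :=
  C (a i) + ∑ m : Fin (w i), C (c ⟨i, m⟩) * X ^ ((m : ℕ) + 1)

theorem gen_map {R S σ : Type} [CommRing R] [CommRing S] (f : R →+* S) (w : σ → ℕ)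
    (a : σ → R) (c : ((i : σ) × Fin (w i)) → R) (i : σ) :
    (gen w a c i).map f = gen w (fun i => f (a i)) (fun s => f (c s)) i := by
  unfold gen
  simp [Polynomial.map_sum]

theorem gen_eval {R σ : Type} [CommRing R] (w : σ → ℕ) (a : σ → R)
    (c : ((i : σ) × Fin (w i)) → R) (i : σ) : (gen w a c i).eval 0 = a i := by
  unfold gen
  rw [eval_add, eval_C, eval_finsetSum]
  simp

theorem gen_zero {R σ : Type} [CommRing R] (w : σ → ℕ) (a : σ → R) (i : σ) :
    gen w a 0 i = C (a i) := by
  unfold gen
  simp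

theorem gen_coeff {R σ : Type} [CommRing R] (w : σ → ℕ) (a : σ → R)
    (c : ((i : σ) × Fin (w i)) → R) (i : σ) (m : Fin (w i)) :
    (gen w a c i).coeff ((m : ℕ) + 1) = c ⟨i, m⟩ := by
  unfold gen
  rw [coeff_add, coeff_C_succ, zero_add, finsetSum_coeff]
  simp only [coeff_C_mul_X_pow]
  rw [Finset.sum_eq_single m]
  · simp
  · intro b _ hb
    rw [if_neg]
    intro h
    exact hb (Fin.ext (by omega))
  · simp

theorem gen_natDegree {R σ : Type} [CommRing R] (w : σ → ℕ) (a : σ → R)
    (c : ((i : σ) × Fin (w i)) → R) (i : σ) : (gen w a c i).natDegree ≤ w i := by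
  unfold gen
  refine (natDegree_add_le _ _).trans (max_le (by rw [natDegree_C]; exact Nat.zero_le _) ?_)
  refine natDegree_sum_le_of_forall_le _ _ fun m _ => ?_
  exact (natDegree_C_mul_X_pow_le _ _).trans m.2

/-- the product of the linear factors -/
noncomputable def lin {R J : Type} [CommRing R] [Fintype J] (α : J → R) (v : J → ℕ) : R[X] :=
  ∏ j, (1 - C (α j) * X) ^ v j

theorem lin_map {R S J : Type} [CommRing R] [CommRing S] [Fintype J] (f : R →+* S) (α : J → R)
    (v : J → ℕ) : (lin α v).map f = lin (fun j => f (α j)) v := by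
  unfold lin
  rw [Polynomial.map_prod]
  refine Finset.prod_congr rfl fun j _ => ?_
  rw [Polynomial.map_pow, Polynomial.map_sub, Polynomial.map_one, Polynomial.map_mul,
    Polynomial.map_C, Polynomial.map_X]

theorem lin_eval {R J : Type} [CommRing R] [Fintype J] (α : J → R) (v : J → ℕ) :
    (lin α v).eval 0 = 1 := by
  unfold lin
  rw [Polynomial.eval_prod]
  refine Finset.prod_eq_one fun j _ => ?_
  simp

theorem lin_zero {R J : Type} [CommRing R] [Fintype J] (v : J → ℕ) :
    lin (0 : J → R) v = 1 := by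
  unfold lin
  refine Finset.prod_eq_one fun j _ => ?_
  simp

theorem lin_natDegree {R J : Type} [CommRing R] [Fintype J] (α : J → R) (v : J → ℕ) :
    (lin α v).natDegree ≤ ∑ j, v j := by
  unfold lin
  refine (Polynomial.natDegree_prod_le _ _).trans ?_
  refine Finset.sum_le_sum fun j _ => ?_
  refine (Polynomial.natDegree_pow_le).trans ?_
  have h1 : (1 - C (α j) * X : R[X]).natDegree ≤ 1 := by
    refine (Polynomial.natDegree_sub_le _ _).trans (max_le (by rw [natDegree_one]; omega) ?_)
    exact (Polynomial.natDegree_C_mul_le _ _).trans Polynomial.natDegree_X_le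
  calc v j * (1 - C (α j) * X : R[X]).natDegree ≤ v j * 1 := Nat.mul_le_mul_left _ h1
    _ = v j := mul_one _

/-- **Curves through every point.** -/
theorem exists_curve {k L : Type} [Field k] [Field L] [IsAlgClosed L] [Algebra k L]
    {ρ σ κ J : Type} [Fintype ρ] [Fintype σ] [Fintype κ] [Fintype J] {pr : σ → ρ}
    {δ : κ → ρ → ℕ} {F : κ → MvPolynomial σ k} (hF : ∀ c, MH pr (δ c) (F c)) (x : σ → L)
    (D : ρ → ℕ) (V : J → κ → ℕ) (hle : ∀ c, ∑ j, V j c ≤ ∑ l, D l * δ c l)
    (hlt : ∑ c, ∑ l, D l * δ c l < ∑ i, D (pr i) + Fintype.card J) :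
    ∃ (q : σ → L[X]) (α : J → L), (∀ i, (q i).natDegree ≤ D (pr i)) ∧
      (∀ i, (q i).eval 0 = x i) ∧ ((∃ i, q i ≠ C (x i)) ∨ ∃ j, α j ≠ 0) ∧
      ∀ c, MvPolynomial.aeval q (F c) =
        C (MvPolynomial.aeval x (F c)) * lin α (fun j => V j c) := by
  classical
  let w : σ → ℕ := fun i => D (pr i)
  let U := ((i : σ) × Fin (w i)) ⊕ J
  let W := (c : κ) × Fin (∑ l, D l * δ c l)
  have hcard : Fintype.card W < Fintype.card U := by
    simpa [U, W, w] using hlt
  let R := MvPolynomial U L
  let G : σ → R[X] := gen w (fun i => MvPolynomial.C (x i)) (fun s => MvPolynomial.X (Sum.inl s))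
  let A : κ → R[X] := fun c => C (MvPolynomial.C (MvPolynomial.aeval x (F c))) *
    lin (fun j => MvPolynomial.X (Sum.inr j)) (fun j => V j c)
  let P : W → R := fun s => (MvPolynomial.aeval G (F s.1) - A s.1).coeff ((s.2 : ℕ) + 1)
  have hev : ∀ (c : U → L) (H : MvPolynomial σ k),
      (MvPolynomial.aeval G H).map (MvPolynomial.eval c) =
        MvPolynomial.aeval (gen w x (fun s => c (Sum.inl s))) H := by
    intro c H
    have h1 : ((Polynomial.mapAlgHom (MvPolynomial.aeval c : R →ₐ[L] L)).restrictScalars k).comp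
        (MvPolynomial.aeval G : MvPolynomial σ k →ₐ[k] R[X]) =
        MvPolynomial.aeval (gen w x (fun s => c (Sum.inl s))) := by
      apply MvPolynomial.algHom_ext
      intro i
      rw [AlgHom.comp_apply, MvPolynomial.aeval_X, MvPolynomial.aeval_X]
      change (G i).map _ = _
      rw [gen_map]
      congr 1
      · funext i
        exact MvPolynomial.eval_C (f := c) (x i)
      · funext s
        exact MvPolynomial.eval_X (f := c) (Sum.inl s)
    exact congrArg (fun f => f H) (congrArg DFunLike.coe h1)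
  have hevA : ∀ (c : U → L) (e : κ), (A e).map (MvPolynomial.eval c) =
      C (MvPolynomial.aeval x (F e)) * lin (fun j => c (Sum.inr j)) (fun j => V j e) := by
    intro c e
    change (C (MvPolynomial.C (MvPolynomial.aeval x (F e))) *
      lin (fun j => MvPolynomial.X (Sum.inr j)) (fun j => V j e)).map _ = _
    rw [Polynomial.map_mul, Polynomial.map_C, lin_map, MvPolynomial.eval_C]
    simp only [MvPolynomial.eval_X]
  have hP : ∀ (c : U → L) s, MvPolynomial.eval c (P s) =
      (MvPolynomial.aeval (gen w x (fun s => c (Sum.inl s))) (F s.1) -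
        C (MvPolynomial.aeval x (F s.1)) * lin (fun j => c (Sum.inr j)) (fun j => V j s.1)).coeff
          ((s.2 : ℕ) + 1) := by
    intro c s
    rw [← hev, ← hevA, ← Polynomial.map_sub, Polynomial.coeff_map]
  have h0 : ∀ s, MvPolynomial.eval 0 (P s) = 0 := by
    intro s
    rw [hP]
    have h2 : gen w x (fun s : ((i : σ) × Fin (w i)) => (0 : U → L) (Sum.inl s)) =
        fun i => C (x i) := by
      funext i
      exact gen_zero w x i
    have h3 : MvPolynomial.aeval (fun i => (C (x i) : L[X])) (F s.1) =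
        C (MvPolynomial.aeval x (F s.1)) := MvPolynomial.aeval_algebraMap_apply L[X] x (F s.1)
    have h4 : lin (fun j => (0 : U → L) (Sum.inr j)) (fun j => V j s.1) = (1 : L[X]) :=
      lin_zero _
    rw [h2, h3, h4, mul_one, sub_self, coeff_zero]
  obtain ⟨c, hc0, hc⟩ := Pool.Agent.H952R2.Sextic.exists_common_zero hcard P h0
  refine ⟨gen w x (fun s => c (Sum.inl s)), fun j => c (Sum.inr j), gen_natDegree w x _,
    gen_eval w x _, ?_, fun e => ?_⟩
  · obtain ⟨s, hs⟩ := Function.ne_iff.1 hc0
    rcases s with ⟨i, m⟩ | j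
    · left
      refine ⟨i, fun h => hs ?_⟩
      have h1 := gen_coeff w x (fun s => c (Sum.inl s)) i m
      rw [h, coeff_C_succ] at h1
      exact h1.symm
    · exact Or.inr ⟨j, hs⟩
  · have hdeg : (MvPolynomial.aeval (gen w x (fun s => c (Sum.inl s))) (F e) -
        C (MvPolynomial.aeval x (F e)) * lin (fun j => c (Sum.inr j)) (fun j => V j e)).natDegree ≤
          ∑ l, D l * δ e l := by
      refine (Polynomial.natDegree_sub_le _ _).trans (max_le ?_ ?_)
      · exact (hF e).natDegree_le D _ (gen_natDegree w x _)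
      · exact (Polynomial.natDegree_C_mul_le _ _).trans ((lin_natDegree _ _).trans (hle e))
    rw [← sub_eq_zero]
    ext l
    rw [coeff_zero]
    rcases l with _ | l
    · rw [coeff_zero_eq_eval_zero, eval_sub, eval_mul, eval_C, lin_eval, mul_one]
      have h1 : (Polynomial.eval 0 (MvPolynomial.aeval (gen w x (fun s => c (Sum.inl s))) (F e)) : L)
          = MvPolynomial.aeval (fun i => (gen w x (fun s => c (Sum.inl s)) i).eval 0) (F e) := by
        have h2 : (((Polynomial.aeval (0 : L) : L[X] →ₐ[L] L)).restrictScalars k).comp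
            (MvPolynomial.aeval (gen w x (fun s => c (Sum.inl s))) :
              MvPolynomial σ k →ₐ[k] L[X]) =
            MvPolynomial.aeval (fun i => (gen w x (fun s => c (Sum.inl s)) i).eval 0) := by
          apply MvPolynomial.algHom_ext
          intro i
          simp [Polynomial.aeval_def]
        have h3 := congrArg (fun f => f (F e)) (congrArg DFunLike.coe h2)
        rw [← h3]
        simp [Polynomial.aeval_def]
      rw [h1, sub_eq_zero]
      congr 2
      funext i
      exact gen_eval w x _ i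
    · by_cases hl : l < ∑ l, D l * δ e l
      · have h1 := hc ⟨e, ⟨l, hl⟩⟩
        rw [hP] at h1
        exact h1
      · exact coeff_eq_zero_of_natDegree_lt (by omega)

end Pool.Agent.Q41.RC
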