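import Pool.Agent.W619.TW.TDefs

/-!
# Abelian covers of products of projective spaces: definitions

The base is the product of the projective spaces of the dimensions `n l`, `l < r`, with the
homogeneous coordinates `x ⟨l, j⟩`, `j ≤ n l`. The hypersurfaces are given by multihomogeneous forms
`F c`, `c < N`, of the degree `d c l` in the coordinates of the factor `l`.
-/

set_option autoImplicit false

open FF MvPolynomial

namespace Pool.Agent.Q41.RC.Def

/-- The homogeneous coordinates of the product of the projective spaces. -/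
abbrev Coord {r : ℕ} (n : Fin r → ℕ) : Type := (l : Fin r) × Fin (n l + 1)

variable {r N R : ℕ} {n : Fin r → ℕ}

/-- `F` is a nonzero form of degree `d l` in the coordinates of the `l`-th factor, for all `l`. -/
def IsForm (d : Fin r → ℕ) (F : MvPolynomial (Coord n) ℂ) : Prop :=
  F ≠ 0 ∧ ∀ s ∈ F.support, ∀ l, ∑ j, s ⟨l, j⟩ = d l

/-- `x` is (the vector of the homogeneous coordinates of) a point of the product. -/
def IsPoint (x : Coord n → ℂ) : Prop := ∀ l, ∃ j, x ⟨l, j⟩ ≠ 0

/-- The hypersurfaces `F c = 0` have normal crossings (in particular, they are smooth): at each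
point the gradients of the forms `F c` which vanish at this point are linearly independent. -/
def NormalCrossings (F : Fin N → MvPolynomial (Coord n) ℂ) : Prop :=
  ∀ x, IsPoint x → LinearIndependent ℂ
    fun (c : {c // eval x (F c) = 0}) (i : Coord n) => eval x (pderiv i (F c.1))

/-- `K` is the function field of an abelian cover of the product of the projective spaces which is
branched at most along the hypersurfaces `F c = 0`: it is generated by the affine coordinates (the
`x i`, with `x ⟨l, 0⟩ = 1`) and by roots `z j`, `z j ^ m j = ∏ c, F c (x) ^ a j c`. -/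
structure IsCover (d : Fin N → Fin r → ℕ) (F : Fin N → MvPolynomial (Coord n) ℂ) (m : Fin R → ℕ)
    (a : Fin R → Fin N → ℕ) {K : Type} [Field K] [Algebra ℂ K] (x : Coord n → K) (z : Fin R → K) :
    Prop where
  dim : ∀ l, 1 ≤ n l
  form : ∀ c, IsForm (d c) (F c)
  pos : ∀ j, 1 ≤ m j
  dvd : ∀ j l, m j ∣ ∑ c, a j c * d c l
  one : ∀ l, x ⟨l, 0⟩ = 1
  basis : IsTranscendenceBasis ℂ fun b : (l : Fin r) × Fin (n l) => x ⟨b.1, b.2.succ⟩
  root : ∀ j, z j ^ m j = ∏ c, aeval x (F c) ^ a j c
  gen : IntermediateField.adjoin ℂ (Set.range x ∪ Set.range z) = ⊤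

/-- The divisorial places over the hypersurfaces `F c = 0` with `c` in `S`: the order of `F c` is
positive if the coordinates of each factor are divided by one of minimal order. -/
def Boundary (d : Fin N → Fin r → ℕ) (F : Fin N → MvPolynomial (Coord n) ℂ) (S : Set (Fin N))
    {K : Type} [Field K] [Algebra ℂ K] (x : Coord n → K) (P : Place ℂ K) : Prop :=
  ∃ c ∈ S, ∑ l, (d c l : ℤ) * (Finset.univ.inf' Finset.univ_nonempty fun j => P.ord (x ⟨l, j⟩)) <
    P.ord (aeval x (F c))

/-- `v` is a possible vector of multiplicities of the hypersurfaces along a divisor over the cover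
and outside the boundary: it is not zero, `v c = 0` for `c` in `S`, it satisfies the divisibility
conditions, and the hypersurfaces with `v c ≠ 0` have a common point. -/
structure IsVector (F : Fin N → MvPolynomial (Coord n) ℂ) (m : Fin R → ℕ) (a : Fin R → Fin N → ℕ)
    (S : Set (Fin N)) (v : Fin N → ℕ) : Prop where
  ne : v ≠ 0
  out : ∀ c ∈ S, v c = 0
  dvd : ∀ j, m j ∣ ∑ c, a j c * v c
  meet : ∃ x, IsPoint x ∧ ∀ c, v c ≠ 0 → eval x (F c) = 0

/-- Admissible exponents: `∏ c, F c ^ (e c - 1)` times the canonical form of the product of the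
projective spaces is (a root of) a logarithmic pluricanonical form on the cover. -/
structure IsExponent (d : Fin N → Fin r → ℕ) (F : Fin N → MvPolynomial (Coord n) ℂ)
    (m : Fin R → ℕ) (a : Fin R → Fin N → ℕ) (S : Set (Fin N)) (e : Fin N → ℚ) : Prop where
  nonneg : ∀ c, 0 ≤ e c
  deg : ∀ l, (n l : ℚ) + 1 ≤ ∑ c, (1 - e c) * d c l
  one_le : ∀ v, IsVector F m a S v → 1 ≤ ∑ c, (v c : ℚ) * e c

/-- Numerical data of a family of rational curves of the degree `D l` in the `l`-th factor which
meet the hypersurfaces in `p` points with the multiplicities `v i`: there are fewer conditions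
than parameters. -/
structure IsCurveData (n : Fin r → ℕ) (d : Fin N → Fin r → ℕ) (m : Fin R → ℕ)
    (a : Fin R → Fin N → ℕ) (S : Set (Fin N)) (D : Fin r → ℕ) {p : ℕ} (v : Fin p → Fin N → ℕ) :
    Prop where
  degree_ne : D ≠ 0
  ne : ∀ i, v i ≠ 0
  out : ∀ i, ∀ c ∈ S, v i c = 0
  dvd : ∀ i j, m j ∣ ∑ c, a j c * v i c
  le : ∀ c, ∑ i, v i c ≤ ∑ l, D l * d c l
  lt : ∑ c, ∑ l, D l * d c l < ∑ l, (n l + 1) * D l + p

end Pool.Agent.Q41.RC.Def
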