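import Pool.Agent.Q41.RC.Eff
import Pool.Agent.Q41.RC.Defs

/-!
The theorems in terms of the definitions of `Pool.Agent.Q41.RC.Defs`.
-/

set_option autoImplicit false

open FF MvPolynomial
open Pool.Agent.W619.PL Pool.Agent.W619.PQ Pool.Agent.W619.TW

namespace Pool.Agent.Q41.RC

/-- forms do not vanish at the generic point -/
theorem aeval_ne_zero {k K ρ σ : Type} [Field k] [Infinite k] [Field K] [Algebra k K] [Fintype ρ]
    [Fintype σ] {pr : σ → ρ} {o : ρ → σ} {δ : ρ → ℕ} {F : MvPolynomial σ k} (hF : MH pr δ F)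
    (hF0 : F ≠ 0) {y : σ → K} (hy : ∀ l, y (o l) = 1) (ho : ∀ l, pr (o l) = l)
    (hind : AlgebraicIndependent k (fun i : {i : σ // i ≠ o (pr i)} => y i.1)) :
    aeval y F ≠ 0 := by
  classical
  intro h0
  let g : σ → MvPolynomial {i : σ // i ≠ o (pr i)} k := fun i =>
    if h : i ≠ o (pr i) then X ⟨i, h⟩ else 1
  have h1 : ∀ P : MvPolynomial σ k, aeval (fun i : {i : σ // i ≠ o (pr i)} => y i.1)
      (aeval g P) = aeval y P := by
    intro P
    induction P using MvPolynomial.induction_on with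
    | C c => simp
    | add p q hp hq => rw [map_add, map_add, map_add, hp, hq]
    | mul_X p i hp =>
      rw [map_mul, map_mul, map_mul, hp, aeval_X, aeval_X]
      congr 1
      by_cases h : i ≠ o (pr i)
      · simp only [g, dif_pos h, aeval_X]
      · simp only [g, dif_neg h, map_one]
        rw [not_not.1 h, hy]
  have h2 : aeval g F = 0 := by
    apply (injective_iff_map_eq_zero _).1 hind
    rw [h1, h0]
  have h3 : F * ∏ l, X (o l) = 0 := by
    apply MvPolynomial.funext
    intro x
    rw [map_mul, map_prod, map_zero]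
    by_cases hx : ∏ l, eval x (X (o l)) = 0
    · rw [hx, mul_zero]
    · have h4 : ∀ l, x (o l) ≠ 0 := by
        intro l hl
        apply hx
        exact Finset.prod_eq_zero (Finset.mem_univ l) (by rw [eval_X, hl])
      have h5 := hF.scale (B := k) (fun l => x (o l)) (fun i => x i / x (o (pr i)))
      have h6 : (fun i => x (o (pr i)) * (x i / x (o (pr i)))) = x := by
        funext i
        rw [mul_div_cancel₀ _ (h4 _)]
      rw [h6] at h5
      have h7 : ∀ P : MvPolynomial σ k,
          eval (fun i : {i : σ // i ≠ o (pr i)} => x i.1 / x (o (pr i.1))) (aeval g P) =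
            aeval (fun i => x i / x (o (pr i))) P := by
        intro P
        induction P using MvPolynomial.induction_on with
        | C c => simp
        | add p q hp hq => rw [map_add, map_add, map_add, hp, hq]
        | mul_X p i hp =>
          rw [map_mul, map_mul, map_mul, hp, aeval_X, aeval_X]
          congr 1
          by_cases h : i ≠ o (pr i)
          · simp only [g, dif_pos h, eval_X]
          · simp only [g, dif_neg h, map_one]
            rw [not_not.1 h, ho, div_self (h4 _)]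
      rw [← h7, h2, map_zero, mul_zero] at h5
      have h8 : eval x F = 0 := by
        rw [← h5]
        rfl
      rw [h8, zero_mul]
  rcases mul_eq_zero.1 h3 with h4 | h4
  · exact hF0 h4
  · exact Finset.prod_ne_zero_iff.2 (fun l _ => X_ne_zero _) h4

section

variable {r N R : ℕ} {n : Fin r → ℕ} {d : Fin N → Fin r → ℕ}
  {F : Fin N → MvPolynomial (Def.Coord n) ℂ} {m : Fin R → ℕ} {a : Fin R → Fin N → ℕ} {K : Type}
  [Field K] [Algebra ℂ K] {x : Def.Coord n → K} {z : Fin R → K} {S : Set (Fin N)}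

theorem mh_of_form {d : Fin r → ℕ} {F : MvPolynomial (Def.Coord n) ℂ} (h : Def.IsForm d F) :
    MH (Sigma.fst : Def.Coord n → Fin r) d F := by
  classical
  intro s hs l
  rw [← h.2 s hs l, Fintype.sum_sigma, Finset.sum_eq_single l]
  · exact Finset.sum_congr rfl fun j _ => if_pos rfl
  · intro l' _ hl'
    exact Finset.sum_eq_zero fun j _ => if_neg hl'
  · intro h1
    exact absurd (Finset.mem_univ _) h1

theorem cov_of_cover (h : Def.IsCover d F m a x z) :
    IsCov (Sigma.fst : Def.Coord n → Fin r) (fun l => ⟨l, 0⟩) d F m a x z := by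
  classical
  let e : (l : Fin r) × Fin (n l) ≃ {i : Def.Coord n // i ≠ ⟨i.1, 0⟩} :=
    { toFun := fun b => ⟨⟨b.1, b.2.succ⟩, fun h1 => by
        have h2 := eq_of_heq (Sigma.mk.inj h1).2
        exact Fin.succ_ne_zero _ h2⟩
      invFun := fun i => ⟨i.1.1, i.1.2.pred fun h1 => i.2 (by rw [← h1])⟩
      left_inv := fun b => by simp
      right_inv := fun i => by simp }
  have hbas : IsTranscendenceBasis ℂ (fun i : {i : Def.Coord n // i ≠ ⟨i.1, 0⟩} => x i.1) := by
    have h1 := h.basis.comp_equiv e.symm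
    have h2 : (fun b : (l : Fin r) × Fin (n l) => x ⟨b.1, b.2.succ⟩) ∘ e.symm =
        fun i : {i : Def.Coord n // i ≠ ⟨i.1, 0⟩} => x i.1 := by
      funext i
      have h3 := e.apply_symm_apply i
      have h4 : (e (e.symm i)).1 = i.1 := congrArg Subtype.val h3
      exact congrArg x h4
    rw [h2] at h1
    exact h1
  refine ⟨fun l => rfl, fun l => ?_, fun c => mh_of_form (h.form c), h.pos, h.dvd, h.one, hbas,
    fun c => ?_, h.root, h.gen⟩
  · have h1 := h.dim l
    refine ⟨⟨l, ⟨1, by omega⟩⟩, rfl, fun h2 => ?_⟩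
    have h3 := eq_of_heq (Sigma.mk.inj h2).2
    have h4 := congrArg Fin.val h3
    simp at h4
  · exact aeval_ne_zero (pr := (Sigma.fst : Def.Coord n → Fin r)) (o := fun l => ⟨l, 0⟩)
      (mh_of_form (h.form c)) (h.form c).1 h.one (fun l => rfl) hbas.1

theorem trdeg_cover (h : Def.IsCover d F m a x z) :
    Algebra.trdeg ℂ K = ((∑ l, n l : ℕ) : Cardinal) := by
  rw [← h.basis.cardinalMk_eq_trdeg, Cardinal.mk_fintype]
  simp

theorem snc_of_nc (h : Def.NormalCrossings F) [DecidableEq (Def.Coord n)] :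
    SNC (Sigma.fst : Def.Coord n → Fin r) F := by
  intro y hy
  have h1 : Def.IsPoint y := by
    intro l
    obtain ⟨⟨l', j⟩, hl, hj⟩ := hy l
    change l' = l at hl
    subst hl
    exact ⟨j, hj⟩
  exact h y h1

theorem isPt_iff {y : Def.Coord n → ℂ} :
    IsPt (Sigma.fst : Def.Coord n → Fin r) y ↔ Def.IsPoint y := by
  constructor
  · intro hy l
    obtain ⟨⟨l', j⟩, hl, hj⟩ := hy l
    change l' = l at hl
    subst hl
    exact ⟨j, hj⟩
  · intro hy l
    obtain ⟨j, hj⟩ := hy l
    exact ⟨⟨l, j⟩, rfl, hj⟩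

theorem isVec_iff {v : Fin N → ℕ} :
    IsVec (Sigma.fst : Def.Coord n → Fin r) m a (· ∈ S) F v ↔ Def.IsVector F m a S v := by
  constructor
  · rintro ⟨h1, h2, h3, y, hy, h4⟩
    exact ⟨h1, h2, h3, y, isPt_iff.1 hy, h4⟩
  · rintro ⟨h1, h2, h3, y, hy, h4⟩
    exact ⟨h1, h2, h3, y, isPt_iff.2 hy, h4⟩

theorem card_fib (l : Fin r) [DecidablePred fun i : Def.Coord n => i.1 = l] :
    (Finset.univ.filter fun i : Def.Coord n => i.1 = l).card = n l + 1 := by
  rw [Finset.card_filter, Fintype.sum_sigma, Finset.sum_eq_single l]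
  · simp
  · intro l' _ hl'
    exact Finset.sum_eq_zero fun j _ => if_neg hl'
  · intro h1
    exact absurd (Finset.mem_univ _) h1

theorem isExp_iff {e : Fin N → ℚ} :
    IsExp (Sigma.fst : Def.Coord n → Fin r) d m a (· ∈ S) F e ↔ Def.IsExponent d F m a S e := by
  constructor
  · rintro ⟨h1, h2, h3⟩
    refine ⟨h1, fun l => ?_, fun v hv => h3 v (isVec_iff.2 hv)⟩
    have h4 := h2 l
    rw [@card_fib r n l (fun i => Classical.propDecidable _)] at h4
    exact_mod_cast h4
  · rintro ⟨h1, h2, h3⟩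
    refine ⟨h1, fun l => ?_, fun v hv => h3 v (isVec_iff.1 hv)⟩
    have h4 := h2 l
    rw [@card_fib r n l (fun i => Classical.propDecidable _)]
    exact_mod_cast h4

theorem dat_of_data {D : Fin r → ℕ} {p : ℕ} {v : Fin p → Fin N → ℕ}
    (h : Def.IsCurveData n d m a S D v) :
    IsDat (Sigma.fst : Def.Coord n → Fin r) d m a (· ∈ S) D v := by
  refine ⟨h.degree_ne, h.ne, h.out, h.dvd, h.le, ?_⟩
  have h1 : ∑ i : Def.Coord n, D i.1 = ∑ l, (n l + 1) * D l := by
    rw [Fintype.sum_sigma]
    exact Finset.sum_congr rfl fun l _ => by simp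
  rw [Fintype.card_fin, h1]
  exact h.lt

theorem hasDat_iff : (∃ M, HasDat (Sigma.fst : Def.Coord n → Fin r) d m a (· ∈ S) M) ↔
    ∃ (D : Fin r → ℕ) (p : ℕ) (v : Fin p → Fin N → ℕ), Def.IsCurveData n d m a S D v := by
  constructor
  · rintro ⟨M, D, I, hI, V, h, -⟩
    let e := Fintype.equivFin I
    refine ⟨D, Fintype.card I, fun i => V (e.symm i), h.hD, fun i => h.hV _, fun i => h.hS _,
      fun i => h.hA _, fun c => ?_, ?_⟩
    · rw [Equiv.sum_comp e.symm fun i => V i c]
      exact h.hle c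
    · have h1 : ∑ i : Def.Coord n, D i.1 = ∑ l, (n l + 1) * D l := by
        rw [Fintype.sum_sigma]
        exact Finset.sum_congr rfl fun l _ => by simp
      have h2 := h.hlt
      rw [h1] at h2
      exact h2
  · rintro ⟨D, p, v, h⟩
    exact ⟨_, D, Fin p, inferInstance, v, dat_of_data h, rfl⟩

theorem overS_eq (x : Def.Coord n → K) :
    OverS (Sigma.fst : Def.Coord n → Fin r) d F x (· ∈ S) = Def.Boundary d F S x := by
  funext P
  apply propext
  constructor
  · rintro ⟨c, hc, h⟩
    refine ⟨c, hc, h _ fun i => ?_⟩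
    exact Finset.inf'_le (fun j => P.ord (x ⟨i.1, j⟩)) (Finset.mem_univ i.2)
  · rintro ⟨c, hc, h⟩
    refine ⟨c, hc, fun μ hμ => lt_of_le_of_lt ?_ h⟩
    refine Finset.sum_le_sum fun l _ => mul_le_mul_of_nonneg_left ?_ (by positivity)
    exact Finset.le_inf' _ _ fun j _ => hμ ⟨l, j⟩

end

end Pool.Agent.Q41.RC
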