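import Pool.Agent.Q41.RC.Red
import Pool.Agent.Q41.RC.Nz
import Pool.Agent.Y169.TH.LP
import Pool.Agent.Y199.NN.Farkas

/-!
Duality: exponents of forms, or data for curves.
-/

set_option autoImplicit false

open MvPolynomial

namespace Pool.Agent.Q41.RC

variable {k ρ σ κ J : Type} [Field k] [Fintype ρ] [Fintype σ] [Fintype κ]

/-- The vectors of the multiplicities of the hypersurfaces along the divisors outside the boundary:
the divisibility conditions, and the hypersurfaces with positive multiplicity have a common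
point. -/
structure IsVec (pr : σ → ρ) (m : J → ℕ) (a : J → κ → ℕ) (S : κ → Prop) (F : κ → MvPolynomial σ k)
    (v : κ → ℕ) : Prop where
  ne : v ≠ 0
  out : ∀ c, S c → v c = 0
  dvd : ∀ j, m j ∣ ∑ c, a j c * v c
  pt : ∃ x : σ → k, IsPt pr x ∧ ∀ c, v c ≠ 0 → eval x (F c) = 0

open scoped Classical in
/-- The exponents of the logarithmic forms. -/
structure IsExp (pr : σ → ρ) (δ : κ → ρ → ℕ) (m : J → ℕ) (a : J → κ → ℕ) (S : κ → Prop)
    (F : κ → MvPolynomial σ k) (e : κ → ℚ) : Prop where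
  nonneg : ∀ c, 0 ≤ e c
  deg : ∀ l, ((Finset.univ.filter fun i => pr i = l).card : ℚ) ≤ ∑ c, (1 - e c) * δ c l
  one_le : ∀ v, IsVec pr m a S F v → 1 ≤ ∑ c, (v c : ℚ) * e c

variable {pr : σ → ρ} {δ : κ → ρ → ℕ} {m : J → ℕ} {a : J → κ → ℕ} {S : κ → Prop}
  {F : κ → MvPolynomial σ k}

theorem sum_fib (f : ρ → ℕ) [DecidableEq ρ] :
    ∑ i, f (pr i) = ∑ l, f l * (Finset.univ.filter fun i => pr i = l).card := by
  rw [← Finset.sum_fiberwise Finset.univ pr]
  refine Finset.sum_congr rfl fun l _ => ?_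
  rw [Finset.sum_congr rfl (fun i hi => by rw [(Finset.mem_filter.1 hi).2]), Finset.sum_const,
    smul_eq_mul, mul_comm]

/-- **Duality.** -/
theorem exp_or_dat (h : ¬ ∃ e, IsExp pr δ m a S F e) : ∃ N, HasDat pr δ m a S N := by
  classical
  have hfin : {v | Minimal (· ∈ {w | IsVec pr m a S F w}) v}.Finite := by
    have h2 : IsAntichain (· ≤ ·) {v | Minimal (· ∈ {w | IsVec pr m a S F w}) v} :=
      setOfPred_minimal_antichain _
    exact h2.finite_of_partiallyWellOrderedOn (Set.isPWO_of_wellQuasiOrderedLE _)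
  obtain ⟨T, hT⟩ : ∃ T : Finset (κ → ℕ), ∀ v, v ∈ T ↔ Minimal (· ∈ {w | IsVec pr m a S F w}) v :=
    ⟨hfin.toFinset, fun v => hfin.mem_toFinset⟩
  have hTv : ∀ v : T, IsVec pr m a S F v.1 := fun v => ((hT v.1).1 v.2).1
  have hTle : ∀ v, IsVec pr m a S F v → ∃ v0 : T, v0.1 ≤ v := by
    intro v hv
    have h1 : ({w | IsVec pr m a S F w} : Set (κ → ℕ)).IsPWO := Set.isPWO_of_wellQuasiOrderedLE _
    obtain ⟨s, hs, hm⟩ := h1.exists_le_minimal (show v ∈ {w | IsVec pr m a S F w} from hv)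
    exact ⟨⟨s, (hT s).2 hm⟩, hs⟩
  let s : ρ → ℚ := fun l => ((Finset.univ.filter fun i => pr i = l).card : ℚ)
  let Y : κ → ((κ → ℚ) × ℚ) →ₗ[ℚ] ℚ := fun c => (LinearMap.proj c).comp (LinearMap.fst ℚ _ _)
  let t : ((κ → ℚ) × ℚ) →ₗ[ℚ] ℚ := LinearMap.snd ℚ _ _
  let L : κ ⊕ (ρ ⊕ T) → ((κ → ℚ) × ℚ) →ₗ[ℚ] ℚ := Sum.elim (fun c => - Y c)
    (Sum.elim (fun l => s l • t - ∑ c, (δ c l : ℚ) • (t - Y c))
      (fun v => t - ∑ c, (v.1 c : ℚ) • Y c))
  obtain ⟨w, hw, hf⟩ := Pool.Agent.Y169.TH.farkas_fin L t (by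
    rintro ⟨y, r⟩ hy
    by_contra hr
    have hr : 0 < r := not_le.1 hr
    apply h
    have h1 : ∀ c, 0 ≤ y c := fun c => by
      have h2 := hy (Sum.inl c)
      simpa [L, Y] using h2
    refine ⟨fun c => y c / r, fun c => div_nonneg (h1 c) hr.le, fun l => ?_, fun v hv => ?_⟩
    · have h2 := hy (Sum.inr (Sum.inl l))
      simp only [L, Y, t, s, Sum.elim_inr, Sum.elim_inl, LinearMap.sub_apply, LinearMap.smul_apply,
        LinearMap.sum_apply, LinearMap.comp_apply, LinearMap.proj_apply, LinearMap.fst_apply,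
        LinearMap.snd_apply, smul_eq_mul] at h2
      have h3 : ∑ c, (1 - y c / r) * (δ c l : ℚ) = (∑ c, (δ c l : ℚ) * (r - y c)) / r := by
        rw [Finset.sum_div]
        refine Finset.sum_congr rfl fun c _ => ?_
        field_simp
      rw [h3, le_div_iff₀ hr]
      linarith
    · obtain ⟨v0, hv0⟩ := hTle v hv
      have h2 := hy (Sum.inr (Sum.inr v0))
      simp only [L, Y, t, Sum.elim_inr, LinearMap.sub_apply, LinearMap.smul_apply,
        LinearMap.sum_apply, LinearMap.comp_apply, LinearMap.proj_apply, LinearMap.fst_apply,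
        LinearMap.snd_apply, smul_eq_mul] at h2
      have h3 : ∑ c, (v c : ℚ) * (y c / r) = (∑ c, (v c : ℚ) * y c) / r := by
        rw [Finset.sum_div]
        exact Finset.sum_congr rfl fun c _ => by rw [mul_div_assoc]
      rw [h3, le_div_iff₀ hr, one_mul]
      have h4 : ∑ c, (v0.1 c : ℚ) * y c ≤ ∑ c, (v c : ℚ) * y c :=
        Finset.sum_le_sum fun c _ => mul_le_mul_of_nonneg_right (by exact_mod_cast hv0 c) (h1 c)
      linarith)
  -- the two identities
  have hc : ∀ c, ∑ v : T, w (Sum.inr (Sum.inr v)) * (v.1 c : ℚ) ≤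
      ∑ l, w (Sum.inr (Sum.inl l)) * (δ c l : ℚ) := by
    intro c
    have h1 := hf (Pi.single c 1, 0)
    simp only [L, Y, t, Fintype.sum_sum_type, Sum.elim_inr, Sum.elim_inl, LinearMap.sub_apply,
      LinearMap.smul_apply, LinearMap.neg_apply, LinearMap.sum_apply, LinearMap.comp_apply,
      LinearMap.proj_apply, LinearMap.fst_apply, LinearMap.snd_apply, smul_eq_mul, mul_zero,
      zero_sub] at h1
    have h2 : ∑ c', w (Sum.inl c') * -(Pi.single c (1 : ℚ) : κ → ℚ) c' = - w (Sum.inl c) := by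
      rw [Finset.sum_eq_single c]
      · simp
      · intro b _ hb
        rw [Pi.single_eq_of_ne hb]
        ring
      · intro h3
        exact absurd (Finset.mem_univ _) h3
    have h3 : ∀ f : κ → ℚ, ∑ c', f c' * (Pi.single c (1 : ℚ) : κ → ℚ) c' = f c := by
      intro f
      rw [Finset.sum_eq_single c]
      · simp
      · intro b _ hb
        rw [Pi.single_eq_of_ne hb]
        ring
      · intro h3
        exact absurd (Finset.mem_univ _) h3
    rw [h2] at h1
    simp only [h3, neg_neg, mul_neg, Finset.sum_neg_distrib] at h1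
    have h5 := hw (Sum.inl c)
    linarith
  have ht : (1 : ℚ) = ∑ l, w (Sum.inr (Sum.inl l)) * (s l - ∑ c, (δ c l : ℚ)) +
      ∑ v : T, w (Sum.inr (Sum.inr v)) := by
    have h1 := hf (0, 1)
    simp only [L, Y, t, Fintype.sum_sum_type, Sum.elim_inr, Sum.elim_inl, LinearMap.sub_apply,
      LinearMap.smul_apply, LinearMap.neg_apply, LinearMap.sum_apply, LinearMap.comp_apply,
      LinearMap.proj_apply, LinearMap.fst_apply, LinearMap.snd_apply, smul_eq_mul, mul_zero,
      Pi.zero_apply, neg_zero, mul_one, sub_zero, Finset.sum_const_zero, zero_add] at h1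
    exact h1
  -- integers
  obtain ⟨d, μ, hd, hμ⟩ := Pool.Agent.Y199.NN.clear (fun b : ρ ⊕ T => w (Sum.inr b))
    fun b => hw _
  let D : ρ → ℕ := fun l => μ (Sum.inl l)
  have hV : ∀ c, ∑ v : T, μ (Sum.inr v) * v.1 c ≤ ∑ l, D l * δ c l := by
    intro c
    have h1 : ((∑ v : T, μ (Sum.inr v) * v.1 c : ℕ) : ℚ) ≤ ((∑ l, D l * δ c l : ℕ) : ℚ) := by
      push_cast
      have h2 : ∑ v : T, (μ (Sum.inr v) : ℚ) * (v.1 c : ℚ) =
          d * ∑ v : T, w (Sum.inr (Sum.inr v)) * (v.1 c : ℚ) := by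
        rw [Finset.mul_sum]
        exact Finset.sum_congr rfl fun v _ => by rw [hμ]; ring
      have h3 : ∑ l, (D l : ℚ) * (δ c l : ℚ) = d * ∑ l, w (Sum.inr (Sum.inl l)) * (δ c l : ℚ) := by
        rw [Finset.mul_sum]
        exact Finset.sum_congr rfl fun l _ => by
          change (μ (Sum.inl l) : ℚ) * _ = _
          rw [hμ]
          ring
      rw [h2, h3]
      exact mul_le_mul_of_nonneg_left (hc c) (by positivity)
    exact_mod_cast h1
  have hcount : (d : ℚ) = ∑ l, (D l : ℚ) * (s l - ∑ c, (δ c l : ℚ)) +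
      ∑ v : T, (μ (Sum.inr v) : ℚ) := by
    have h1 : ∑ l, (D l : ℚ) * (s l - ∑ c, (δ c l : ℚ)) =
        d * ∑ l, w (Sum.inr (Sum.inl l)) * (s l - ∑ c, (δ c l : ℚ)) := by
      rw [Finset.mul_sum]
      exact Finset.sum_congr rfl fun l _ => by
        change (μ (Sum.inl l) : ℚ) * _ = _
        rw [hμ]
        ring
    have h2 : ∑ v : T, (μ (Sum.inr v) : ℚ) = d * ∑ v : T, w (Sum.inr (Sum.inr v)) := by
      rw [Finset.mul_sum]
      exact Finset.sum_congr rfl fun v _ => hμ _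
    rw [h1, h2, ← mul_add, ← ht, mul_one]
  let I := (v : T) × Fin (μ (Sum.inr v))
  have hI : ∀ f : T → ℕ, ∑ i : I, f i.1 = ∑ v, μ (Sum.inr v) * f v := by
    intro f
    rw [Fintype.sum_sigma]
    exact Finset.sum_congr rfl fun v _ => by simp
  refine ⟨∑ l, D l, D, I, inferInstance, fun i => i.1.1, ⟨?_, fun i => (hTv i.1).ne,
    fun i => (hTv i.1).out, fun i => (hTv i.1).dvd, fun c => ?_, ?_⟩, rfl⟩
  · intro hD0
    have h1 : ∀ v : T, μ (Sum.inr v) = 0 := by
      intro v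
      obtain ⟨c, hc⟩ := Function.ne_iff.1 (hTv v).ne
      have h2 := hV c
      simp only [hD0, Pi.zero_apply, zero_mul, Finset.sum_const_zero, nonpos_iff_eq_zero] at h2
      have h3 := (Finset.sum_eq_zero_iff.1 h2) v (Finset.mem_univ v)
      exact (Nat.mul_eq_zero.1 h3).resolve_right hc
    rw [hD0] at hcount
    simp only [h1, Pi.zero_apply, Nat.cast_zero, zero_mul, Finset.sum_const_zero, add_zero]
      at hcount
    have h4 : (0 : ℚ) < d := by exact_mod_cast hd
    rw [hcount] at h4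
    exact lt_irrefl _ h4
  · rw [hI fun v => v.1 c]
    exact hV c
  · have h1 : Fintype.card I = ∑ v : T, μ (Sum.inr v) := by
      simp [I]
    rw [h1, sum_fib (pr := pr) D]
    have h2 : (0 : ℚ) < d := by exact_mod_cast hd
    have h3 : ((∑ c, ∑ l, D l * δ c l : ℕ) : ℚ) <
        ((∑ l, D l * (Finset.univ.filter fun i => pr i = l).card + ∑ v : T, μ (Sum.inr v) : ℕ) : ℚ) := by
      push_cast
      have h4 : ∑ l, (D l : ℚ) * (s l - ∑ c, (δ c l : ℚ)) =
          ∑ l, (D l : ℚ) * ((Finset.univ.filter fun i => pr i = l).card : ℚ) -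
            ∑ c, ∑ l, (D l : ℚ) * (δ c l : ℚ) := by
        rw [Finset.sum_comm, ← Finset.sum_sub_distrib]
        refine Finset.sum_congr rfl fun l _ => ?_
        rw [mul_sub, Finset.mul_sum]
      rw [h4] at hcount
      linarith
    exact_mod_cast h3

end Pool.Agent.Q41.RC
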