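import Pool.Agent.Q41.RC.Br
import Pool.Agent.Q41.RC.Fk
import Pool.Agent.Y169.TH.Kod

/-!
Exponents give logarithmic pluricanonical forms.
-/

set_option autoImplicit false

open FF MvPolynomial Pool.Agent.W603.LV Pool.Agent.W602.GT
open Pool.Agent.W619.PL Pool.Agent.W619.PQ Pool.Agent.W619.TW

namespace Pool.Agent.Q41.RC

variable {k K ρ σ κ J : Type} [Field k] [Field K] [Algebra k K] [Fintype ρ] [Fintype σ]
    [Fintype κ] [Fintype J] {pr : σ → ρ} {o : ρ → σ} {δ : κ → ρ → ℕ} {F : κ → MvPolynomial σ k}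
    {m : J → ℕ} {a : J → κ → ℕ} {y : σ → K} {z : J → K}

omit [Fintype J] in
theorem IsCov.exists_dat (h : IsCov pr o δ F m a y z) (P : Place k K) :
    ∃ α v, DatK P pr F δ y α v := by
  classical
  have hne : ∀ l, (Finset.univ.filter fun i => pr i = l).Nonempty := fun l =>
    ⟨o l, Finset.mem_filter.2 ⟨Finset.mem_univ _, h.ho l⟩⟩
  let α : ρ → ℤ := fun l => (Finset.univ.filter fun i => pr i = l).inf' (hne l) fun i => P.ord (y i)
  have hα1 : ∀ i, α (pr i) ≤ P.ord (y i) := fun i =>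
    Finset.inf'_le (s := Finset.univ.filter fun i' => pr i' = pr i) (fun i' => P.ord (y i'))
      (Finset.mem_filter.2 ⟨Finset.mem_univ i, rfl⟩)
  have hα2 : ∀ l, ∃ i, pr i = l ∧ P.ord (y i) = α l := by
    intro l
    obtain ⟨i, hi, hil⟩ := Finset.exists_mem_eq_inf' (hne l) fun i => P.ord (y i)
    exact ⟨i, (Finset.mem_filter.1 hi).2, hil.symm⟩
  choose j hj1 hj2 using hα2
  have hFu : ∀ c, aeval y (F c) =
      (∏ l, y (j l) ^ δ c l) * aeval (fun i => y i / y (j (pr i))) (F c) := by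
    intro c
    rw [← (h.hF c).scale (fun l => y (j l)) fun i => y i / y (j (pr i))]
    congr 2
    funext i
    rw [mul_div_cancel₀ _ (h.y_ne _)]
  have hureg : ∀ i, P.Reg (y i / y (j (pr i))) := by
    intro i
    right
    rw [P.ord_div (h.y_ne i) (h.y_ne _), hj2]
    linarith [hα1 i]
  have hord : ∀ c, 0 ≤ P.ord (aeval y (F c)) - ∑ l, (δ c l : ℤ) * α l := by
    intro c
    have hne : aeval (fun i => y i / y (j (pr i))) (F c) ≠ 0 := by
      intro h0
      apply h.hFy c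
      rw [hFu, h0, mul_zero]
    rw [hFu, P.ord_mul (Finset.prod_ne_zero_iff.2 fun l _ => pow_ne_zero _ (h.y_ne _)) hne,
      ord_prod' P Finset.univ _ fun l _ => pow_ne_zero _ (h.y_ne _)]
    have h2 : ∑ l, P.ord (y (j l) ^ δ c l) = ∑ l, (δ c l : ℤ) * α l :=
      Finset.sum_congr rfl fun l _ => by rw [P.ord_pow, hj2]
    rw [h2, add_sub_cancel_left]
    exact (reg_aevalK hureg (F c)).resolve_left hne
  refine ⟨α, fun c => (P.ord (aeval y (F c)) - ∑ l, (δ c l : ℤ) * α l).toNat, h.y_ne, hα1,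
    fun l => ⟨j l, hj1 l, hj2 l⟩, h.hFy, fun c => ?_⟩
  rw [Int.toNat_of_nonneg (hord c)]
  ring

omit [Fintype J] in
theorem IsCov.dvd (h : IsCov pr o δ F m a y z) {P : Place k K} {α : ρ → ℤ} {v : κ → ℕ}
    (hd : DatK P pr F δ y α v) (j : J) : m j ∣ ∑ c, a j c * v c := by
  classical
  have h1 := congrArg P.ord (h.hz j)
  rw [P.ord_pow, ord_prod' P Finset.univ _ fun c _ => pow_ne_zero _ (h.hFy c)] at h1
  have h2 : ∑ c, P.ord (aeval y (F c) ^ a j c) =
      ∑ l, (∑ c, (a j c : ℤ) * δ c l) * α l + ∑ c, (a j c : ℤ) * v c := by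
    have h3 : ∀ c, P.ord (aeval y (F c) ^ a j c) =
        ∑ l, (a j c : ℤ) * δ c l * α l + (a j c : ℤ) * v c := by
      intro c
      rw [P.ord_pow, hd.hv, mul_add, Finset.mul_sum]
      congr 1
      exact Finset.sum_congr rfl fun l _ => by ring
    rw [Finset.sum_congr rfl fun c _ => h3 c, Finset.sum_add_distrib, Finset.sum_comm]
    congr 1
    exact Finset.sum_congr rfl fun l _ => by rw [Finset.sum_mul]
  rw [h2] at h1
  have h3 : (m j : ℤ) ∣ ∑ l, (∑ c, (a j c : ℤ) * δ c l) * α l := by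
    refine Finset.dvd_sum fun l _ => Dvd.dvd.mul_right ?_ _
    have h4 := h.hdiv j l
    have h5 : ((∑ c, a j c * δ c l : ℕ) : ℤ) = ∑ c, (a j c : ℤ) * δ c l := by push_cast; rfl
    rw [← h5]
    exact_mod_cast h4
  have h4 : (m j : ℤ) ∣ ∑ c, (a j c : ℤ) * v c := by
    have h5 : ∑ c, (a j c : ℤ) * v c = (m j : ℤ) * P.ord (z j) -
        ∑ l, (∑ c, (a j c : ℤ) * δ c l) * α l := by
      rw [h1]
      ring
    rw [h5]
    exact _root_.dvd_sub (dvd_mul_right _ _) h3
  exact_mod_cast h4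

omit [Fintype σ] [Fintype κ] [Fintype J] in
theorem overS_iff {S : κ → Prop} {P : Place k K}
    {α : ρ → ℤ} {v : κ → ℕ} (hd : DatK P pr F δ y α v) :
    OverS pr δ F y S P ↔ ∃ c, S c ∧ v c ≠ 0 := by
  constructor
  · rintro ⟨c, hc, h⟩
    refine ⟨c, hc, fun h0 => ?_⟩
    have h1 := h α hd.ha1
    rw [hd.hv, h0, Nat.cast_zero, add_zero] at h1
    exact lt_irrefl _ h1
  · rintro ⟨c, hc, hv⟩
    refine ⟨c, hc, fun μ hμ => ?_⟩
    have h1 : ∀ l, μ l ≤ α l := by
      intro l
      obtain ⟨i, hi, hil⟩ := hd.ha2 l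
      rw [← hil, ← hi]
      exact hμ i
    rw [hd.hv]
    have h2 : ∑ l, (δ c l : ℤ) * μ l ≤ ∑ l, (δ c l : ℤ) * α l :=
      Finset.sum_le_sum fun l _ => mul_le_mul_of_nonneg_left (h1 l) (by positivity)
    have h3 : (0 : ℤ) < v c := by exact_mod_cast Nat.pos_of_ne_zero hv
    linarith

omit [Fintype J] in
theorem IsCov.isVec [IsAlgClosed k] (h : IsCov pr o δ F m a y z) {P : Place k K} {α : ρ → ℤ}
    {v : κ → ℕ} (hd : DatK P pr F δ y α v) (hv : v ≠ 0) {S : κ → Prop}
    (hP : ¬ OverS pr δ F y S P) : IsVec pr m a S F v := by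
  classical
  refine ⟨hv, fun c hc => ?_, h.dvd hd, ?_⟩
  · by_contra h1
    exact hP ((overS_iff hd).2 ⟨c, hc, h1⟩)
  · obtain ⟨j, u, hj1, hj2, hyu, hu0, hu1, hureg, hFu, hFv⟩ := hd.norm h.hF
    obtain ⟨x, hx, hx0⟩ := exists_pt (F := F) P hureg hj1 hu1 (Finset.univ.filter fun c => v c ≠ 0)
      (fun c hc => by
        right
        rw [hFv]
        have := (Finset.mem_filter.1 hc).2
        omega)
    exact ⟨x, hx, fun c hc => hx0 c (Finset.mem_filter.2 ⟨Finset.mem_univ _, hc⟩)⟩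

omit [Fintype J] in
/-- the coordinates -/
theorem IsCov.exists_equiv [DecidableEq σ] (h : IsCov pr o δ F m a y z) {n : ℕ}
    (htr : Algebra.trdeg k K = n) :
    ∃ ε : ρ ⊕ Fin n ≃ σ, (∀ l, ε (Sum.inl l) = o l) ∧
      IsTranscendenceBasis k fun i => y (ε (Sum.inr i)) := by
  classical
  have hcard : Fintype.card {i : σ // i ≠ o (pr i)} = n := by
    have h1 := h.hbas.cardinalMk_eq_trdeg
    rw [htr, Cardinal.mk_fintype] at h1
    exact_mod_cast h1
  let e1 : Fin n ≃ {i : σ // i ≠ o (pr i)} := (Fintype.equivFinOfCardEq hcard).symm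
  let e2 : ρ ≃ {i : σ // ¬ i ≠ o (pr i)} :=
    { toFun := fun l => ⟨o l, by rw [h.ho]; exact fun h1 => h1 rfl⟩
      invFun := fun i => pr i.1
      left_inv := fun l => h.ho l
      right_inv := fun i => Subtype.ext (not_not.1 i.2).symm }
  let ε : ρ ⊕ Fin n ≃ σ := ((Equiv.sumComm _ _).trans (Equiv.sumCongr e1 e2)).trans
    (Equiv.sumCompl fun i : σ => i ≠ o (pr i))
  refine ⟨ε, fun l => rfl, ?_⟩
  exact h.hbas.comp_equiv e1

theorem IsCov.ess (h : IsCov pr o δ F m a y z) : Algebra.EssFiniteType k K := by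
  have h1 : (⊤ : IntermediateField k K).FG := by
    rw [← h.hgen]
    refine ⟨((Set.finite_range y).union (Set.finite_range z)).toFinset, ?_⟩
    rw [Set.Finite.coe_toFinset]
  have h2 : Algebra.EssFiniteType k (⊤ : IntermediateField k K) :=
    (IntermediateField.essFiniteType_iff).2 h1
  exact (Algebra.EssFiniteType.iff_of_algEquiv (IntermediateField.topEquiv
    (F := k) (E := K))).1 h2

/-- **Exponents give forms.** -/
theorem form_of_exp [IsAlgClosed k] [CharZero k] (h : IsCov pr o δ F m a y z) {n : ℕ}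
    (htr : Algebra.trdeg k K = n) (hS : ∀ [DecidableEq σ], SNC pr F) {S : κ → Prop} {e : κ → ℚ}
    (he : IsExp pr δ m a S F e) {T : ℕ} {w : κ → ℤ} (hw : ∀ c, (T : ℚ) * e c = w c) :
    ∃ ω : (Fin n → Derivation k K K) → K, IsPluriForm k K n T ω ∧
      (∀ v : Place k K, IsDivisorial v n → ¬ OverS pr δ F y S v → RegularAt v n ω) ∧
      (∀ v : Place k K, IsDivisorial v n → OverS pr δ F y S v → LogRegularAt v n ω) ∧
      ∃ D, ω D ≠ 0 := by
  classical
  obtain ⟨ε, hε, hbas⟩ := h.exists_equiv htr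
  choose D0 hD0 using fun i : Fin n => Pool.Agent.W602.GT.exists_der
    (fun i => y (ε (Sum.inr i))) hbas (fun j => if i = j then (1 : K) else 0)
  let G : K := ∏ c, aeval y (F c) ^ (w c - T : ℤ)
  have hG0 : G ≠ 0 := Finset.prod_ne_zero_iff.2 fun c _ => zpow_ne_zero _ (h.hFy c)
  let ω : (Fin n → Derivation k K K) → K := fun D => bwK ε pr D y ^ T * G
  have hω : IsPluriForm k K n T ω := by
    intro A D
    change bwK ε pr (fun i => ∑ j, A i j • D j) y ^ T * G = A.det ^ T * (bwK ε pr D y ^ T * G)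
    rw [bwK_lin, mul_pow]
    ring
  -- the orders
  have hdeg : ∀ l, (T : ℤ) * ((Finset.univ.filter fun i => pr i = l).card : ℤ) ≤
      ∑ c, (T - w c) * (δ c l : ℤ) := by
    intro l
    have h1 := mul_le_mul_of_nonneg_left (he.deg l) (Nat.cast_nonneg (α := ℚ) T)
    have h2 : (T : ℚ) * ∑ c, (1 - e c) * (δ c l : ℚ) = ((∑ c, (T - w c) * (δ c l : ℤ) : ℤ) : ℚ) := by
      push_cast
      rw [Finset.mul_sum]
      refine Finset.sum_congr rfl fun c _ => ?_
      rw [← hw]
      ring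
    rw [h2] at h1
    exact_mod_cast h1
  have hcomb : ∀ (P : Place k K) (α : ρ → ℤ) (v : κ → ℕ), DatK P pr F δ y α v →
      ∀ X : ℤ, ∀ D, Ge P (∑ i, α (pr i) + X) (bwK ε pr D y) →
        Ge P (T * X + ∑ c, (w c - T) * (v c : ℤ)) (ω D) := by
    intro P α v hd X D hD
    have hα0 : ∀ l, α l ≤ 0 := by
      intro l
      have h1 := hd.ha1 (o l)
      rw [h.ho, h.hy, P.ord_one] at h1
      exact h1
    have h1 := (hD.pow T).mul (ge_ord P G)
    have h2 : P.ord G = ∑ c, (w c - T : ℤ) * (∑ l, (δ c l : ℤ) * α l + v c) := by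
      change P.ord (∏ c, aeval y (F c) ^ (w c - T : ℤ)) = _
      rw [ord_prod' P Finset.univ _ fun c _ => zpow_ne_zero _ (h.hFy c)]
      exact Finset.sum_congr rfl fun c _ => by rw [P.ord_zpow, hd.hv]
    refine h1.mono ?_
    rw [h2]
    have h3 : ∑ c, (w c - T : ℤ) * (∑ l, (δ c l : ℤ) * α l + v c) =
        ∑ l, (∑ c, (w c - T : ℤ) * (δ c l : ℤ)) * α l + ∑ c, (w c - T) * (v c : ℤ) := by
      simp only [mul_add, Finset.sum_add_distrib, Finset.sum_mul, Finset.mul_sum]
      rw [Finset.sum_comm]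
      congr 1
      exact Finset.sum_congr rfl fun l _ => Finset.sum_congr rfl fun c _ => by ring
    have h4 : ∑ i, α (pr i) = ∑ l, ((Finset.univ.filter fun i => pr i = l).card : ℤ) * α l := by
      rw [← Finset.sum_fiberwise Finset.univ pr]
      refine Finset.sum_congr rfl fun l _ => ?_
      rw [Finset.sum_congr rfl (fun i hi => by rw [(Finset.mem_filter.1 hi).2]), Finset.sum_const,
        nsmul_eq_mul]
    rw [h3, h4]
    have h5 : 0 ≤ (T : ℤ) * ∑ l, ((Finset.univ.filter fun i => pr i = l).card : ℤ) * α l +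
        ∑ l, (∑ c, (w c - T : ℤ) * (δ c l : ℤ)) * α l := by
      rw [Finset.mul_sum, ← Finset.sum_add_distrib]
      refine Finset.sum_nonneg fun l _ => ?_
      have h6 := hdeg l
      have h7 : ∑ c, (w c - T : ℤ) * (δ c l : ℤ) = - ∑ c, (T - w c : ℤ) * (δ c l : ℤ) := by
        rw [← Finset.sum_neg_distrib]
        exact Finset.sum_congr rfl fun c _ => by ring
      rw [h7]
      have h8 := hα0 l
      nlinarith
    linarith
  refine ⟨ω, hω, fun P hP hb => ?_, fun P hP hb => ?_, D0, ?_⟩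
  · -- outside the boundary
    obtain ⟨α, v, hd⟩ := h.exists_dat P
    intro D hD
    by_cases hv : v = 0
    · have h2 := hcomb P α v hd 0 D (by simpa using bw_regK ε h.hF hd hD)
      rw [hv] at h2
      simp only [Pi.zero_apply, Nat.cast_zero, mul_zero, Finset.sum_const_zero, add_zero] at h2
      exact h2
    · have h2 := reg_of_log htr (fun y' hy' => ?_) hP hω
        (X := T * ∑ c, (v c : ℤ) + ∑ c, (w c - T) * (v c : ℤ))
        (fun D' hD' => hcomb P α v hd _ D' (bw_logK ε hS h.hF hd hD')) D hD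
      · have h3 := he.one_le v (h.isVec hd hv hb)
        have h4 : (T : ℤ) ≤ ∑ c, (v c : ℤ) * w c := by
          have h5 := mul_le_mul_of_nonneg_left h3 (Nat.cast_nonneg (α := ℚ) T)
          have h6 : (T : ℚ) * ∑ c, (v c : ℚ) * e c = ((∑ c, (v c : ℤ) * w c : ℤ) : ℚ) := by
            push_cast
            rw [Finset.mul_sum]
            refine Finset.sum_congr rfl fun c _ => ?_
            rw [← hw]
            ring
          rw [h6, mul_one] at h5
          exact_mod_cast h5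
        refine Ge.mono ?_ h2
        rw [Finset.mul_sum, ← Finset.sum_add_distrib]
        have h5 : ∑ c, ((T : ℤ) * (v c : ℤ) + (w c - T) * (v c : ℤ)) = ∑ c, (v c : ℤ) * w c :=
          Finset.sum_congr rfl fun c _ => by ring
        rw [h5]
        linarith
      · have := h.ess
        exact Pool.Agent.Y199.NN.fin_over' y' hy'
  · -- the boundary
    obtain ⟨α, v, hd⟩ := h.exists_dat P
    intro D hD
    have h2 := hcomb P α v hd _ D (bw_logK ε hS h.hF hd hD)
    refine Ge.mono ?_ h2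
    rw [Finset.mul_sum, ← Finset.sum_add_distrib]
    refine Finset.sum_nonneg fun c _ => ?_
    have h3 : 0 ≤ w c := by
      have h4 := he.nonneg c
      have h5 : (0 : ℚ) ≤ w c := by
        rw [← hw]
        positivity
      exact_mod_cast h5
    have h4 : (T : ℤ) * (v c : ℤ) + (w c - T) * (v c : ℤ) = w c * v c := by ring
    rw [h4]
    positivity
  · have h2 : ω D0 = G := by
      change bwK ε pr D0 y ^ T * G = G
      rw [bw_oneK ε h.ho hε h.hy hD0, one_pow, one_mul]
    rw [h2]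
    exact hG0

theorem eff_of_exp [IsAlgClosed k] [CharZero k] (h : IsCov pr o δ F m a y z) {n : ℕ}
    (htr : Algebra.trdeg k K = n) (hS : ∀ [DecidableEq σ], SNC pr F) {S : κ → Prop}
    (hE : ∃ e, IsExp pr δ m a S F e) : ¬ LogKodairaNeg k K n (OverS pr δ F y S) := by
  obtain ⟨e, he⟩ := hE
  obtain ⟨T, hT, hw⟩ := Pool.Agent.Y169.TH.exists_den e
  choose w hw using hw
  obtain ⟨ω, hω, h1, h2, D, hD⟩ := form_of_exp h htr hS he hw
  intro hneg
  exact hD (hneg T hT ω hω h1 h2 D)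

end Pool.Agent.Q41.RC
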