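import Pool.Agent.Q41.RC.Om
import Pool.Agent.Y199.NN.NegA1
import Pool.Agent.W602.GT.KPsef

/-!
Regular and logarithmic frames at a divisorial place; `A¹`-uniruled varieties are not
pseudo-effective.
-/

set_option autoImplicit false

open FF IntermediateField Pool.Agent.W619.PQ Pool.Agent.W619.PL Pool.Agent.W619.TW
  Pool.Agent.W619.Y Pool.Agent.W602.GT Pool.Agent.W603.LV

namespace Pool.Agent.Q41.RC

variable {k K : Type} [Field k] [CharZero k] [Field K] [Algebra k K]

/-- the values on regular vector fields, from the values on logarithmic vector fields -/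
theorem reg_of_log {n : ℕ} (htr : Algebra.trdeg k K = n)
    (hfin : ∀ y : Fin n → K, IsTranscendenceBasis k y →
      FiniteDimensional (IntermediateField.adjoin k (Set.range y)) K) {P : Place k K}
    (hP : IsDivisorial P n) {m : ℕ} {ω : (Fin n → Derivation k K K) → K}
    (hω : IsPluriForm k K n m ω) {X : ℤ}
    (h : ∀ D : Fin n → Derivation k K K, (∀ j, ∀ f, P.Reg (D j f / f)) → Ge P X (ω D))
    (D : Fin n → Derivation k K K) (hD : ∀ j, ∀ f, P.Reg f → P.Reg (D j f)) :
    Ge P (X - m) (ω D) := by
  classical
  obtain ⟨y, E, i0, hy, hE, hy0, hreg, hpres⟩ :=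
    Pool.Agent.W240.PG.Frame.main Pool.Agent.W762.PG.main k K n htr hfin P hP
  have hyne : y i0 ≠ 0 := by
    intro h0
    rw [h0, P.ord_zero] at hy0
    omega
  let w : Fin n → K := fun i => if i = i0 then y i0 else 1
  have hw : ∀ i, w i ≠ 0 := by
    intro i
    change (if i = i0 then y i0 else 1) ≠ 0
    split_ifs
    · exact hyne
    · exact one_ne_zero
  have hlog : ∀ i, ∀ f, P.Reg ((w i • E i) f / f) := by
    intro i
    have hwr : P.Reg (w i) := by
      change P.Reg (if i = i0 then y i0 else 1)
      split_ifs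
      · exact hreg i0
      · exact P.reg_one
    refine pl_log (τ := y i0) (fun f hf => ?_) hy0 ?_
    · change P.Reg (w i * E i f)
      exact P.reg_mul hwr (hpres i f hf)
    · change P.Reg (w i * E i (y i0) / y i0)
      rw [hE]
      by_cases hi : i = i0
      · rw [if_pos hi]
        change P.Reg ((if i = i0 then y i0 else 1) * 1 / y i0)
        rw [if_pos hi, mul_one, div_self hyne]
        exact P.reg_one
      · rw [if_neg hi, mul_zero, zero_div]
        exact P.reg_zero
  let A : Matrix (Fin n) (Fin n) K := Matrix.of fun j i => (w i)⁻¹ * (Matrix.of fun j i => D j (y i)) j i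
  have hA : (fun j => ∑ i, A j i • (w i • E i)) = D := by
    funext j
    apply Pool.Agent.W602.GT.der_ext y hy
    intro q
    rw [dsum, Finset.sum_eq_single q]
    · change (w q)⁻¹ * D j (y q) * (w q * E q (y q)) = D j (y q)
      rw [hE, if_pos rfl, mul_one]
      have := hw q
      field_simp
    · intro i _ hi
      change _ * (w i * E i (y q)) = 0
      rw [hE, if_neg hi, mul_zero, mul_zero]
    · intro h1
      exact absurd (Finset.mem_univ _) h1
  have hprod : ∏ i, (w i)⁻¹ = (y i0)⁻¹ := by
    rw [Finset.prod_eq_single i0]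
    · change (if i0 = i0 then y i0 else 1)⁻¹ = _
      rw [if_pos rfl]
    · intro i _ hi
      change (if i = i0 then y i0 else 1)⁻¹ = 1
      rw [if_neg hi, inv_one]
    · intro h1
      exact absurd (Finset.mem_univ _) h1
  have hdet : Ge P (-1) A.det := by
    change Ge P (-1) (Matrix.det (Matrix.of fun j i =>
      (w i)⁻¹ * (Matrix.of fun j i => D j (y i)) j i))
    rw [Matrix.det_mul_row (fun i => (w i)⁻¹), hprod]
    have h1 : Ge P (-1) (y i0)⁻¹ := by
      right
      rw [P.ord_inv, hy0]
    have h2 : Ge P 0 (Matrix.of fun j i => D j (y i)).det :=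
      Pool.Agent.W619.PQ.ge_det P _ fun j i => hD j _ (hreg i)
    simpa using h1.mul h2
  have h1 := hω A fun i => w i • E i
  rw [hA] at h1
  rw [h1]
  have h2 := (hdet.pow m).mul (h (fun i => w i • E i) hlog)
  exact h2.mono (by linarith)

/-- **`A¹`-uniruled varieties are not pseudo-effective.** -/
theorem not_psef_of_a1 [Algebra.EssFiniteType k K] {n : ℕ} (htr : Algebra.trdeg k K = n)
    {Bd : Place k K → Prop} (h : IsA1Uniruled k K n Bd) : ¬ IsPsef k K n Bd := by
  classical
  obtain ⟨M, iF, iA, φ, hess, htrM, hA⟩ := h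
  let _ : Algebra K (RatFunc M) := φ.toRingHom.toAlgebra
  have t1 : IsScalarTower k K (RatFunc M) := IsScalarTower.of_algebraMap_eq fun c => by
    change _ = φ (algebraMap k K c)
    rw [φ.commutes]
  have hmap : ∀ f : K, algebraMap K (RatFunc M) f = φ f := fun _ => rfl
  have hXM : Transcendental M (RatFunc.X : RatFunc M) := RatFunc.transcendental_X
  have htopM : M⟮(RatFunc.X : RatFunc M)⟯ = ⊤ := RatFunc.adjoin_X
  have hessXM : Algebra.EssFiniteType M (RatFunc M) := by
    have h1 : (⊤ : IntermediateField M (RatFunc M)).FG := by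
      rw [← htopM]
      exact ⟨{RatFunc.X}, by simp⟩
    have h2 : Algebra.EssFiniteType M (⊤ : IntermediateField M (RatFunc M)) :=
      (IntermediateField.essFiniteType_iff).2 h1
    exact (Algebra.EssFiniteType.iff_of_algEquiv (IntermediateField.topEquiv
      (F := M) (E := RatFunc M))).1 h2
  have hessR : Algebra.EssFiniteType k (RatFunc M) := Algebra.EssFiniteType.comp k M (RatFunc M)
  have htrX : IsTranscendenceBasis M (fun _ : Unit => (RatFunc.X : RatFunc M)) := by
    have h1 : AlgebraicIndependent M (fun _ : Unit => (RatFunc.X : RatFunc M)) :=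
      (algebraicIndependent_unique_type_iff).2 hXM
    rw [h1.isTranscendenceBasis_iff_isAlgebraic]
    have h2 : Set.range (fun _ : Unit => (RatFunc.X : RatFunc M)) = {RatFunc.X} := by simp
    rw [h2]
    have h3 : Algebra.IsAlgebraic M⟮(RatFunc.X : RatFunc M)⟯ (RatFunc M) := by
      rw [htopM]
      exact ⟨fun z => isAlgebraic_algebraMap
        (⟨z, trivial⟩ : (⊤ : IntermediateField M (RatFunc M)))⟩
    exact alg_adjoin h3
  have hR : Algebra.trdeg k (RatFunc M) = n := by
    have h1 := _root_.trdeg_add_eq k M (A := RatFunc M)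
    have h2 : Algebra.trdeg M (RatFunc M) = 1 := by
      rw [← htrX.cardinalMk_eq_trdeg]
      simp
    rw [← h1, h2]
    exact htrM
  -- finiteness
  obtain ⟨y, hy⟩ := basis_of_trdeg htr
  have hyR : AlgebraicIndependent k (fun i => φ (y i)) := hy.1.map' φ.injective
  have hyb : IsTranscendenceBasis k (fun i => φ (y i)) := by
    refine hyR.isTranscendenceBasis_of_lift_trdeg_le_of_finite ?_
    rw [hR]
    simp
  have halg : Algebra.IsAlgebraic K (RatFunc M) := by
    have h1 : Algebra.IsAlgebraic (IntermediateField.adjoin k (Set.range fun i => φ (y i)))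
      (RatFunc M) := hyb.isAlgebraic_field
    refine ⟨fun z => ?_⟩
    have h2 := h1.isAlgebraic z
    have hle : IntermediateField.adjoin k (Set.range fun i => φ (y i)) ≤ φ.fieldRange := by
      rw [adjoin_le_iff]
      rintro _ ⟨i, rfl⟩
      exact ⟨y i, rfl⟩
    let e : K ≃ₐ[k] φ.fieldRange := AlgEquiv.ofInjectiveField φ
    let g : IntermediateField.adjoin k (Set.range fun i => φ (y i)) →+* K :=
      (e.symm : φ.fieldRange →+* K).comp (inclusion hle).toRingHom
    refine h2.ringHom_of_comp_eq g (RingHom.id _) g.injective ?_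
    ext w
    change φ (e.symm (inclusion hle w)) = (w : RatFunc M)
    have h3 : e (e.symm (inclusion hle w)) = inclusion hle w := e.apply_symm_apply _
    exact congrArg Subtype.val h3
  have hfd : FiniteDimensional K (RatFunc M) := by
    have h1 : Algebra.EssFiniteType K (RatFunc M) := Algebra.EssFiniteType.of_comp k K (RatFunc M)
    obtain ⟨s, hs⟩ := IntermediateField.fg_top K (RatFunc M)
    have h2 : FiniteDimensional K (IntermediateField.adjoin K (s : Set (RatFunc M))) :=
      IntermediateField.finiteDimensional_adjoin fun x _ => (halg.isAlgebraic x).isIntegral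
    rw [hs] at h2
    exact h2.equiv IntermediateField.topEquiv.toLinearEquiv
  -- the derivation
  have hcM : CharZero M := charZero_of_injective_algebraMap (algebraMap k M).injective
  obtain ⟨d0, hd0⟩ := exists_der (L := M) (fun _ : Unit => (RatFunc.X : RatFunc M)) htrX
    (fun _ => RatFunc.X)
  let δ : Derivation k (RatFunc M) (RatFunc M) := d0.restrictScalars k
  have hδX : δ RatFunc.X = RatFunc.X := hd0 ()
  have hδM : ∀ c : M, δ (algebraMap M (RatFunc M) c) = 0 := fun c => d0.map_algebraMap c
  have htop : (consts δ)⟮(RatFunc.X : RatFunc M)⟯ = ⊤ := by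
    rw [eq_top_iff]
    intro f _
    have hf : f ∈ M⟮(RatFunc.X : RatFunc M)⟯ := by rw [htopM]; exact mem_top
    induction hf using IntermediateField.adjoin_induction with
    | mem x hx =>
      rw [Set.mem_singleton_iff] at hx
      rw [hx]
      exact IntermediateField.mem_adjoin_simple_self _ _
    | algebraMap c =>
      exact (consts δ)⟮(RatFunc.X : RatFunc M)⟯.algebraMap_mem ⟨algebraMap M (RatFunc M) c, hδM c⟩
    | add x y _ _ hx hy => exact add_mem (hx mem_top) (hy mem_top)
    | inv x _ hx => exact inv_mem (hx mem_top)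
    | mul x y _ _ hx hy => exact mul_mem (hx mem_top) (hy mem_top)
  have hgood : ∀ P : Place k (RatFunc M), (∀ c, δ c = 0 → c ≠ 0 → P.ord c = 0) →
      0 ≤ P.ord RatFunc.X → ¬ BdUp Bd P := by
    rintro P h1 h2 ⟨v, e, hov, hb⟩
    let w : Place M (RatFunc M) :=
      { ord := P.ord
        ord_zero := P.ord_zero
        ord_mul := fun {f g} hf hg => P.ord_mul hf hg
        ord_add := fun {f g} hf hg hfg => P.ord_add hf hg hfg
        ord_const := fun {c} hc => h1 _ (hδM c) ((map_ne_zero _).2 hc)
        surj := P.surj }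
    exact hA w (Or.inr h2) v e hov.1 (fun f => hov.2 f) hb
  have hnp := not_psef hR (Bd := BdUp Bd) δ RatFunc.X_ne_zero hδX htop hgood
  -- the sections
  rintro ⟨S, hS⟩
  apply hnp
  obtain ⟨E, hE⟩ : ∃ E : Fin n → Derivation k K K, ∀ i j, E i (y j) = if i = j then 1 else 0 := by
    choose E hE using fun i : Fin n => exists_der y hy (fun j => if i = j then (1 : K) else 0)
    exact ⟨E, hE⟩
  refine ⟨S.image (algebraMap K (RatFunc M)), fun N => ?_⟩
  obtain ⟨j, hj, ω, hω, D0, hne⟩ := hS N
  have hsec2 := Pool.Agent.Y199.NN.pull k K (RatFunc M) n htr (fun y hy => Pool.Agent.Y199.NN.fin_over' y hy) Bd S (j * N) j y E hy hE ω hω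
  refine ⟨j, hj, fun D =>
    (Matrix.of fun a b => D a (algebraMap K (RatFunc M) (y b))).det ^ (j * N) *
      algebraMap K (RatFunc M) (ω E), ⟨hsec2.1, fun P hP D hD => ?_, fun P hP hb D hD => ?_⟩, ?_⟩
  · by_cases hb : BdUp Bd P
    · exact hsec2.2.2 P hP hb D hD
    · refine hsec2.2.1 P hP hb D fun l f hf => ?_
      by_cases hf0 : f = 0
      · rw [hf0, map_zero]; exact P.reg_zero
      · have h1 := P.reg_mul (hD l f) hf
        rwa [div_mul_cancel₀ _ hf0] at h1
  · exact hsec2.2.1 P hP hb D hD
  · choose E' hE' using fun i : Fin n => exists_der (L := k) (fun i => φ (y i)) hyb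
      (fun j => if i = j then (1 : RatFunc M) else 0)
    refine ⟨E', ?_⟩
    have h2 : (Matrix.of fun a b => E' a (algebraMap K (RatFunc M) (y b))) = 1 := by
      ext a b
      rw [Matrix.of_apply, Matrix.one_apply]
      exact hE' a b
    change (Matrix.of fun a b => E' a (algebraMap K (RatFunc M) (y b))).det ^ (j * N) *
      algebraMap K (RatFunc M) (ω E) ≠ 0
    rw [h2, Matrix.det_one, one_pow, one_mul, Ne, map_eq_zero]
    intro h1
    apply hne
    have h4 : (fun i => ∑ j, (Matrix.of fun a b => D0 a (y b)) i j • E j) = D0 := by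
      funext i
      apply Pool.Agent.W602.GT.der_ext y hy
      intro q
      rw [dsum, Finset.sum_eq_single q]
      · rw [hE, if_pos rfl, mul_one]
        rfl
      · intro b _ hb
        rw [hE, if_neg hb, mul_zero]
      · intro h
        exact absurd (Finset.mem_univ _) h
    rw [← h4, hω.1, h1, mul_zero]

end Pool.Agent.Q41.RC
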