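import Pool.Agent.Q41.RC.Fam
import Pool.Agent.Q41.RC.Curve
import Pool.Agent.Y199.NN.Uni

/-!
Abelian covers of products of projective spaces, and rational curves through the generic point.
-/

set_option autoImplicit false

open FF Cardinal
open Pool.Agent.W619.PL Pool.Agent.W619.PQ

namespace Pool.Agent.Q41.RC

/-- `K` is the function field of an abelian cover of a product of projective spaces (the factors are
indexed by `ρ`), `y i` are the homogeneous coordinates, with `y (o l) = 1` in the factor `l`, the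
cover is given by the roots `z j ^ m j = ∏ c, F c (y) ^ a j c`. -/
structure IsCov {k K ρ σ κ J : Type} [Field k] [Field K] [Algebra k K] [Fintype ρ] [Fintype σ]
    [Fintype κ] (pr : σ → ρ) (o : ρ → σ) (δ : κ → ρ → ℕ) (F : κ → MvPolynomial σ k) (m : J → ℕ)
    (a : J → κ → ℕ) (y : σ → K) (z : J → K) : Prop where
  ho : ∀ l, pr (o l) = l
  hdim : ∀ l, ∃ i, pr i = l ∧ i ≠ o l
  hF : ∀ c, MH pr (δ c) (F c)
  hm : ∀ j, 0 < m j
  hdiv : ∀ j l, m j ∣ ∑ c, a j c * δ c l
  hy : ∀ l, y (o l) = 1
  hbas : IsTranscendenceBasis k (fun i : {i : σ // i ≠ o (pr i)} => y i.1)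
  hFy : ∀ c, MvPolynomial.aeval y (F c) ≠ 0
  hz : ∀ j, z j ^ m j = ∏ c, MvPolynomial.aeval y (F c) ^ a j c
  hgen : IntermediateField.adjoin k (Set.range y ∪ Set.range z) = ⊤

/-- The places which are over one of the hypersurfaces `F c = 0`, `c` in `S`. -/
def OverS {k K ρ σ κ : Type} [Field k] [Field K] [Algebra k K] [Fintype ρ] (pr : σ → ρ)
    (δ : κ → ρ → ℕ) (F : κ → MvPolynomial σ k) (y : σ → K) (S : κ → Prop) (v : Place k K) : Prop :=
  ∃ c, S c ∧ ∀ μ : ρ → ℤ, (∀ i, μ (pr i) ≤ v.ord (y i)) →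
    ∑ l, (δ c l : ℤ) * μ l < v.ord (MvPolynomial.aeval y (F c))

variable {k K ρ σ κ J : Type} [Field k] [Field K] [Algebra k K] [Fintype ρ] [Fintype σ]
    [Fintype κ] [Fintype J] {pr : σ → ρ} {o : ρ → σ} {δ : κ → ρ → ℕ} {F : κ → MvPolynomial σ k}
    {m : J → ℕ} {a : J → κ → ℕ} {y : σ → K} {z : J → K}

omit [Fintype J] in
theorem IsCov.y_ne (h : IsCov pr o δ F m a y z) (i : σ) : y i ≠ 0 := by
  by_cases hi : i = o (pr i)
  · rw [hi, h.hy]
    exact one_ne_zero
  · exact h.hbas.1.ne_zero ⟨i, hi⟩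

/-- the numerators and denominators -/
noncomputable def num (i : σ ⊕ J) : MvPolynomial (σ ⊕ J) k := MvPolynomial.X i

open scoped Classical in
/-- the exponents of the denominators -/
noncomputable def dex (δ : κ → ρ → ℕ) (m : J → ℕ) (a : J → κ → ℕ) (j : J) (l : ρ) : ℕ :=
  (∑ c, a j c * δ c l) / m j

/-- the denominators -/
noncomputable def den (k : Type) [Field k] (pr : σ → ρ) (o : ρ → σ) (δ : κ → ρ → ℕ) (m : J → ℕ)
    (a : J → κ → ℕ) : σ ⊕ J → MvPolynomial (σ ⊕ J) k :=
  Sum.elim (fun i => MvPolynomial.X (Sum.inl (o (pr i))))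
    (fun j => ∏ l, MvPolynomial.X (Sum.inl (o l)) ^ dex δ m a j l)

theorem prod_pow_comm {A B M : Type} [Fintype A] [Fintype B] [CommMonoid M] (f : B → M)
    (e : A → B → ℕ) (g : A → ℕ) :
    ∏ c, (∏ l, f l ^ e c l) ^ g c = ∏ l, f l ^ (∑ c, g c * e c l) := by
  have h1 : ∀ c, (∏ l, f l ^ e c l) ^ g c = ∏ l, f l ^ (g c * e c l) := by
    intro c
    rw [← Finset.prod_pow]
    refine Finset.prod_congr rfl fun l _ => ?_
    rw [← pow_mul, mul_comm]
  rw [Finset.prod_congr rfl fun c _ => h1 c, Finset.prod_comm]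
  refine Finset.prod_congr rfl fun l _ => ?_
  rw [Finset.prod_pow_eq_pow_sum]

/-- **Curves through the generic point of a cover.** -/
theorem a1_of_poly [IsAlgClosed k] [CharZero k] (h : IsCov pr o δ F m a y z) {n : ℕ}
    (htr : Algebra.trdeg k K = n)
    {L : Type} [Field L] [Algebra k L] [Algebra K L] [IsScalarTower k K L]
    [Algebra.IsAlgebraic K L] (q : σ → Polynomial L) (Z : J → Polynomial L)
    (hq0 : ∀ i, (q i).eval 0 = algebraMap K L (y i)) (hZ0 : ∀ j, (Z j).eval 0 = algebraMap K L (z j))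
    (hZ : ∀ j, Z j ^ m j = ∏ c, MvPolynomial.aeval q (F c) ^ a j c) (i0 : σ)
    (hi0 : q i0 ≠ Polynomial.C (algebraMap K L (y i0)) * q (o (pr i0))) (S : κ → Prop)
    (hS : ∀ c, S c → MvPolynomial.aeval q (F c) =
      Polynomial.C (algebraMap K L (MvPolynomial.aeval y (F c)))) :
    IsA1Uniruled k K n (OverS pr δ F y S) := by
  classical
  let e : Fin (Fintype.card (σ ⊕ J)) ≃ σ ⊕ J := (Fintype.equivFin (σ ⊕ J)).symm
  let x : Fin (Fintype.card (σ ⊕ J)) → K := fun i => Sum.elim y z (e i)
  have hgen : IntermediateField.adjoin k (Set.range x) = ⊤ := by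
    rw [← h.hgen]
    congr 1
    ext w
    constructor
    · rintro ⟨i, rfl⟩
      change Sum.elim y z (e i) ∈ _
      rcases e i with s | j
      · exact Or.inl ⟨s, rfl⟩
      · exact Or.inr ⟨j, rfl⟩
    · rintro (⟨s, rfl⟩ | ⟨j, rfl⟩)
      · exact ⟨e.symm (Sum.inl s), by simp [x]⟩
      · exact ⟨e.symm (Sum.inr j), by simp [x]⟩
  let Q : σ ⊕ J → Polynomial L := Sum.elim q Z
  let nu : Fin (Fintype.card (σ ⊕ J)) → MvPolynomial (σ ⊕ J) k := fun i => MvPolynomial.X (e i)
  let de : Fin (Fintype.card (σ ⊕ J)) → MvPolynomial (σ ⊕ J) k := fun i => den k pr o δ m a (e i)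
  have hnuQ : ∀ i, MvPolynomial.aeval Q (nu i) = Q (e i) := fun i => MvPolynomial.aeval_X Q _
  have hdeQl : ∀ s, MvPolynomial.aeval Q (den k pr o δ m a (Sum.inl s)) = q (o (pr s)) := by
    intro s
    change MvPolynomial.aeval Q (MvPolynomial.X (Sum.inl (o (pr s)))) = _
    rw [MvPolynomial.aeval_X]
    rfl
  have hdeQr : ∀ j, MvPolynomial.aeval Q (den k pr o δ m a (Sum.inr j)) =
      ∏ l, q (o l) ^ dex δ m a j l := by
    intro j
    change MvPolynomial.aeval Q (∏ l, MvPolynomial.X (Sum.inl (o l)) ^ dex δ m a j l) = _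
    rw [map_prod]
    refine Finset.prod_congr rfl fun l _ => ?_
    rw [map_pow, MvPolynomial.aeval_X]
    rfl
  have hqo : ∀ l, (q (o l)).eval 0 = 1 := fun l => by rw [hq0, h.hy, map_one]
  have hde0 : ∀ t, (MvPolynomial.aeval Q (den k pr o δ m a t)).eval 0 = 1 := by
    rintro (s | j)
    · rw [hdeQl, hqo]
    · rw [hdeQr, Polynomial.eval_prod]
      refine Finset.prod_eq_one fun l _ => ?_
      rw [Polynomial.eval_pow, hqo, one_pow]
  have hde : ∀ i, (MvPolynomial.aeval Q (de i)).eval 0 = 1 := fun i => hde0 (e i)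
  have hnu : ∀ i, (MvPolynomial.aeval Q (nu i)).eval 0 = algebraMap K L (x i) := by
    intro i
    rw [hnuQ]
    change (Sum.elim q Z (e i)).eval 0 = algebraMap K L (Sum.elim y z (e i))
    rcases e i with s | j
    · exact hq0 s
    · exact hZ0 j
  -- the power series
  let zt : σ ⊕ J → PowerSeries L := fun t => zs Q (MvPolynomial.X t) (den k pr o δ m a t)
  have hzt : ∀ i, zs Q (nu i) (de i) = zt (e i) := fun i => rfl
  have hztl : ∀ s, zt (Sum.inl s) * ((q (o (pr s)) : Polynomial L) : PowerSeries L) =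
      ((q s : Polynomial L) : PowerSeries L) := by
    intro s
    have h1 := zs_mul (nu := MvPolynomial.X (Sum.inl s)) (hde0 (Sum.inl s))
    rw [hdeQl, MvPolynomial.aeval_X] at h1
    exact h1
  have hztr : ∀ j, zt (Sum.inr j) * ∏ l, ((q (o l) : Polynomial L) : PowerSeries L) ^ dex δ m a j l =
      ((Z j : Polynomial L) : PowerSeries L) := by
    intro j
    have h1 := zs_mul (nu := MvPolynomial.X (Sum.inr j)) (hde0 (Sum.inr j))
    rw [hdeQr, MvPolynomial.aeval_X] at h1
    have h2 : ((∏ l, q (o l) ^ dex δ m a j l : Polynomial L) : PowerSeries L) =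
        ∏ l, ((q (o l) : Polynomial L) : PowerSeries L) ^ dex δ m a j l := by
      have h3 := map_prod (Polynomial.coeToPowerSeries.ringHom (R := L))
        (fun l => q (o l) ^ dex δ m a j l) Finset.univ
      simp only [map_pow, Polynomial.coeToPowerSeries.ringHom_apply] at h3
      exact h3
    rw [h2] at h1
    exact h1
  have hqone : ∀ l, ((q (o l) : Polynomial L) : PowerSeries L) ≠ 0 := by
    intro l h0
    have h1 := hqo l
    have h2 : q (o l) = 0 := Polynomial.coe_injective L (by rw [h0, Polynomial.coe_zero])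
    rw [h2, Polynomial.eval_zero] at h1
    exact zero_ne_one h1
  have hFzt : ∀ c, ((MvPolynomial.aeval q (F c) : Polynomial L) : PowerSeries L) =
      (∏ l, ((q (o l) : Polynomial L) : PowerSeries L) ^ δ c l) *
        MvPolynomial.aeval (fun s => zt (Sum.inl s)) (F c) := by
    intro c
    rw [← (h.hF c).scale]
    have h1 : (fun i => ((q (o (pr i)) : Polynomial L) : PowerSeries L) * zt (Sum.inl i)) =
        fun i => ((q i : Polynomial L) : PowerSeries L) := by
      funext i
      rw [mul_comm, hztl]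
    rw [h1]
    have h2 : ∀ P : MvPolynomial σ k, ((MvPolynomial.aeval q P : Polynomial L) : PowerSeries L) =
        MvPolynomial.aeval (fun i => ((q i : Polynomial L) : PowerSeries L)) P := by
      intro P
      induction P using MvPolynomial.induction_on with
      | C a =>
        rw [MvPolynomial.aeval_C, MvPolynomial.aeval_C, PowerSeries.algebraMap_apply]
        exact Polynomial.coe_C _
      | add p q h1 h2 => rw [map_add, map_add, Polynomial.coe_add, h1, h2]
      | mul_X p i h1 =>
        rw [map_mul, map_mul, Polynomial.coe_mul, h1, MvPolynomial.aeval_X, MvPolynomial.aeval_X]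
    exact h2 _
  have hztpow : ∀ j, zt (Sum.inr j) ^ m j =
      ∏ c, MvPolynomial.aeval (fun s => zt (Sum.inl s)) (F c) ^ a j c := by
    intro j
    have h1 : ((Z j : Polynomial L) : PowerSeries L) ^ m j =
        ∏ c, ((MvPolynomial.aeval q (F c) : Polynomial L) : PowerSeries L) ^ a j c := by
      have h2 := congrArg (Polynomial.coeToPowerSeries.ringHom (R := L)) (hZ j)
      rw [map_pow, map_prod] at h2
      simp only [map_pow, Polynomial.coeToPowerSeries.ringHom_apply] at h2
      exact h2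
    rw [← hztr, mul_pow] at h1
    simp only [hFzt, mul_pow, Finset.prod_mul_distrib] at h1
    rw [prod_pow_comm] at h1
    have h2 : (∏ l, ((q (o l) : Polynomial L) : PowerSeries L) ^ dex δ m a j l) ^ m j =
        ∏ l, ((q (o l) : Polynomial L) : PowerSeries L) ^ (∑ c, a j c * δ c l) := by
      rw [← Finset.prod_pow]
      refine Finset.prod_congr rfl fun l _ => ?_
      rw [← pow_mul]
      congr 1
      exact Nat.div_mul_cancel (h.hdiv j l)
    rw [h2, mul_comm] at h1
    refine mul_left_cancel₀ ?_ h1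
    exact Finset.prod_ne_zero_iff.2 fun l _ => pow_ne_zero _ (hqone l)
  let b : {i : σ // i ≠ o (pr i)} → Fin (Fintype.card (σ ⊕ J)) := fun i => e.symm (Sum.inl i.1)
  have hbx : (fun j => x (b j)) = fun i : {i : σ // i ≠ o (pr i)} => y i.1 := by
    funext i
    simp [x, b]
  have hbz : (fun j => zs Q (nu (b j)) (de (b j))) =
      fun i : {i : σ // i ≠ o (pr i)} => zt (Sum.inl i.1) := by
    funext i
    rw [hzt]
    simp [b]
  have hmeml : ∀ s, zt (Sum.inl s) ∈ Algebra.adjoin k
      (Set.range fun i : {i : σ // i ≠ o (pr i)} => zt (Sum.inl i.1)) := by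
    intro s
    by_cases hs : s = o (pr s)
    · have h1 : zt (Sum.inl s) = 1 := by
        have h2 := hztl s
        rw [← hs] at h2
        have h3 : ((q s : Polynomial L) : PowerSeries L) ≠ 0 := by
          rw [hs]
          exact hqone _
        exact mul_right_cancel₀ h3 (by rw [h2, one_mul])
      rw [h1]
      exact one_mem _
    · exact Algebra.subset_adjoin ⟨⟨s, hs⟩, rfl⟩
  have halg : ∀ i, IsAlgebraic
      (Algebra.adjoin k (Set.range fun j => zs Q (nu (b j)) (de (b j)))) (zs Q (nu i) (de i)) := by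
    intro i
    rw [hbz, hzt]
    rcases e i with s | j
    · exact isAlgebraic_algebraMap (⟨_, hmeml s⟩ : Algebra.adjoin k
        (Set.range fun i : {i : σ // i ≠ o (pr i)} => zt (Sum.inl i.1)))
    · refine IsAlgebraic.of_pow (h.hm j) ?_
      rw [hztpow]
      have h1 : ∏ c, MvPolynomial.aeval (fun s => zt (Sum.inl s)) (F c) ^ a j c ∈
          Algebra.adjoin k (Set.range fun i : {i : σ // i ≠ o (pr i)} => zt (Sum.inl i.1)) := by
        refine prod_mem fun c _ => pow_mem ?_ _
        have h2 : ∀ P : MvPolynomial σ k, MvPolynomial.aeval (fun s => zt (Sum.inl s)) P ∈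
            Algebra.adjoin k (Set.range fun i : {i : σ // i ≠ o (pr i)} => zt (Sum.inl i.1)) := by
          intro P
          induction P using MvPolynomial.induction_on with
          | C a => rw [MvPolynomial.aeval_C]; exact Subalgebra.algebraMap_mem _ _
          | add p q h1 h2 => rw [map_add]; exact add_mem h1 h2
          | mul_X p i h1 => rw [map_mul, MvPolynomial.aeval_X]; exact mul_mem h1 (hmeml i)
        exact h2 _
      exact isAlgebraic_algebraMap (⟨_, h1⟩ : Algebra.adjoin k
        (Set.range fun i : {i : σ // i ≠ o (pr i)} => zt (Sum.inl i.1)))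
  have hi0' : MvPolynomial.aeval Q (nu (e.symm (Sum.inl i0))) ≠
      Polynomial.C (algebraMap K L (x (e.symm (Sum.inl i0)))) *
        MvPolynomial.aeval Q (de (e.symm (Sum.inl i0))) := by
    have h1 : de (e.symm (Sum.inl i0)) = den k pr o δ m a (Sum.inl i0) := by
      simp only [de, Equiv.apply_symm_apply]
    have h2 : x (e.symm (Sum.inl i0)) = y i0 := by simp [x]
    rw [hnuQ, h1, hdeQl, h2, Equiv.apply_symm_apply]
    exact hi0
  let G : {c // S c} → MvPolynomial (σ ⊕ J) k := fun c => MvPolynomial.rename Sum.inl (F c.1)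
  have hren : ∀ {B : Type} [CommRing B] [Algebra k B] (Q : σ ⊕ J → B) (P : MvPolynomial σ k),
      MvPolynomial.aeval Q (MvPolynomial.rename Sum.inl P) =
        MvPolynomial.aeval (fun s => Q (Sum.inl s)) P := by
    intro B _ _ Q P
    rw [MvPolynomial.aeval_rename]
    rfl
  obtain ⟨M, iF, iA, Q', φ, hMe, hMt, hMd, hφ, -, hMG⟩ := family (x := x) hgen htr Q nu de hde hnu b
    (by rw [hbx]; exact h.hbas.1) halg (e.symm (Sum.inl i0)) hi0' G (by
      rintro ⟨c, hc⟩
      refine ⟨algebraMap K L (MvPolynomial.aeval y (F c)), ?_, ?_⟩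
      · rw [Ne, map_eq_zero]
        exact h.hFy c
      · rw [← hS c hc]
        exact hren Q (F c))
  refine ⟨M, iF, iA, φ, hMe, hMt, ?_⟩
  -- the boundary
  let i1 : Polynomial M →+* RatFunc M := algebraMap (Polynomial M) (RatFunc M)
  have hi1 : Function.Injective i1 := RatFunc.algebraMap_injective M
  have hφy : ∀ s, φ (y s) = i1 (Q' (Sum.inl s)) / i1 (Q' (Sum.inl (o (pr s)))) := by
    intro s
    have h1 := hφ (e.symm (Sum.inl s))
    have h2 : x (e.symm (Sum.inl s)) = y s := by simp [x]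
    have h3 : MvPolynomial.aeval Q' (de (e.symm (Sum.inl s))) = Q' (Sum.inl (o (pr s))) := by
      have h4 : de (e.symm (Sum.inl s)) = den k pr o δ m a (Sum.inl s) := by
        simp only [de, Equiv.apply_symm_apply]
      rw [h4]
      exact MvPolynomial.aeval_X Q' _
    have h4 : MvPolynomial.aeval Q' (nu (e.symm (Sum.inl s))) = Q' (Sum.inl s) := by
      have h5 : nu (e.symm (Sum.inl s)) = MvPolynomial.X (Sum.inl s) := by
        simp only [nu, Equiv.apply_symm_apply]
      rw [h5]
      exact MvPolynomial.aeval_X Q' _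
    rw [h2, h3, h4] at h1
    exact h1
  have hQo : ∀ l, i1 (Q' (Sum.inl (o l))) ≠ 0 := by
    intro l
    rw [Ne, map_eq_zero_iff _ hi1]
    intro h0
    have h1 := hMd (e.symm (Sum.inl (o l)))
    have h2 : MvPolynomial.aeval Q' (de (e.symm (Sum.inl (o l)))) = Q' (Sum.inl (o l)) := by
      have h3 : de (e.symm (Sum.inl (o l))) = den k pr o δ m a (Sum.inl (o l)) := by
        simp only [de, Equiv.apply_symm_apply]
      rw [h3]
      refine (MvPolynomial.aeval_X Q' _).trans ?_
      rw [h.ho]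
    rw [h2, h0, Polynomial.eval_zero] at h1
    exact zero_ne_one h1
  have hQs : ∀ s, i1 (Q' (Sum.inl s)) ≠ 0 := by
    intro s h0
    have h1 := hφy s
    rw [h0, zero_div, map_eq_zero] at h1
    exact h.y_ne s h1
  rintro w hw v e' he hwv ⟨c, hc, hmu⟩
  have he' : (0 : ℤ) < e' := by exact_mod_cast he
  have hnon : ∀ s, 0 ≤ w.ord (i1 (Q' (Sum.inl s))) := by
    intro s
    rcases Pool.Agent.Y199.NN.reg_poly w hw (Q' (Sum.inl s)) with h1 | h1
    · exact absurd h1 (hQs s)
    · exact h1
  -- the value of the form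
  obtain ⟨c', hc', hcc⟩ := hMG ⟨c, hc⟩
  have hFc : MvPolynomial.aeval (fun s => Q' (Sum.inl s)) (F c) = Polynomial.C c' := by
    rw [← hcc]
    exact (hren Q' (F c)).symm
  have hFφ : (∏ l, i1 (Q' (Sum.inl (o l))) ^ δ c l) * φ (MvPolynomial.aeval y (F c)) =
      i1 (Polynomial.C c') := by
    have h1 : φ (MvPolynomial.aeval y (F c)) = MvPolynomial.aeval (fun i => φ (y i)) (F c) := by
      rw [← AlgHom.comp_apply, MvPolynomial.comp_aeval]
    rw [h1, ← (h.hF c).scale]
    have h2 : (fun i => i1 (Q' (Sum.inl (o (pr i)))) * φ (y i)) = fun i => i1 (Q' (Sum.inl i)) := by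
      funext i
      rw [hφy, mul_div_cancel₀ _ (hQo _)]
    rw [h2, ← hFc]
    exact MvPolynomial.aeval_algebraMap_apply (RatFunc M) (fun s => Q' (Sum.inl s)) (F c)
  have hFne : φ (MvPolynomial.aeval y (F c)) ≠ 0 := by
    rw [Ne, map_eq_zero]
    exact h.hFy c
  have hordF : ∑ l, (δ c l : ℤ) * w.ord (i1 (Q' (Sum.inl (o l)))) +
      w.ord (φ (MvPolynomial.aeval y (F c))) = 0 := by
    have h1 := congrArg w.ord hFφ
    have h2 : w.ord (i1 (Polynomial.C c')) = 0 := by
      have h3 : i1 (Polynomial.C c') = RatFunc.C c' := RatFunc.algebraMap_C c'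
      rw [h3]
      exact w.ord_const hc'
    rw [h2, w.ord_mul (Finset.prod_ne_zero_iff.2 fun l _ => pow_ne_zero _ (hQo l)) hFne] at h1
    rw [← h1]
    congr 1
    have h4 : ∀ T : Finset ρ, w.ord (∏ l ∈ T, i1 (Q' (Sum.inl (o l))) ^ δ c l) =
        ∑ l ∈ T, (δ c l : ℤ) * w.ord (i1 (Q' (Sum.inl (o l)))) := by
      intro T
      induction T using Finset.induction_on with
      | empty =>
        rw [Finset.prod_empty, Finset.sum_empty]
        have h5 := w.ord_const (c := (1 : M)) one_ne_zero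
        rw [map_one] at h5
        exact h5
      | insert l T hl ih =>
        rw [Finset.prod_insert hl, Finset.sum_insert hl, w.ord_mul (pow_ne_zero _ (hQo l))
          (Finset.prod_ne_zero_iff.2 fun l _ => pow_ne_zero _ (hQo l)), ih]
        congr 1
        have h5 : ∀ r : ℕ, w.ord (i1 (Q' (Sum.inl (o l))) ^ r) =
            (r : ℤ) * w.ord (i1 (Q' (Sum.inl (o l)))) := by
          intro r
          induction r with
          | zero =>
            have h5 := w.ord_const (c := (1 : M)) one_ne_zero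
            rw [map_one] at h5
            simp [h5]
          | succ r ih =>
            rw [pow_succ, w.ord_mul (pow_ne_zero _ (hQo l)) (hQo l), ih]
            push_cast
            ring
        exact h5 _
    exact (h4 Finset.univ).symm
  -- the minimal orders
  have hne : ∀ l, (Finset.univ.filter fun i => pr i = l).Nonempty := fun l =>
    ⟨o l, Finset.mem_filter.2 ⟨Finset.mem_univ _, h.ho l⟩⟩
  let μ : ρ → ℤ := fun l => (Finset.univ.filter fun i => pr i = l).inf' (hne l) fun i => v.ord (y i)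
  have hμ : ∀ l, - w.ord (i1 (Q' (Sum.inl (o l)))) ≤ e' * μ l := by
    intro l
    obtain ⟨i, hi, hil⟩ := Finset.exists_mem_eq_inf' (hne l) fun i => v.ord (y i)
    have h1 : μ l = v.ord (y i) := hil
    have h2 : pr i = l := (Finset.mem_filter.1 hi).2
    rw [h1, ← hwv, hφy, h2]
    have h3 : w.ord (i1 (Q' (Sum.inl i)) / i1 (Q' (Sum.inl (o l)))) =
        w.ord (i1 (Q' (Sum.inl i))) - w.ord (i1 (Q' (Sum.inl (o l)))) := by
      have h4 : i1 (Q' (Sum.inl i)) = i1 (Q' (Sum.inl i)) / i1 (Q' (Sum.inl (o l))) *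
          i1 (Q' (Sum.inl (o l))) := (div_mul_cancel₀ _ (hQo l)).symm
      have h5 := congrArg w.ord h4
      rw [w.ord_mul (div_ne_zero (hQs i) (hQo l)) (hQo l)] at h5
      linarith
    rw [h3]
    have := hnon i
    linarith
  have hle : ∀ i, μ (pr i) ≤ v.ord (y i) := fun i =>
    Finset.inf'_le (s := Finset.univ.filter fun i' => pr i' = pr i) (fun i' => v.ord (y i'))
      (Finset.mem_filter.2 ⟨Finset.mem_univ i, rfl⟩)
  have hlt := hmu μ hle
  have h1 := hwv (MvPolynomial.aeval y (F c))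
  rw [h1] at hordF
  have h2 : e' * ∑ l, (δ c l : ℤ) * μ l ≥ - ∑ l, (δ c l : ℤ) * w.ord (i1 (Q' (Sum.inl (o l)))) := by
    rw [Finset.mul_sum, ← Finset.sum_neg_distrib]
    refine Finset.sum_le_sum fun l _ => ?_
    have h3 := mul_le_mul_of_nonneg_left (hμ l) (Nat.cast_nonneg (α := ℤ) (δ c l))
    linarith
  have h3 := mul_lt_mul_of_pos_left hlt he'
  linarith

end Pool.Agent.Q41.RC
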