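import Pool.Agent.Q41.RC.Cov

/-!
The degrees and the multiplicities of curves on abelian covers.
-/

set_option autoImplicit false

open Polynomial

namespace Pool.Agent.Q41.RC

/-- Degrees `D` and a finite list `V` of vectors of multiplicities, supported outside `S`, with less
conditions than parameters. -/
structure IsDat {ρ σ κ J I : Type} [Fintype ρ] [Fintype σ] [Fintype κ] [Fintype I] (pr : σ → ρ)
    (δ : κ → ρ → ℕ) (m : J → ℕ) (a : J → κ → ℕ) (S : κ → Prop) (D : ρ → ℕ) (V : I → κ → ℕ) :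
    Prop where
  hD : D ≠ 0
  hV : ∀ i, V i ≠ 0
  hS : ∀ i c, S c → V i c = 0
  hA : ∀ i j, m j ∣ ∑ c, a j c * V i c
  hle : ∀ c, ∑ i, V i c ≤ ∑ l, D l * δ c l
  hlt : ∑ c, ∑ l, D l * δ c l < ∑ i, D (pr i) + Fintype.card I

section comb

variable {ρ σ κ J : Type} [Fintype ρ] [Fintype σ] [Fintype κ] {pr : σ → ρ} {δ : κ → ρ → ℕ}
  {m : J → ℕ} {a : J → κ → ℕ} {S : κ → Prop}

/-- there are data of total degree `N` -/
def HasDat (pr : σ → ρ) (δ : κ → ρ → ℕ) (m : J → ℕ) (a : J → κ → ℕ) (S : κ → Prop) (N : ℕ) : Prop :=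
  ∃ (D : ρ → ℕ) (I : Type) (_ : Fintype I) (V : I → κ → ℕ), IsDat pr δ m a S D V ∧ ∑ l, D l = N

theorem IsDat.restrict {I : Type} [Fintype I] {D : ρ → ℕ} {V : I → κ → ℕ}
    (h : IsDat pr δ m a S D V) (G : Finset I) (e : ρ → ℕ) (he : e ≠ 0)
    (hle : ∀ c, ∑ i ∈ G, V i c ≤ ∑ l, e l * δ c l)
    (hlt : ∑ c, ∑ l, e l * δ c l < ∑ i, e (pr i) + G.card) :
    IsDat pr δ m a S e (fun i : G => V i.1) where
  hD := he
  hV := fun i => h.hV i
  hS := fun i => h.hS i
  hA := fun i => h.hA i
  hle := by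
    intro c
    have h1 := Finset.sum_coe_sort G (fun i => V i c)
    rw [h1]
    exact hle c
  hlt := by
    rw [Fintype.card_coe]
    exact hlt

theorem IsDat.minimal {I : Type} [Fintype I] {D : ρ → ℕ} {V : I → κ → ℕ}
    (h : IsDat pr δ m a S D V) (hmin : ∀ N, HasDat pr δ m a S N → ∑ l, D l ≤ N) (G : Finset I)
    (e : ρ → ℕ) (he : e ≠ 0) (heD : ∀ l, e l ≤ D l) (hG : ∀ c, ∑ i ∈ G, V i c = ∑ l, e l * δ c l) :
    e = D := by
  classical
  by_contra hne
  have hDe : (fun l => D l - e l) ≠ 0 := by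
    intro h0
    apply hne
    funext l
    have h1 := congrFun h0 l
    have h2 := heD l
    simp only [Pi.zero_apply] at h1
    omega
  have hsplit : ∀ c, ∑ l, D l * δ c l = ∑ l, e l * δ c l + ∑ l, (D l - e l) * δ c l := by
    intro c
    rw [← Finset.sum_add_distrib]
    refine Finset.sum_congr rfl fun l _ => ?_
    rw [← add_mul]
    congr 1
    have := heD l
    omega
  have hsplit2 : ∑ i, D (pr i) = ∑ i, e (pr i) + ∑ i, (D (pr i) - e (pr i)) := by
    rw [← Finset.sum_add_distrib]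
    refine Finset.sum_congr rfl fun i _ => ?_
    have := heD (pr i)
    omega
  have hsplit3 : ∑ l, D l = ∑ l, e l + ∑ l, (D l - e l) := by
    rw [← Finset.sum_add_distrib]
    refine Finset.sum_congr rfl fun l _ => ?_
    have := heD l
    omega
  have hcard : Fintype.card I = G.card + Gᶜ.card := (Finset.card_add_card_compl G).symm
  have hpos : ∀ f : ρ → ℕ, f ≠ 0 → 0 < ∑ l, f l := by
    intro f hf
    obtain ⟨l, hl⟩ := Function.ne_iff.1 hf
    exact lt_of_lt_of_le (Nat.pos_of_ne_zero hl)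
      (Finset.single_le_sum (fun _ _ => Nat.zero_le _) (Finset.mem_univ l))
  have hlt := h.hlt
  have h1 : ∑ c, ∑ l, D l * δ c l = ∑ c, ∑ l, e l * δ c l + ∑ c, ∑ l, (D l - e l) * δ c l := by
    rw [← Finset.sum_add_distrib]
    exact Finset.sum_congr rfl fun c _ => hsplit c
  rw [h1, hsplit2, hcard] at hlt
  have hcase : ∑ c, ∑ l, e l * δ c l < ∑ i, e (pr i) + G.card ∨
      ∑ c, ∑ l, (D l - e l) * δ c l < ∑ i, (D (pr i) - e (pr i)) + Gᶜ.card := by
    by_contra h2
    rw [not_or, not_lt, not_lt] at h2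
    omega
  rcases hcase with h2 | h2
  · have h3 := hmin _ ⟨e, G, inferInstance, _, h.restrict G e he (fun c => (hG c).le) h2, rfl⟩
    have h4 := hpos _ hDe
    omega
  · have h5 : ∀ c, ∑ i ∈ Gᶜ, V i c ≤ ∑ l, (D l - e l) * δ c l := by
      intro c
      have h6 := h.hle c
      rw [hsplit c, ← hG c, ← Finset.sum_add_sum_compl G] at h6
      omega
    have h3 : ∑ l, D l ≤ ∑ l, (D l - e l) := hmin _ ⟨fun l => D l - e l, (Gᶜ : Finset I),
      inferInstance, _, h.restrict Gᶜ (fun l => D l - e l) hDe h5 h2, rfl⟩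
    have h4 := hpos _ he
    omega

end comb

section roots

variable {L : Type} [Field L]

theorem rootMultiplicity_prod_pow {ι : Type} (s : Finset ι) (p : ι → L[X]) (e : ι → ℕ) (b : L)
    (hp : ∀ i ∈ s, p i ≠ 0) :
    (∏ i ∈ s, p i ^ e i).rootMultiplicity b = ∑ i ∈ s, e i * (p i).rootMultiplicity b := by
  classical
  have hpow : ∀ (q : L[X]) (n : ℕ), q ≠ 0 → (q ^ n).rootMultiplicity b =
      n * q.rootMultiplicity b := by
    intro q n hq
    rw [← Polynomial.count_roots, ← Polynomial.count_roots, Polynomial.roots_pow,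
      Multiset.count_nsmul]
  induction s using Finset.induction_on with
  | empty => simp
  | insert i s hi ih =>
    have h1 : ∀ j ∈ s, p j ≠ 0 := fun j hj => hp j (Finset.mem_insert_of_mem hj)
    have h2 := hp i (Finset.mem_insert_self i s)
    rw [Finset.prod_insert hi, Finset.sum_insert hi, Polynomial.rootMultiplicity_mul
      (mul_ne_zero (pow_ne_zero _ h2) (Finset.prod_ne_zero_iff.2 fun j hj => pow_ne_zero _ (h1 j hj))),
      hpow _ _ h2, ih h1]

theorem one_sub_ne (α : L) : (1 - C α * X : L[X]) ≠ 0 := by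
  intro h
  have h1 := congrArg (Polynomial.eval 0) h
  simp at h1

open scoped Classical in
theorem rootMultiplicity_lin (α b : L) (hb : b ≠ 0) :
    (1 - C α * X : L[X]).rootMultiplicity b⁻¹ = if α = b then 1 else 0 := by
  split_ifs with h
  · subst h
    have h1 : (1 - C α * X : L[X]) = C (-α) * (X - C α⁻¹) := by
      rw [mul_sub, ← C_mul, neg_mul, mul_inv_cancel₀ hb]
      simp only [map_neg, map_one]
      ring
    have h2 : (C (-α) : L[X]) ≠ 0 := by
      rw [Ne, C_eq_zero, neg_eq_zero]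
      exact hb
    rw [h1, Polynomial.rootMultiplicity_mul (mul_ne_zero h2 (X_sub_C_ne_zero _)),
      rootMultiplicity_C, rootMultiplicity_X_sub_C_self]
  · apply rootMultiplicity_eq_zero
    intro h1
    apply h
    have h2 : (1 : L) - α * b⁻¹ = 0 := by simpa [IsRoot] using h1
    field_simp at h2
    linear_combination -h2

end roots

end Pool.Agent.Q41.RC
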