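import Pool.Agent.Q41.RC.Thm
import Pool.Agent.Q41.RC.Vx

/-!
An explicit index of a plurigenus which decides everything.
-/

set_option autoImplicit false

open FF MvPolynomial
open Pool.Agent.W619.PL Pool.Agent.W619.PQ Pool.Agent.W619.TW

namespace Pool.Agent.Q41.RC

section

variable {k ρ σ κ J : Type} [Field k] [Fintype ρ] [Fintype σ] [Fintype κ] {pr : σ → ρ}
  {δ : κ → ρ → ℕ} {m : J → ℕ} {a : J → κ → ℕ} {S : κ → Prop} {F : κ → MvPolynomial σ k}

/-- exponents with small denominators -/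
theorem exp_small (h : ∃ e, IsExp pr δ m a S F e) {B : ℕ} (hB : 1 ≤ B) (hδ : ∀ c l, δ c l ≤ B)
    {E : ℕ} (hE0 : 0 < E) (hEB : E ≤ B) (hE : ∀ j c, m j ∣ E * a j c) :
    ∃ e, IsExp pr δ m a S F e ∧ ∃ T : ℕ, 0 < T ∧
      T ≤ (Fintype.card κ).factorial * B ^ Fintype.card κ ∧ ∀ c, ∃ w : ℤ, (T : ℚ) * e c = w := by
  classical
  have hfin : {v | Minimal (· ∈ {w | IsVec pr m a S F w}) v}.Finite := by
    have h2 : IsAntichain (· ≤ ·) {v | Minimal (· ∈ {w | IsVec pr m a S F w}) v} :=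
      setOfPred_minimal_antichain _
    exact h2.finite_of_partiallyWellOrderedOn (Set.isPWO_of_wellQuasiOrderedLE _)
  obtain ⟨T, hT⟩ : ∃ T : Finset (κ → ℕ), ∀ v, v ∈ T ↔ Minimal (· ∈ {w | IsVec pr m a S F w}) v :=
    ⟨hfin.toFinset, fun v => hfin.mem_toFinset⟩
  have hTv : ∀ v : T, IsVec pr m a S F v.1 := fun v => ((hT v.1).1 v.2).1
  have hTle : ∀ v, IsVec pr m a S F v → ∃ v0 : T, v0.1 ≤ v := by
    intro v hv
    have h1 : ({w | IsVec pr m a S F w} : Set (κ → ℕ)).IsPWO := Set.isPWO_of_wellQuasiOrderedLE _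
    obtain ⟨s, hs, hm⟩ := h1.exists_le_minimal (show v ∈ {w | IsVec pr m a S F w} from hv)
    exact ⟨⟨s, (hT s).2 hm⟩, hs⟩
  have hTE : ∀ (v : T) c, v.1 c ≤ E := by
    intro v c
    by_contra hcon
    push Not at hcon
    have hv := hTv v
    let v' : κ → ℕ := fun c' => if c' = c then v.1 c' - E else v.1 c'
    have hv' : ∀ c', v.1 c' = v' c' + if c' = c then E else 0 := by
      intro c'
      simp only [v']
      split_ifs with h1
      · rw [h1]
        omega
      · rfl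
    have hle : v' ≤ v.1 := by
      intro c'
      change v' c' ≤ v.1 c'
      rw [hv' c']
      exact Nat.le_add_right _ _
    have hvec : IsVec pr m a S F v' := by
      refine ⟨fun h0 => ?_, fun c' hc' => ?_, fun j => ?_, ?_⟩
      · have h1 := congrFun h0 c
        simp only [v', if_true, Pi.zero_apply] at h1
        omega
      · exact Nat.le_zero.1 ((hle c').trans (hv.out c' hc').le)
      · have h1 := hv.dvd j
        have h2 : ∑ c', a j c' * v.1 c' = ∑ c', a j c' * v' c' + E * a j c := by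
          have h3 : ∀ c', a j c' * v.1 c' = a j c' * v' c' + if c' = c then E * a j c else 0 := by
            intro c'
            rw [hv' c', mul_add]
            congr 1
            split_ifs with h4
            · rw [h4, mul_comm]
            · rw [mul_zero]
          rw [Finset.sum_congr rfl fun c' _ => h3 c', Finset.sum_add_distrib]
          simp
        rw [h2] at h1
        exact (Nat.dvd_add_left (hE j c)).1 h1
      · obtain ⟨x, hx, hx0⟩ := hv.pt
        refine ⟨x, hx, fun c' hc' => hx0 c' fun h0 => hc' ?_⟩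
        exact Nat.le_zero.1 ((hle c').trans h0.le)
    have h1 := ((hT v.1).1 v.2).2 (show v' ∈ {w | IsVec pr m a S F w} from hvec) hle
    have h2 := h1 c
    simp only [v', if_true] at h2
    omega
  obtain ⟨e0, he0⟩ := h
  let A : ρ ⊕ T → κ → ℤ := Sum.elim (fun l c => -(δ c l : ℤ)) (fun v c => (v.1 c : ℤ))
  let b : ρ ⊕ T → ℤ := Sum.elim
    (fun l => ((Finset.univ.filter fun i => pr i = l).card : ℤ) - ∑ c, (δ c l : ℤ)) (fun _ => 1)
  have hrow : ∀ (e : κ → ℚ) l, ((b (Sum.inl l) : ℚ) ≤ ∑ c, (A (Sum.inl l) c : ℚ) * e c) ↔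
      ((Finset.univ.filter fun i => pr i = l).card : ℚ) ≤ ∑ c, (1 - e c) * δ c l := by
    intro e l
    simp only [A, b, Sum.elim_inl]
    push_cast
    have h1 : ∑ c, (1 - e c) * (δ c l : ℚ) = ∑ c, (δ c l : ℚ) + ∑ c, -(δ c l : ℚ) * e c := by
      rw [← Finset.sum_add_distrib]
      exact Finset.sum_congr rfl fun c _ => by ring
    rw [h1]
    constructor <;> intro h2 <;> linarith
  have hrow2 : ∀ (e : κ → ℚ) (v : T), ((b (Sum.inr v) : ℚ) ≤ ∑ c, (A (Sum.inr v) c : ℚ) * e c) ↔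
      1 ≤ ∑ c, (v.1 c : ℚ) * e c := by
    intro e v
    simp only [A, b, Sum.elim_inr]
    push_cast
    exact Iff.rfl
  obtain ⟨e, hen, her, hden⟩ := exists_vertex A b hB (by
    rintro (l | v) c
    · simp only [A, Sum.elim_inl, abs_neg, Nat.abs_cast]
      exact_mod_cast hδ c l
    · simp only [A, Sum.elim_inr, Nat.abs_cast]
      exact_mod_cast (hTE v c).trans hEB) he0.nonneg (by
    rintro (l | v)
    · exact (hrow e0 l).2 (he0.deg l)
    · exact (hrow2 e0 v).2 (he0.one_le _ (hTv v)))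
  refine ⟨e, ⟨hen, fun l => (hrow e l).1 (her (Sum.inl l)), fun v hv => ?_⟩, hden⟩
  obtain ⟨v0, hv0⟩ := hTle v hv
  refine ((hrow2 e v0).1 (her (Sum.inr v0))).trans ?_
  exact Finset.sum_le_sum fun c _ => mul_le_mul_of_nonneg_right (by exact_mod_cast hv0 c) (hen c)

end

/-- The logarithmic plurigenus `P_m` is not zero. -/
def LogPluriPos (k K : Type) [Field k] [Field K] [Algebra k K] (n : ℕ)
    (Bd : Place k K → Prop) (m : ℕ) : Prop :=
  ∃ ω : (Fin n → Derivation k K K) → K, IsPluriForm k K n m ω ∧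
    (∀ v : Place k K, IsDivisorial v n → ¬ Bd v → RegularAt v n ω) ∧
    (∀ v : Place k K, IsDivisorial v n → Bd v → LogRegularAt v n ω) ∧ ∃ D, ω D ≠ 0

variable {k K ρ σ κ J : Type} [Field k] [Field K] [Algebra k K] [Fintype ρ] [Fintype σ]
    [Fintype κ] [Fintype J] {pr : σ → ρ} {o : ρ → σ} {δ : κ → ρ → ℕ} {F : κ → MvPolynomial σ k}
    {m : J → ℕ} {a : J → κ → ℕ} {y : σ → K} {z : J → K}

/-- **The plurigenus with an explicit index.** -/
theorem pluri_of_exp [IsAlgClosed k] [CharZero k] (h : IsCov pr o δ F m a y z) {n : ℕ}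
    (htr : Algebra.trdeg k K = n) (hS : ∀ [DecidableEq σ], SNC pr F) {S : κ → Prop}
    (he : ∃ e, IsExp pr δ m a S F e) {B : ℕ} (hB : 1 ≤ B) (hδ : ∀ c l, δ c l ≤ B)
    {E : ℕ} (hE0 : 0 < E) (hEB : E ≤ B) (hE : ∀ j c, m j ∣ E * a j c) {M : ℕ}
    (hM : ∀ t, 0 < t → t ≤ (Fintype.card κ).factorial * B ^ Fintype.card κ → t ∣ M) :
    LogPluriPos k K n (OverS pr δ F y S) M := by
  obtain ⟨e, he, T, hT, hTB, hw⟩ := exp_small he hB hδ hE0 hEB hE
  choose w hw using hw
  obtain ⟨q, rfl⟩ := hM T hT hTB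
  exact form_of_exp h htr hS he (T := T * q) (w := fun c => q * w c) fun c => by
    push_cast
    rw [← hw]
    ring

theorem not_neg_of_pluri {n : ℕ} {Bd : Place k K → Prop} {M : ℕ} (hM : 0 < M)
    (h : LogPluriPos k K n Bd M) : ¬ LogKodairaNeg k K n Bd := by
  obtain ⟨ω, h1, h2, h3, D, hD⟩ := h
  exact fun hneg => hD (hneg M hM ω h1 h2 h3 D)

end Pool.Agent.Q41.RC
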