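import Pool.Agent.Q41.RC.Spec
import Pool.Agent.W602.GT.Dich
import Mathlib.RingTheory.LaurentSeries

/-!
A curve through the generic point gives a family of rational curves.
-/

set_option autoImplicit false

open FF Cardinal
open Pool.Agent.Y199.NN (inj_of_alg exists_emb)

namespace Pool.Agent.Q41.RC

variable {k : Type} [Field k]

theorem ratfunc_C {M : Type} [Field M] [Algebra k M] (a : k) :
    algebraMap k (RatFunc M) a = algebraMap (Polynomial M) (RatFunc M)
      (Polynomial.C (algebraMap k M a)) := by
  rw [IsScalarTower.algebraMap_apply k (Polynomial M) (RatFunc M)]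
  rfl

theorem lau_inj (M : Type) [Field M] : Function.Injective ((HahnSeries.ofPowerSeries ℤ M).comp
    (Polynomial.coeToPowerSeries.ringHom (R := M))) := by
  intro p q h
  exact Polynomial.coe_injective M (HahnSeries.ofPowerSeries_injective h)

/-- the expansion of rational functions -/
noncomputable def lau (M : Type) [Field M] : RatFunc M →+* LaurentSeries M :=
  IsFractionRing.lift (A := Polynomial M) (K := RatFunc M) (lau_inj M)

theorem lau_poly {M : Type} [Field M] (p : Polynomial M) :
    lau M (algebraMap (Polynomial M) (RatFunc M) p) =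
      HahnSeries.ofPowerSeries ℤ M (p : PowerSeries M) :=
  IsFractionRing.lift_algebraMap (lau_inj M) p

/-- rational functions and power series have the same image in the field of Laurent series -/
theorem laurent_zs {M : Type} [Field M] [Algebra k M] {n : ℕ} {τ : Type}
    (Q' : τ → Polynomial M) (nu de : Fin n → MvPolynomial τ k)
    (hde : ∀ i, (MvPolynomial.aeval Q' (de i)).eval 0 = 1) (R : MvPolynomial (Fin n) k) :
    lau M (MvPolynomial.aeval (fun i =>
      algebraMap (Polynomial M) (RatFunc M) (MvPolynomial.aeval Q' (nu i)) /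
        algebraMap (Polynomial M) (RatFunc M) (MvPolynomial.aeval Q' (de i))) R) =
    HahnSeries.ofPowerSeries ℤ M (MvPolynomial.aeval (fun i => zs Q' (nu i) (de i)) R) := by
  have hp : ∀ p : Polynomial M, lau M (algebraMap (Polynomial M) (RatFunc M) p) =
        HahnSeries.ofPowerSeries ℤ M (p : PowerSeries M) := lau_poly
  induction R using MvPolynomial.induction_on with
  | C a =>
    rw [MvPolynomial.aeval_C, MvPolynomial.aeval_C, ratfunc_C, hp, PowerSeries.algebraMap_apply,
      Polynomial.coe_C]
  | add p q h1 h2 => rw [map_add, map_add, map_add, map_add, h1, h2]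
  | mul_X p i h1 =>
    rw [map_mul, map_mul, map_mul, map_mul, h1, MvPolynomial.aeval_X, MvPolynomial.aeval_X]
    congr 1
    rw [map_div₀, hp, hp]
    have hne : HahnSeries.ofPowerSeries ℤ M
        ((MvPolynomial.aeval Q' (de i) : Polynomial M) : PowerSeries M) ≠ 0 := by
      rw [Ne, map_eq_zero_iff _ HahnSeries.ofPowerSeries_injective]
      intro h0
      have h2 := de_mul (hde i)
      rw [h0, zero_mul] at h2
      exact zero_ne_one h2
    rw [div_eq_iff hne, ← map_mul, zs_mul (hde i)]

/-- **A curve through the generic point gives a family of rational curves.** -/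
theorem family [IsAlgClosed k] [CharZero k] {K : Type} [Field K] [Algebra k K] {n m : ℕ}
    {x : Fin n → K} (hgen : IntermediateField.adjoin k (Set.range x) = ⊤)
    (htr : Algebra.trdeg k K = m)
    {L : Type} [Field L] [Algebra k L] [Algebra K L] [IsScalarTower k K L]
    [Algebra.IsAlgebraic K L] {τ : Type} [Finite τ] (Q : τ → Polynomial L)
    (nu de : Fin n → MvPolynomial τ k)
    (hde : ∀ i, (MvPolynomial.aeval Q (de i)).eval 0 = 1)
    (hnu : ∀ i, (MvPolynomial.aeval Q (nu i)).eval 0 = algebraMap K L (x i))
    {J0 : Type} (b : J0 → Fin n) (hb : AlgebraicIndependent k (fun j => x (b j)))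
    (halg : ∀ i, IsAlgebraic
      (Algebra.adjoin k (Set.range fun j => zs Q (nu (b j)) (de (b j)))) (zs Q (nu i) (de i)))
    (i0 : Fin n) (hi0 : MvPolynomial.aeval Q (nu i0) ≠
      Polynomial.C (algebraMap K L (x i0)) * MvPolynomial.aeval Q (de i0))
    {κ : Type} [Finite κ] (G : κ → MvPolynomial τ k)
    (hG : ∀ l, ∃ c : L, c ≠ 0 ∧ MvPolynomial.aeval Q (G l) = Polynomial.C c) :
    ∃ (M : Type) (_ : Field M) (_ : Algebra k M) (Q' : τ → Polynomial M)
      (φ : K →ₐ[k] RatFunc M), Algebra.EssFiniteType k M ∧ Algebra.trdeg k M + 1 = m ∧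
      (∀ i, (MvPolynomial.aeval Q' (de i)).eval 0 = 1) ∧
      (∀ i, φ (x i) = algebraMap (Polynomial M) (RatFunc M) (MvPolynomial.aeval Q' (nu i)) /
        algebraMap (Polynomial M) (RatFunc M) (MvPolynomial.aeval Q' (de i))) ∧
      (∀ P : MvPolynomial τ k, MvPolynomial.aeval Q P = 0 → MvPolynomial.aeval Q' P = 0) ∧
      ∀ l, ∃ c : M, c ≠ 0 ∧ MvPolynomial.aeval Q' (G l) = Polynomial.C c := by
  classical
  have := Fintype.ofFinite κ
  have := Fintype.ofFinite τ
  -- the equations of the curve
  have hid : ∀ R : MvPolynomial (Fin n) k, MvPolynomial.aeval x R = 0 →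
      MvPolynomial.aeval (fun i => zs Q (nu i) (de i)) R = 0 := by
    intro R hR
    refine inj_of_alg (aug (k := k) (A := L)) (fun j => zs Q (nu (b j)) (de (b j))) ?_ _ ?_ ?_
    · have h1 := hb.map' (f := IsScalarTower.toAlgHom k K L) (algebraMap K L).injective
      have h2 : (fun j => aug (k := k) (A := L) (zs Q (nu (b j)) (de (b j)))) =
          (IsScalarTower.toAlgHom k K L) ∘ (fun j => x (b j)) := by
        funext j
        rw [aug_apply, zs_const (hde _), hnu]
        rfl
      rw [h2]
      exact h1
    · clear hR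
      induction R using MvPolynomial.induction_on with
      | C a =>
        rw [MvPolynomial.aeval_C]
        exact isAlgebraic_algebraMap (algebraMap k (Algebra.adjoin k
          (Set.range fun j => zs Q (nu (b j)) (de (b j)))) a)
      | add p q h1 h2 => rw [map_add]; exact h1.add h2
      | mul_X p i h1 => rw [map_mul, MvPolynomial.aeval_X]; exact h1.mul (halg i)
    · rw [← AlgHom.comp_apply, MvPolynomial.comp_aeval]
      have h2 : (fun i => aug (k := k) (A := L) (zs Q (nu i) (de i))) =
          fun i => algebraMap K L (x i) := by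
        funext i
        rw [aug_apply, zs_const (hde _), hnu]
      rw [h2]
      have h3 := MvPolynomial.aeval_algebraMap_apply L x R
      rw [hR, map_zero] at h3
      exact h3
  choose d hd0 hd using hG
  -- a finite extension
  let S : Finset L := Finset.univ.biUnion fun i => (Q i).support.image (Q i).coeff
  let K' : IntermediateField K L := IntermediateField.adjoin K (S : Set L)
  have hfd : FiniteDimensional K K' := IntermediateField.finiteDimensional_adjoin fun z _ =>
    (Algebra.IsAlgebraic.isAlgebraic (R := K) z).isIntegral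
  have hess : Algebra.EssFiniteType k K := by
    have h1 : (⊤ : IntermediateField k K).FG := by
      rw [← hgen]
      exact ⟨(Set.finite_range x).toFinset, by simp⟩
    have h2 : Algebra.EssFiniteType k (⊤ : IntermediateField k K) :=
      (IntermediateField.essFiniteType_iff).2 h1
    exact (Algebra.EssFiniteType.iff_of_algEquiv (IntermediateField.topEquiv
      (F := k) (E := K))).1 h2
  have hess' : Algebra.EssFiniteType k K' := Algebra.EssFiniteType.comp k K K'
  have htr' : Algebra.trdeg k K' = m := by
    have h1 := _root_.trdeg_add_eq k K (A := K')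
    have h2 : Algebra.trdeg K K' = 0 := _root_.trdeg_eq_zero_iff.2 inferInstance
    rw [← h1, h2, add_zero, htr]
  have hcoef : ∀ i e, (Q i).coeff e ∈ K' := by
    intro i e
    by_cases h0 : (Q i).coeff e = 0
    · rw [h0]; exact zero_mem K'
    · apply IntermediateField.subset_adjoin
      exact Finset.mem_coe.2 (Finset.mem_biUnion.2 ⟨i, Finset.mem_univ i,
        Finset.mem_image.2 ⟨e, Polynomial.mem_support_iff.2 h0, rfl⟩⟩)
  let α : K' →ₐ[k] L := (K'.val).restrictScalars k
  have hα : Function.Injective (α : K' →+* L) := Subtype.val_injective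
  have hlift : ∀ i, ∃ q : Polynomial K', q.map (α : K' →+* L) = Q i := by
    intro i
    have h1 : Q i ∈ Polynomial.lifts (α : K' →+* L) := by
      rw [Polynomial.lifts_iff_coeff_lifts]
      intro e
      exact ⟨⟨(Q i).coeff e, hcoef i e⟩, rfl⟩
    exact (Polynomial.mem_lifts _).1 h1
  choose q hq using hlift
  have hqf : (fun i => (q i).map (α : K' →+* L)) = Q := funext hq
  have hqα : ∀ R : MvPolynomial τ k, (MvPolynomial.aeval q R).map (α : K' →+* L) =
      MvPolynomial.aeval Q R := by
    intro R
    rw [map_aeval, hqf]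
  have hev : ∀ R : MvPolynomial τ k, (((MvPolynomial.aeval q R).eval 0 : K') : L) =
      (MvPolynomial.aeval Q R).eval 0 := by
    intro R
    rw [← hqα R, Polynomial.eval_map, ← Polynomial.coeff_zero_eq_eval_zero,
      Polynomial.eval₂_at_zero]
    rfl
  have hdeq : ∀ i, (MvPolynomial.aeval q (de i)).eval 0 = 1 := fun i => by
    apply Subtype.ext
    rw [hev, hde]
    rfl
  let x' : Fin n → K' := fun i => algebraMap K K' (x i)
  have hnuq : ∀ i, (MvPolynomial.aeval q (nu i)).eval 0 = x' i := fun i => by
    apply Subtype.ext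
    rw [hev, hnu]
    rfl
  have hx'R : ∀ R : MvPolynomial (Fin n) k, MvPolynomial.aeval x' R =
      algebraMap K K' (MvPolynomial.aeval x R) := fun R =>
    MvPolynomial.aeval_algebraMap_apply K' x R
  have hid' : ∀ R : MvPolynomial (Fin n) k, MvPolynomial.aeval x' R = 0 →
      MvPolynomial.aeval (fun i => zs q (nu i) (de i)) R = 0 := by
    intro R hR
    rw [hx'R, map_eq_zero] at hR
    apply pmap_injective (γ := α) hα
    rw [map_zero, ← AlgHom.comp_apply, MvPolynomial.comp_aeval]
    have h2 : (fun i => pmap α (zs q (nu i) (de i))) = fun i => zs Q (nu i) (de i) := by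
      funext i
      rw [pmap_apply, zs_map α (hdeq i), hqf]
    rw [h2]
    exact hid R hR
  have hi0' : MvPolynomial.aeval q (nu i0) ≠
      Polynomial.C (x' i0) * MvPolynomial.aeval q (de i0) := by
    intro h
    apply hi0
    rw [← hqα, ← hqα, h, Polynomial.map_mul, Polynomial.map_C]
    rfl
  have htrans : Transcendental k (x' i0) := by
    intro halg'
    obtain ⟨c, hc⟩ := Pool.Agent.W602.GT.const_of_algebraic halg'
    have h1 := hid' (MvPolynomial.X i0 - MvPolynomial.C c) (by
      rw [map_sub, MvPolynomial.aeval_X, MvPolynomial.aeval_C, hc, sub_self])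
    rw [map_sub, MvPolynomial.aeval_X, MvPolynomial.aeval_C, sub_eq_zero] at h1
    have h2 := zs_mul (nu := nu i0) (hdeq i0)
    rw [h1, PowerSeries.algebraMap_apply] at h2
    apply hi0'
    apply Polynomial.coe_injective
    rw [Polynomial.coe_mul, Polynomial.coe_C, ← h2, ← hc]
  have halgx : Algebra.IsAlgebraic (Algebra.adjoin k (Set.range x')) K' := by
    apply Pool.Agent.W602.GT.alg_adjoin
    have h2 : ∀ y : K, algebraMap K K' y ∈ IntermediateField.adjoin k (Set.range x') := by
      intro y
      have hy : y ∈ IntermediateField.adjoin k (Set.range x) := by rw [hgen]; trivial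
      rw [IntermediateField.mem_adjoin_range_iff] at hy ⊢
      obtain ⟨f, g, hfg⟩ := hy
      refine ⟨f, g, ?_⟩
      rw [hfg, map_div₀, hx'R, hx'R]
    let ψ : K →+* IntermediateField.adjoin k (Set.range x') :=
      (algebraMap K K').codRestrict (IntermediateField.adjoin k (Set.range x')) h2
    constructor
    intro z
    obtain ⟨p, hp0, hp⟩ := (Algebra.IsAlgebraic.isAlgebraic (R := K) z)
    refine ⟨p.map ψ, (Polynomial.map_ne_zero_iff ψ.injective).2 hp0, ?_⟩
    rw [Polynomial.aeval_def, Polynomial.eval₂_map]
    exact hp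
  obtain ⟨M, iF, iA, Q', hMe, hMt, hMd, hMi, hMP, hMG⟩ := spec htr' x' halgx q nu de hdeq hnuq i0
    hi0' htrans hid' G (fun l => by
      have h1 : (d l) = ((((MvPolynomial.aeval q (G l)).coeff 0 : K') : L)) := by
        have h2 := congrArg (fun p => Polynomial.coeff p 0) (hqα (G l))
        simp only [hd l, Polynomial.coeff_C_zero, Polynomial.coeff_map] at h2
        exact h2.symm
      refine ⟨(MvPolynomial.aeval q (G l)).coeff 0, ?_, ?_⟩
      · intro h0
        rw [h0] at h1
        exact hd0 l h1
      · apply Polynomial.map_injective _ hα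
        rw [hqα, hd l, Polynomial.map_C, h1]
        rfl)
  obtain ⟨φ, hφ⟩ := exists_emb (E := RatFunc M) x hgen
    (fun i => algebraMap (Polynomial M) (RatFunc M) (MvPolynomial.aeval Q' (nu i)) /
        algebraMap (Polynomial M) (RatFunc M) (MvPolynomial.aeval Q' (de i))) (by
      intro R
      have h1 := laurent_zs Q' nu de hMd R
      have h2 : MvPolynomial.aeval x R = 0 ↔
          MvPolynomial.aeval (fun i => zs Q' (nu i) (de i)) R = 0 := by
        rw [← hMi, hx'R]
        exact (map_eq_zero (algebraMap K K')).symm
      rw [h2]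
      constructor
      · intro h3
        rw [h3, map_zero] at h1
        exact (map_eq_zero _).1 h1
      · intro h3
        rw [h3, map_zero] at h1
        exact (map_eq_zero_iff _ HahnSeries.ofPowerSeries_injective).1 h1.symm)
  refine ⟨M, iF, iA, Q', φ, hMe, hMt, hMd, hφ, fun P hP => hMP P ?_, hMG⟩
  apply Polynomial.map_injective _ hα
  rw [hqα, hP, Polynomial.map_zero]

end Pool.Agent.Q41.RC
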