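import Pool.Agent.Q41.RC.Conc

/-!
The final statements.
-/

set_option autoImplicit false

open FF MvPolynomial
open Pool.Agent.W619.PL Pool.Agent.W619.PQ Pool.Agent.W619.TW Pool.Agent.Q41.RC.Def

namespace Pool.Agent.Q41.RC

variable {r N R : ℕ} {n : Fin r → ℕ} {d : Fin N → Fin r → ℕ}
  {F : Fin N → MvPolynomial (Coord n) ℂ} {m : Fin R → ℕ} {a : Fin R → Fin N → ℕ} {K : Type}
  [Field K] [Algebra ℂ K] {x : Coord n → K} {z : Fin R → K} {S : Set (Fin N)}

/-- curves on covers which are branched along arbitrary hypersurfaces -/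
theorem final_a1 (h : IsCover d F m a x z) {D : Fin r → ℕ} {p : ℕ} {v : Fin p → Fin N → ℕ}
    (hv : IsCurveData n d m a S D v) : IsA1Uniruled ℂ K (∑ l, n l) (Boundary d F S x) := by
  rw [← overS_eq]
  exact a1_of_dat (cov_of_cover h) (trdeg_cover h)
    (⟨D, Fin p, inferInstance, v, dat_of_data hv, rfl⟩ :
      HasDat (Sigma.fst : Coord n → Fin r) d m a (· ∈ S) (∑ l, D l))

/-- the equivalences -/
theorem final_tfae (h : IsCover d F m a x z) (hF : NormalCrossings F) (S : Set (Fin N)) :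
    List.TFAE [LogKodairaNeg ℂ K (∑ l, n l) (Boundary d F S x),
      IsA1Uniruled ℂ K (∑ l, n l) (Boundary d F S x),
      ¬ IsPsef ℂ K (∑ l, n l) (Boundary d F S x), ¬ ∃ e, IsExponent d F m a S e,
      ∃ (D : Fin r → ℕ) (p : ℕ) (v : Fin p → Fin N → ℕ), IsCurveData n d m a S D v] := by
  have h1 := main_tfae (cov_of_cover h) (trdeg_cover h) (fun {_} => snc_of_nc hF) (· ∈ S)
  rw [overS_eq, hasDat_iff] at h1
  have h2 : (∃ e, IsExp (Sigma.fst : Coord n → Fin r) d m a (· ∈ S) F e) ↔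
      ∃ e, IsExponent d F m a S e := exists_congr fun e => isExp_iff
  rw [h2] at h1
  exact h1

/-- the plurigenus with an explicit index -/
theorem final_pluri (h : IsCover d F m a x z) (hF : NormalCrossings F)
    (he : ∃ e, IsExponent d F m a S e) {B E : ℕ} (hE0 : 0 < E) (hEB : E ≤ B)
    (hE : ∀ j c, m j ∣ E * a j c) (hB : ∀ c l, d c l ≤ B) {M : ℕ}
    (hM : ∀ t, 0 < t → t ≤ N.factorial * B ^ N → t ∣ M) :
    LogPluriPos ℂ K (∑ l, n l) (Boundary d F S x) M := by
  rw [← overS_eq]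
  obtain ⟨e, he⟩ := he
  refine pluri_of_exp (cov_of_cover h) (trdeg_cover h) (fun {_} => snc_of_nc hF)
    ⟨e, isExp_iff.2 he⟩ (B := B) (by omega) hB hE0 hEB hE fun t ht htB => hM t ht ?_
  rw [Fintype.card_fin] at htB
  exact htB

theorem boundary_empty : Boundary d F ∅ x = fun _ => False := by
  funext P
  apply propext
  constructor
  · rintro ⟨c, hc, -⟩
    exact hc
  · exact fun h => h.elim

theorem logNeg_false {k K : Type} [Field k] [Field K] [Algebra k K] {n : ℕ} :
    LogKodairaNeg k K n (fun _ => False) ↔ KodairaNeg k K n := by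
  constructor
  · intro h m hm ω hω hreg
    exact h m hm ω hω (fun v hv _ => hreg v hv) fun v _ hb => hb.elim
  · intro h m hm ω hω hreg _
    exact h m hm ω hω fun v hv => hreg v hv fun hb => hb

theorem a1_false {k K : Type} [Field k] [Field K] [Algebra k K] {n : ℕ} :
    IsA1Uniruled k K n (fun _ => False) ↔ IsUniruled k K n := by
  constructor
  · rintro ⟨M, i1, i2, φ, h1, h2, -⟩
    exact ⟨M, i1, i2, h1, h2, ⟨φ⟩⟩
  · rintro ⟨M, i1, i2, h1, h2, ⟨φ⟩⟩
    exact ⟨M, i1, i2, φ, h1, h2, fun _ _ _ _ _ _ h => h⟩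

end Pool.Agent.Q41.RC
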