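import Pool.Agent.Q41.RC.Data

/-!
Data with less conditions than parameters give affine lines through the generic point.
-/

set_option autoImplicit false

open FF Cardinal Polynomial
open Pool.Agent.W619.PL Pool.Agent.W619.PQ

namespace Pool.Agent.Q41.RC

variable {k K ρ σ κ J : Type} [Field k] [Field K] [Algebra k K] [Fintype ρ] [Fintype σ]
    [Fintype κ] [Fintype J] {pr : σ → ρ} {o : ρ → σ} {δ : κ → ρ → ℕ} {F : κ → MvPolynomial σ k}
    {m : J → ℕ} {a : J → κ → ℕ} {y : σ → K} {z : J → K}

omit [Fintype σ] in
theorem aeval_comp_poly {L : Type} [Field L] [Algebra k L] (q : σ → L[X]) (T : L[X])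
    (P : MvPolynomial σ k) :
    MvPolynomial.aeval (fun i => (q i).comp T) P = (MvPolynomial.aeval q P).comp T := by
  induction P using MvPolynomial.induction_on with
  | C a =>
    rw [MvPolynomial.aeval_C, MvPolynomial.aeval_C, IsScalarTower.algebraMap_apply k L L[X],
      algebraMap_eq, C_comp]
  | add p q h1 h2 => rw [map_add, map_add, add_comp, h1, h2]
  | mul_X p i h1 =>
    rw [map_mul, map_mul, mul_comp, h1, MvPolynomial.aeval_X, MvPolynomial.aeval_X]

theorem a1_of_curve [IsAlgClosed k] [CharZero k] (h : IsCov pr o δ F m a y z) {n : ℕ}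
    (htr : Algebra.trdeg k K = n) {L : Type} [Field L] [Algebra k L] [Algebra K L]
    [IsScalarTower k K L] [Algebra.IsAlgebraic K L] {I : Type} [Fintype I] (V : I → κ → ℕ)
    (q : σ → L[X]) (α : I → L) (hq0 : ∀ i, (q i).eval 0 = algebraMap K L (y i))
    (hq : ∀ c, MvPolynomial.aeval q (F c) =
      C (algebraMap K L (MvPolynomial.aeval y (F c))) * lin α (fun i => V i c))
    (i0 : σ) (hi0 : q i0 ≠ C (algebraMap K L (y i0)) * q (o (pr i0)))
    (T : L[X]) (hT0 : T.eval 0 = 0) (hT : T ≠ 0)
    (u : I → L[X]) (E : I → ℕ) (hu : ∀ i, 1 - C (α i) * T = u i ^ E i)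
    (hu0 : ∀ i, (u i).eval 0 = 1) (hE : ∀ i j, m j ∣ E i * ∑ c, a j c * V i c)
    (S : κ → Prop) (hS : ∀ i c, S c → V i c = 0) :
    IsA1Uniruled k K n (OverS pr δ F y S) := by
  classical
  have hF : ∀ c, MvPolynomial.aeval (fun i => (q i).comp T) (F c) =
      C (algebraMap K L (MvPolynomial.aeval y (F c))) * ∏ i, (u i) ^ (E i * V i c) := by
    intro c
    rw [aeval_comp_poly, hq, mul_comp, C_comp]
    congr 1
    unfold lin
    rw [Polynomial.prod_comp]
    refine Finset.prod_congr rfl fun i _ => ?_
    rw [pow_comp, sub_comp, one_comp, mul_comp, C_comp, X_comp, hu, ← pow_mul]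
  refine a1_of_poly h htr (fun i => (q i).comp T)
    (fun j => C (algebraMap K L (z j)) * ∏ i, (u i) ^ ((E i * ∑ c, a j c * V i c) / m j))
    ?_ ?_ ?_ i0 ?_ S ?_
  · intro i
    rw [eval_comp, hT0, hq0]
  · intro j
    rw [eval_mul, eval_C, eval_prod]
    simp only [eval_pow, hu0, one_pow, Finset.prod_const_one, mul_one]
  · intro j
    simp only [hF, mul_pow, Finset.prod_mul_distrib]
    congr 1
    · rw [← map_pow, ← map_pow, h.hz, map_prod, map_prod]
      refine Finset.prod_congr rfl fun c _ => ?_
      rw [map_pow, map_pow]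
    · rw [← Finset.prod_pow]
      simp only [← Finset.prod_pow, ← pow_mul]
      rw [Finset.prod_comm]
      refine Finset.prod_congr rfl fun i _ => ?_
      rw [Nat.div_mul_cancel (hE i j), Finset.prod_pow_eq_pow_sum, Finset.mul_sum]
      congr 1
      refine Finset.sum_congr rfl fun c _ => ?_
      ring
  · intro h1
    apply hi0
    have h2 : (q i0 - C (algebraMap K L (y i0)) * q (o (pr i0))).comp T = 0 := by
      rw [sub_comp, mul_comp, C_comp, h1, sub_self]
    rw [comp_eq_zero_iff] at h2
    rcases h2 with h2 | ⟨h2, h3⟩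
    · exact sub_eq_zero.1 h2
    · exfalso
      apply hT
      rw [h3, coeff_zero_eq_eval_zero, hT0, C_0]
  · intro c hc
    rw [hF]
    simp only [hS _ c hc, mul_zero, pow_zero, Finset.prod_const_one, mul_one]

/-- a factor without hypersurfaces -/
theorem a1_of_free [IsAlgClosed k] [CharZero k] (h : IsCov pr o δ F m a y z) {n : ℕ}
    (htr : Algebra.trdeg k K = n) (S : κ → Prop) (l : ρ) (hl : ∀ c, δ c l = 0) :
    IsA1Uniruled k K n (OverS pr δ F y S) := by
  classical
  obtain ⟨i0, hi0, hi1⟩ := h.hdim l
  let L := AlgebraicClosure K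
  let q : σ → L[X] := fun i => if i = i0 then C (algebraMap K L (y i)) + X else
    C (algebraMap K L (y i))
  have hF : ∀ c, MvPolynomial.aeval q (F c) =
      C (algebraMap K L (MvPolynomial.aeval y (F c))) := by
    intro c
    have h1 : MvPolynomial.aeval q (F c) =
        MvPolynomial.aeval (fun i => (C (algebraMap K L (y i)) : L[X])) (F c) := by
      rw [MvPolynomial.aeval_def, MvPolynomial.aeval_def, MvPolynomial.eval₂_eq',
        MvPolynomial.eval₂_eq']
      refine Finset.sum_congr rfl fun s hs => ?_
      congr 1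
      refine Finset.prod_congr rfl fun i _ => ?_
      by_cases hi : i = i0
      · have h2 := h.hF c s hs l
        rw [hl c] at h2
        have h3 := (Finset.sum_eq_zero_iff.1 h2) i (Finset.mem_univ i)
        rw [if_pos (by rw [hi, hi0])] at h3
        rw [h3, pow_zero, pow_zero]
      · simp only [q, if_neg hi]
    rw [h1]
    have h4 : MvPolynomial.aeval (fun i => algebraMap K L (y i)) (F c) =
        algebraMap K L (MvPolynomial.aeval y (F c)) :=
      MvPolynomial.aeval_algebraMap_apply (R := k) L y (F c)
    rw [← h4]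
    exact MvPolynomial.aeval_algebraMap_apply (R := k) L[X] (fun i => algebraMap K L (y i)) (F c)
  refine a1_of_poly h htr q (fun j => C (algebraMap K L (z j))) ?_ ?_ ?_ i0 ?_ S fun c _ => hF c
  · intro i
    simp only [q]
    split_ifs <;> simp
  · intro j
    exact eval_C
  · intro j
    simp only [hF]
    rw [← map_pow, ← map_pow, h.hz, map_prod, map_prod]
    refine Finset.prod_congr rfl fun c _ => ?_
    rw [map_pow, map_pow]
  · have h1 : o (pr i0) ≠ i0 := by
      rw [hi0]
      exact Ne.symm hi1
    simp only [q, if_neg h1, if_true, h.hy, map_one, mul_one]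
    intro h2
    have h3 := congrArg (Polynomial.eval 1) h2
    simp at h3

/-- **Data give affine lines.** -/
theorem a1_of_dat_rel [IsAlgClosed k] [CharZero k] (h : IsCov pr o δ F m a y z) {n : ℕ}
    (htr : Algebra.trdeg k K = n) {S : κ → Prop} (hrel : ∀ c, ¬ S c → ∃ j, ¬ m j ∣ a j c)
    {N : ℕ} (hN : HasDat pr δ m a S N) :
    IsA1Uniruled k K n (OverS pr δ F y S) := by
  classical
  -- minimal data
  have hex : ∃ N, HasDat pr δ m a S N := ⟨N, hN⟩
  obtain ⟨D, I, hI, V, hdat, hDN⟩ := Nat.find_spec hex
  have hmin : ∀ N, HasDat pr δ m a S N → ∑ l, D l ≤ N := by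
    intro N' hN'
    rw [hDN]
    exact Nat.find_min' hex hN'
  by_cases hfree : ∃ l, ∀ c, δ c l = 0
  · obtain ⟨l, hl⟩ := hfree
    exact a1_of_free h htr S l hl
  have hC := fun G e he heD hG => hdat.minimal hmin G e he heD hG
  let L := AlgebraicClosure K
  let x : σ → L := fun i => algebraMap K L (y i)
  have hx : ∀ c, MvPolynomial.aeval x (F c) = algebraMap K L (MvPolynomial.aeval y (F c)) :=
    fun c => MvPolynomial.aeval_algebraMap_apply (R := k) L y (F c)
  have hx0 : ∀ c, MvPolynomial.aeval x (F c) ≠ 0 := by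
    intro c
    rw [hx, Ne, map_eq_zero_iff _ (algebraMap K L).injective]
    exact h.hFy c
  -- the trivial solutions
  have key : ∀ (V' : I → κ → ℕ), (∀ c, ∑ i, V' i c ≤ ∑ l, D l * δ c l) →
      (∀ (e : ρ → ℕ) (G : Finset I), (∀ l, e l ≤ D l) →
        (∀ c, ∑ i ∈ G, V' i c = ∑ l, e l * δ c l) → e = 0 ∧ G = ∅) →
      ∃ (q : σ → L[X]) (α : I → L), (∀ i, (q i).eval 0 = x i) ∧
        (∃ i0, q i0 ≠ C (x i0) * q (o (pr i0))) ∧
        ∀ c, MvPolynomial.aeval q (F c) =
          C (algebraMap K L (MvPolynomial.aeval y (F c))) * lin α (fun i => V' i c) := by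
    intro V' hV' hG
    obtain ⟨q, α, hdeg, hq0, hnt, hq⟩ := exists_curve h.hF x D V' hV' hdat.hlt
    simp only [hx] at hq
    refine ⟨q, α, hq0, ?_, hq⟩
    by_contra hcon
    push Not at hcon
    -- the common factors
    let g : ρ → L[X] := fun l => q (o l)
    have hg0 : ∀ l, (g l).eval 0 = 1 := by
      intro l
      change (q (o l)).eval 0 = 1
      rw [hq0]
      change algebraMap K L (y (o l)) = 1
      rw [h.hy, map_one]
    have hgne : ∀ l, g l ≠ 0 := by
      intro l h0
      have h1 := hg0 l
      rw [h0, eval_zero] at h1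
      exact zero_ne_one h1
    have hgd : ∀ l, (g l).natDegree ≤ D l := by
      intro l
      have h1 := hdeg (o l)
      rw [h.ho] at h1
      exact h1
    have hprod : ∀ c, ∏ l, g l ^ δ c l = lin α (fun i => V' i c) := by
      intro c
      have h1 : q = fun i => g (pr i) * C (x i) := by
        funext i
        rw [hcon i, mul_comm]
      have h2 := (h.hF c).scale g (fun i => (C (x i) : L[X]))
      rw [← h1, hq] at h2
      have h3 := MvPolynomial.aeval_algebraMap_apply (R := k) L[X] x (F c)
      have h4 : MvPolynomial.aeval (fun i => (C (x i) : L[X])) (F c) =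
          C (algebraMap K L (MvPolynomial.aeval y (F c))) := by
        rw [← hx c]
        exact h3
      rw [h4, mul_comm (∏ l, g l ^ δ c l)] at h2
      have h5 : (C (algebraMap K L (MvPolynomial.aeval y (F c))) : L[X]) ≠ 0 := by
        rw [Ne, C_eq_zero, ← hx c]
        exact hx0 c
      exact (mul_left_cancel₀ h5 h2).symm
    have hroot : ∀ β : L, β ≠ 0 → (∀ l, (g l).rootMultiplicity β⁻¹ = 0) ∧ ∀ i, α i ≠ β := by
      intro β hβ
      have h1 := hG (fun l => (g l).rootMultiplicity β⁻¹) (Finset.univ.filter fun i => α i = β)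
        (fun l => ?_) fun c => ?_
      · refine ⟨fun l => congrFun h1.1 l, fun i hi => ?_⟩
        have h2 := h1.2
        have h3 : i ∈ Finset.univ.filter fun i => α i = β :=
          Finset.mem_filter.2 ⟨Finset.mem_univ i, hi⟩
        rw [h2] at h3
        exact absurd h3 (Finset.notMem_empty i)
      · refine le_trans ?_ (hgd l)
        change (g l).rootMultiplicity β⁻¹ ≤ _
        rw [← Polynomial.count_roots]
        exact (Multiset.count_le_card _ _).trans (Polynomial.card_roots' _)
      · have h2 := congrArg (Polynomial.rootMultiplicity β⁻¹) (hprod c)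
        unfold lin at h2
        rw [rootMultiplicity_prod_pow _ _ _ _ fun l _ => hgne l,
          rootMultiplicity_prod_pow _ _ _ _ fun i _ => one_sub_ne _] at h2
        simp only [rootMultiplicity_lin _ _ hβ] at h2
        rw [Finset.sum_filter]
        have h3 : ∑ i, (if α i = β then V' i c else 0) = ∑ i, V' i c * (if α i = β then 1 else 0) :=
          Finset.sum_congr rfl fun i _ => by split_ifs <;> simp
        rw [h3, ← h2]
        exact Finset.sum_congr rfl fun l _ => mul_comm _ _
    have hα : ∀ j, α j = 0 := by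
      intro j
      by_contra h1
      exact (hroot (α j) h1).2 j rfl
    have hg1 : ∀ l, g l = 1 := by
      intro l
      have h1 : (g l).natDegree = 0 := by
        by_contra h2
        obtain ⟨b, hb⟩ := IsAlgClosed.exists_root (g l) (by
          intro h3
          apply h2
          exact natDegree_eq_zero_iff_degree_le_zero.2 h3.le)
        have hb0 : b ≠ 0 := by
          intro h3
          rw [h3, IsRoot, hg0] at hb
          exact one_ne_zero hb
        have h3 := (hroot b⁻¹ (inv_ne_zero hb0)).1 l
        rw [inv_inv] at h3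
        have h4 := (rootMultiplicity_pos (hgne l)).2 hb
        omega
      rw [eq_C_of_natDegree_eq_zero h1, coeff_zero_eq_eval_zero, hg0, C_1]
    rcases hnt with ⟨i, hi⟩ | ⟨j, hj⟩
    · apply hi
      rw [hcon i]
      change C (x i) * g (pr i) = _
      rw [hg1, mul_one]
    · exact hj (hα j)
  rcases isEmpty_or_nonempty I with hemp | ⟨⟨i1⟩⟩
  · obtain ⟨q, α, hq0, ⟨i0, hi0⟩, hq⟩ := key V hdat.hle (by
      intro e G heD hG
      refine ⟨?_, Finset.eq_empty_of_isEmpty G⟩
      by_contra he
      apply hfree
      obtain ⟨l, hl⟩ := Function.ne_iff.1 he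
      refine ⟨l, fun c => ?_⟩
      have h1 := hG c
      rw [Finset.eq_empty_of_isEmpty G, Finset.sum_empty] at h1
      have h2 := (Finset.sum_eq_zero_iff.1 h1.symm) l (Finset.mem_univ l)
      rcases Nat.mul_eq_zero.1 h2 with h3 | h3
      · exact absurd h3 hl
      · exact h3)
    exact a1_of_curve h htr V q α hq0 hq i0 hi0 X (by simp) X_ne_zero (fun i => (IsEmpty.false i).elim)
      (fun i => (IsEmpty.false i).elim) (fun i => (IsEmpty.false i).elim)
      (fun i => (IsEmpty.false i).elim) (fun i => (IsEmpty.false i).elim) S hdat.hS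
  · obtain ⟨c1, hc1⟩ := Function.ne_iff.1 (hdat.hV i1)
    have hc1S : ¬ S c1 := fun h1 => hc1 (hdat.hS i1 c1 h1)
    obtain ⟨j1, hj1⟩ := hrel c1 hc1S
    let V' : I → κ → ℕ := fun i c => if i = i1 ∧ c = c1 then V i c - 1 else V i c
    have hV'le : ∀ i c, V' i c ≤ V i c := by
      intro i c
      simp only [V']
      split_ifs <;> omega
    have hV'i : ∀ i, i ≠ i1 → ∀ c, V' i c = V i c := by
      intro i hi c
      simp only [V']
      rw [if_neg (fun h1 => hi h1.1)]
    have hV'1 : ∀ c, V i1 c = V' i1 c + if c = c1 then 1 else 0 := by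
      intro c
      simp only [V', true_and]
      split_ifs with h1
      · rw [h1]
        have : V i1 c1 ≠ 0 := hc1
        omega
      · omega
    obtain ⟨q, α, hq0, ⟨i0, hi0⟩, hq⟩ := key V' (fun c =>
      (Finset.sum_le_sum fun i _ => hV'le i c).trans (hdat.hle c)) (by
      intro e G heD hG
      by_cases hiG : i1 ∈ G
      · exfalso
        apply hj1
        have h1 : m j1 ∣ ∑ c, a j1 c * ∑ i ∈ G, V' i c := by
          simp only [hG, Finset.mul_sum]
          rw [Finset.sum_comm]
          refine Finset.dvd_sum fun l _ => ?_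
          have h2 : ∑ c, a j1 c * (e l * δ c l) = e l * ∑ c, a j1 c * δ c l := by
            rw [Finset.mul_sum]
            exact Finset.sum_congr rfl fun c _ => by ring
          rw [h2]
          exact (h.hdiv j1 l).mul_left _
        have h2 : m j1 ∣ ∑ c, a j1 c * ∑ i ∈ G, V i c := by
          simp only [Finset.mul_sum]
          rw [Finset.sum_comm]
          exact Finset.dvd_sum fun i _ => hdat.hA i j1
        have h3 : ∀ c, ∑ i ∈ G, V i c = ∑ i ∈ G, V' i c + if c = c1 then 1 else 0 := by
          intro c
          rw [← Finset.sum_erase_add _ _ hiG, ← Finset.sum_erase_add _ _ hiG, hV'1 c, add_assoc]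
          congr 1
          exact Finset.sum_congr rfl fun i hi => (hV'i i (Finset.ne_of_mem_erase hi) c).symm
        simp only [h3, mul_add, Finset.sum_add_distrib] at h2
        have h4 : ∑ c, a j1 c * (if c = c1 then 1 else 0) = a j1 c1 := by
          simp
        rw [h4] at h2
        exact (Nat.dvd_add_right h1).1 h2
      · have hGV : ∀ c, ∑ i ∈ G, V i c = ∑ l, e l * δ c l := by
          intro c
          rw [← hG c]
          exact Finset.sum_congr rfl fun i hi =>
            (hV'i i (fun h1 => hiG (h1 ▸ hi)) c).symm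
        have he : e = 0 := by
          by_contra he
          have h1 := hC G e he heD hGV
          subst h1
          have h2 := hdat.hle c1
          rw [← hGV c1, ← Finset.sum_add_sum_compl G] at h2
          have h3 : V i1 c1 ≤ ∑ i ∈ Gᶜ, V i c1 :=
            Finset.single_le_sum (f := fun i => V i c1) (fun _ _ => Nat.zero_le _)
              (Finset.mem_compl.2 hiG)
          have h4 : V i1 c1 ≠ 0 := hc1
          omega
        refine ⟨he, Finset.eq_empty_of_forall_notMem fun i hi => ?_⟩
        obtain ⟨c, hc⟩ := Function.ne_iff.1 (hdat.hV i)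
        have h1 := hGV c
        rw [he] at h1
        simp only [Pi.zero_apply, zero_mul, Finset.sum_const_zero] at h1
        exact hc (Finset.sum_eq_zero_iff.1 h1 i hi))
    have hV'S : ∀ i c, S c → V' i c = 0 := fun i c hc =>
      Nat.le_zero.1 ((hV'le i c).trans (hdat.hS i c hc).le)
    have hdiv' : ∀ i, i ≠ i1 → ∀ j, m j ∣ ∑ c, a j c * V' i c := by
      intro i hi j
      simp only [hV'i i hi]
      exact hdat.hA i j
    by_cases h0 : α i1 = 0
    · refine a1_of_curve h htr V' q α hq0 hq i0 hi0 X (by simp) X_ne_zero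
        (fun i => if i = i1 then 1 else 1 - C (α i) * X)
        (fun i => if i = i1 then ∏ j, m j else 1) ?_ ?_ ?_ S hV'S
      · intro i
        by_cases hi : i = i1
        · simp [hi, h0]
        · simp [hi]
      · intro i
        by_cases hi : i = i1 <;> simp [hi]
      · intro i j
        by_cases hi : i = i1
        · simp only [if_pos hi]
          exact (Finset.dvd_prod_of_mem m (Finset.mem_univ j)).mul_right _
        · simp only [if_neg hi, one_mul]
          exact hdiv' i hi j
    · have hM : 0 < ∏ j, m j := Finset.prod_pos fun j _ => h.hm j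
      have hT1 : 1 - C (α i1) * (C (α i1)⁻¹ * (1 - (1 - X) ^ (∏ j, m j))) =
          ((1 - X : L[X])) ^ (∏ j, m j) := by
        rw [← mul_assoc, ← C_mul, mul_inv_cancel₀ h0, C_1, one_mul, sub_sub_cancel]
      refine a1_of_curve h htr V' q α hq0 hq i0 hi0
        (C (α i1)⁻¹ * (1 - (1 - X) ^ (∏ j, m j))) (by simp) ?_
        (fun i => if i = i1 then 1 - X else
          1 - C (α i) * (C (α i1)⁻¹ * (1 - (1 - X) ^ (∏ j, m j))))
        (fun i => if i = i1 then ∏ j, m j else 1) ?_ ?_ ?_ S hV'S
      · intro h1
        have h2 := congrArg (Polynomial.eval 1) h1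
        simp [hM.ne', h0] at h2
      · intro i
        by_cases hi : i = i1
        · subst hi
          simp only [if_true]
          exact hT1
        · simp [hi]
      · intro i
        by_cases hi : i = i1 <;> simp [hi]
      · intro i j
        by_cases hi : i = i1
        · simp only [if_pos hi]
          exact (Finset.dvd_prod_of_mem m (Finset.mem_univ j)).mul_right _
        · simp only [if_neg hi, one_mul]
          exact hdiv' i hi j

end Pool.Agent.Q41.RC
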