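import Pool.Agent.Q41.RC.Nz
import Pool.Agent.W602.GT.Circ
import Pool.Agent.W602.GT.NG

/-!
The canonical form of a product of projective spaces, and its order at a place.
-/

set_option autoImplicit false
set_option linter.unusedSectionVars false

open FF MvPolynomial Pool.Agent.W603.LV Pool.Agent.W602.GT

namespace Pool.Agent.Q41.RC

section cal

variable {k ρ σ κ : Type} [Field k] [Fintype ρ] [Fintype σ]

/-- the Euler relations -/
theorem MH.euler {pr : σ → ρ} {δ : ρ → ℕ} {F : MvPolynomial σ k} (h : MH pr δ F) {K : Type}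
    [Field K] [Algebra k K] (u : σ → K) (l : ρ) [DecidableEq ρ] :
    ∑ i, (if pr i = l then 1 else 0) * u i * aeval u (pderiv i F) = (δ l : K) * aeval u F := by
  classical
  have h1 : IsWeightedHomogeneous (fun i => if pr i = l then 1 else 0) F (δ l) := by
    intro s hs
    have h2 := h s (mem_support_iff.2 hs) l
    rw [Finsupp.weight_apply, Finsupp.sum_fintype _ _ (fun i => by simp), ← h2]
    refine Finset.sum_congr rfl fun i _ => ?_
    split_ifs <;> simp_all
  have h2 := congrArg (aeval u) h1.sum_weight_X_mul_pderiv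
  rw [map_sum, map_nsmul, nsmul_eq_mul] at h2
  rw [← h2]
  refine Finset.sum_congr rfl fun i _ => ?_
  rw [map_nsmul, map_mul, aeval_X, nsmul_eq_mul]
  split_ifs <;> simp

theorem chainK {K : Type} [Field K] [Algebra k K] (D : Derivation k K K) (Z : σ → K)
    (P : MvPolynomial σ k) : D (aeval Z P) = ∑ b, aeval Z (pderiv b P) * D (Z b) := by
  classical
  induction P using MvPolynomial.induction_on with
  | C a => simp
  | add p q hp hq =>
    simp only [map_add, add_mul, Finset.sum_add_distrib, hp, hq]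
  | mul_X p i hp =>
    have h1 : ∀ b, aeval Z (pderiv b (p * X i)) * D (Z b) =
        (if b = i then aeval Z p * D (Z b) else 0) + Z i * (aeval Z (pderiv b p) * D (Z b)) := by
      intro b
      rw [(pderiv b).leibniz, smul_eq_mul, smul_eq_mul, map_add, map_mul, map_mul, aeval_X,
        pderiv_X, add_mul]
      congr 1
      · by_cases hb : b = i
        · subst hb
          simp
        · rw [if_neg hb, Pi.single_eq_of_ne (Ne.symm hb)]
          simp
      · ring
    rw [map_mul, aeval_X, D.leibniz, hp, Finset.sum_congr rfl fun b _ => h1 b,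
      Finset.sum_add_distrib, Finset.sum_ite_eq' Finset.univ i, if_pos (Finset.mem_univ _),
      ← Finset.mul_sum, smul_eq_mul, smul_eq_mul]

theorem dsum {K : Type} [Field K] [Algebra k K] {ι : Type} (t : Finset ι) (c : ι → K)
    (E : ι → Derivation k K K) (z : K) : (∑ l ∈ t, c l • E l) z = ∑ l ∈ t, c l * E l z := by
  classical
  induction t using Finset.induction_on with
  | empty => simp
  | insert l t hl ih =>
    rw [Finset.sum_insert hl, Finset.sum_insert hl, Derivation.add_apply, ih]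
    rfl

end cal

variable {k K ρ σ κ : Type} [Field k] [Field K] [Algebra k K] [Fintype ρ] [DecidableEq ρ]
  [Fintype σ] [DecidableEq σ] [Fintype κ] {n : ℕ}

/-- the matrix with the Euler rows and the derivatives -/
noncomputable def wmK (ε : ρ ⊕ Fin n ≃ σ) (D : Fin n → Derivation k K K) (d : σ → ρ → ℕ)
    (s : σ → K) : Matrix (ρ ⊕ Fin n) (ρ ⊕ Fin n) K :=
  Matrix.of fun r b => Sum.elim (fun l => (d (ε b) l : K) * s (ε b)) (fun j => D j (s (ε b))) r

/-- the logarithmic matrix -/
noncomputable def lmK (ε : ρ ⊕ Fin n ≃ σ) (D : Fin n → Derivation k K K) (d : σ → ρ → ℕ)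
    (s : σ → K) : Matrix (ρ ⊕ Fin n) (ρ ⊕ Fin n) K :=
  Matrix.of fun r b => Sum.elim (fun l => (d (ε b) l : K)) (fun j => D j (s (ε b)) / s (ε b)) r

theorem wm_lmK (ε : ρ ⊕ Fin n ≃ σ) (D : Fin n → Derivation k K K) (d : σ → ρ → ℕ) {s : σ → K}
    (hs : ∀ i, s i ≠ 0) : (wmK ε D d s).det = (∏ i, s i) * (lmK ε D d s).det := by
  rw [← Equiv.prod_comp ε, ← Matrix.det_mul_row]
  congr 1
  ext r b
  unfold wmK lmK
  rcases r with l | j
  · simp only [Matrix.of_apply, Sum.elim_inl]
    ring
  · simp only [Matrix.of_apply, Sum.elim_inr]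
    rw [mul_div_cancel₀ _ (hs _)]

/-- the degrees of the coordinates -/
def ud (pr : σ → ρ) (i : σ) (l : ρ) : ℕ := if pr i = l then 1 else 0

/-- the canonical form -/
noncomputable def bwK (ε : ρ ⊕ Fin n ≃ σ) (pr : σ → ρ) (D : Fin n → Derivation k K K) (y : σ → K) :
    K := (wmK ε D (ud pr) y).det

theorem bwK_lin (ε : ρ ⊕ Fin n ≃ σ) (pr : σ → ρ) (A : Matrix (Fin n) (Fin n) K)
    (D : Fin n → Derivation k K K) (y : σ → K) :
    bwK ε pr (fun i => ∑ j, A i j • D j) y = A.det * bwK ε pr D y := by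
  have h1 : wmK ε (fun i => ∑ j, A i j • D j) (ud pr) y =
      Matrix.fromBlocks 1 0 0 A * wmK ε D (ud pr) y := by
    ext r b
    rw [Matrix.mul_apply, Fintype.sum_sum_type]
    unfold wmK
    rcases r with l | j
    · simp only [Matrix.of_apply, Sum.elim_inl, Sum.elim_inr, Matrix.fromBlocks_apply₁₁,
        Matrix.fromBlocks_apply₁₂, Matrix.zero_apply, zero_mul, Finset.sum_const_zero, add_zero,
        Matrix.one_apply, ite_mul, one_mul]
      rw [Finset.sum_ite_eq Finset.univ l, if_pos (Finset.mem_univ _)]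
    · simp only [Matrix.of_apply, Sum.elim_inl, Sum.elim_inr, Matrix.fromBlocks_apply₂₁,
        Matrix.fromBlocks_apply₂₂, Matrix.zero_apply, zero_mul, Finset.sum_const_zero, zero_add]
      exact dsum _ _ _ _
  unfold bwK
  rw [h1, Matrix.det_mul, Matrix.det_fromBlocks_zero₁₂, Matrix.det_one, one_mul]

theorem bwK_scale (ε : ρ ⊕ Fin n ≃ σ) (pr : σ → ρ) (D : Fin n → Derivation k K K) (g : ρ → K)
    (hg : ∀ l, g l ≠ 0) (u : σ → K) :
    bwK ε pr D (fun i => g (pr i) * u i) = (∏ i, g (pr i)) * bwK ε pr D u := by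
  have h1 : wmK ε D (ud pr) (fun i => g (pr i) * u i) =
      Matrix.of fun r b => g (pr (ε b)) *
        ((Matrix.fromBlocks 1 0 (Matrix.of fun j l => D j (g l) / g l) 1 :
          Matrix (ρ ⊕ Fin n) (ρ ⊕ Fin n) K) * wmK ε D (ud pr) u) r b := by
    ext r b
    rw [Matrix.of_apply, Matrix.mul_apply, Fintype.sum_sum_type]
    unfold wmK
    rcases r with l | j
    · simp only [Matrix.of_apply, Sum.elim_inl, Sum.elim_inr, Matrix.fromBlocks_apply₁₁,
        Matrix.fromBlocks_apply₁₂, Matrix.zero_apply, zero_mul, Finset.sum_const_zero, add_zero,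
        Matrix.one_apply, ite_mul, one_mul]
      rw [Finset.sum_ite_eq Finset.univ l, if_pos (Finset.mem_univ _)]
      ring
    · simp only [Matrix.of_apply, Sum.elim_inl, Sum.elim_inr, Matrix.fromBlocks_apply₂₁,
        Matrix.fromBlocks_apply₂₂, Matrix.one_apply, ite_mul, one_mul, zero_mul]
      rw [Finset.sum_ite_eq Finset.univ j, if_pos (Finset.mem_univ _), Finset.sum_eq_single (pr (ε b))]
      · unfold ud
        rw [if_pos rfl, (D j).leibniz, smul_eq_mul, smul_eq_mul, Nat.cast_one, one_mul]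
        have := hg (pr (ε b))
        field_simp
        ring
      · intro l _ hl
        unfold ud
        rw [if_neg (Ne.symm hl), Nat.cast_zero, zero_mul, mul_zero]
      · intro h
        exact absurd (Finset.mem_univ _) h
  unfold bwK
  rw [h1, Matrix.det_mul_row, Matrix.det_mul, Matrix.det_fromBlocks_zero₁₂, Matrix.det_one,
    Matrix.det_one, one_mul, one_mul]
  congr 1
  exact Equiv.prod_comp ε fun i => g (pr i)

/-- the new coordinates -/
noncomputable def selK (F : κ → MvPolynomial σ k) (c : σ → Option κ) (u : σ → K) (b : σ) : K :=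
  (c b).elim (u b) fun e => aeval u (F e)

/-- their degrees -/
def seldK (pr : σ → ρ) (δ : κ → ρ → ℕ) (c : σ → Option κ) (b : σ) (l : ρ) : ℕ :=
  (c b).elim (ud pr b l) fun e => δ e l

variable {F : κ → MvPolynomial σ k} {δ : κ → ρ → ℕ} {pr : σ → ρ}

/-- **The change of the coordinates.** -/
theorem bw_selK (ε : ρ ⊕ Fin n ≃ σ) (hh : ∀ c, MH pr (δ c) (F c))
    (D : Fin n → Derivation k K K) (u : σ → K) (c : σ → Option κ) :
    bwK ε pr D u * aeval u (colK (grad F) c).det = (wmK ε D (seldK pr δ c) (selK F c u)).det := by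
  have h0 : aeval u (colK (grad F) c).det = (colK (fun i l => aeval u (grad F i l)) c).det :=
    map_colK (aeval u : MvPolynomial σ k →ₐ[k] K).toRingHom (grad F) c
  unfold bwK
  rw [h0, ← Matrix.det_submatrix_equiv_self ε (colK (fun i l => aeval u (grad F i l)) c),
    ← Matrix.det_mul]
  congr 1
  ext r b
  rw [Matrix.mul_apply]
  have h1 : ∀ f : σ → K, ∑ x : ρ ⊕ Fin n, f (ε x) = ∑ i, f i := fun f => Equiv.sum_comp ε f
  rcases hc : c (ε b) with _ | e
  · have h2 : ∀ i, colK (fun i l => aeval u (grad F i l)) c i (ε b) =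
        if i = ε b then (1 : K) else 0 := by
      intro i
      unfold colK
      rw [Matrix.of_apply, hc]
      rfl
    rcases r with l | j
    · unfold wmK seldK selK
      simp only [Matrix.of_apply, Sum.elim_inl, Matrix.submatrix_apply, h2, hc, Option.elim_none]
      rw [h1 fun i => (ud pr i l : K) * u i * if i = ε b then 1 else 0]
      simp
    · unfold wmK seldK selK
      simp only [Matrix.of_apply, Sum.elim_inr, Matrix.submatrix_apply, h2, hc, Option.elim_none]
      rw [h1 fun i => D j (u i) * if i = ε b then 1 else 0]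
      simp
  · have h2 : ∀ i, colK (fun i l => aeval u (grad F i l)) c i (ε b) =
        aeval u (pderiv i (F e)) := by
      intro i
      unfold colK
      rw [Matrix.of_apply, hc]
      rfl
    rcases r with l | j
    · unfold wmK seldK selK
      simp only [Matrix.of_apply, Sum.elim_inl, Matrix.submatrix_apply, h2, hc, Option.elim_some]
      rw [h1 fun i => (ud pr i l : K) * u i * aeval u (pderiv i (F e)), ← (hh e).euler u l]
      refine Finset.sum_congr rfl fun i _ => ?_
      unfold ud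
      split_ifs <;> simp
    · unfold wmK seldK selK
      simp only [Matrix.of_apply, Sum.elim_inr, Matrix.submatrix_apply, h2, hc, Option.elim_some]
      rw [h1 fun i => D j (u i) * aeval u (pderiv i (F e)), chainK]
      exact Finset.sum_congr rfl fun i _ => mul_comm _ _

/-- the data at a place -/
structure DatK (P : Place k K) (pr : σ → ρ) (F : κ → MvPolynomial σ k) (δ : κ → ρ → ℕ) (y : σ → K)
    (α : ρ → ℤ) (v : κ → ℕ) : Prop where
  hy : ∀ i, y i ≠ 0
  ha1 : ∀ i, α (pr i) ≤ P.ord (y i)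
  ha2 : ∀ l, ∃ i, pr i = l ∧ P.ord (y i) = α l
  hF : ∀ c, aeval y (F c) ≠ 0
  hv : ∀ c, P.ord (aeval y (F c)) = ∑ l, (δ c l : ℤ) * α l + v c

/-- the coordinates with minimal order zero -/
theorem DatK.norm {P : Place k K} (hh : ∀ c, MH pr (δ c) (F c)) {y : σ → K} {α : ρ → ℤ}
    {v : κ → ℕ} (h : DatK P pr F δ y α v) :
    ∃ (j : ρ → σ) (u : σ → K), (∀ l, pr (j l) = l) ∧ (∀ l, P.ord (y (j l)) = α l) ∧
      (∀ i, y i = y (j (pr i)) * u i) ∧ (∀ i, u i ≠ 0) ∧ (∀ l, u (j l) = 1) ∧
      (∀ i, P.Reg (u i)) ∧ (∀ c, aeval u (F c) ≠ 0) ∧ ∀ c, P.ord (aeval u (F c)) = v c := by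
  choose j hj1 hj2 using h.ha2
  have hyu : ∀ i, y i = y (j (pr i)) * (y i / y (j (pr i))) := fun i => by
    rw [mul_div_cancel₀ _ (h.hy _)]
  have hFu : ∀ c, aeval y (F c) =
      (∏ l, y (j l) ^ δ c l) * aeval (fun i => y i / y (j (pr i))) (F c) := by
    intro c
    rw [← (hh c).scale (fun l => y (j l)) fun i => y i / y (j (pr i))]
    congr 2
    funext i
    exact hyu i
  have hne : ∀ c, aeval (fun i => y i / y (j (pr i))) (F c) ≠ 0 := by
    intro c h0
    apply h.hF c
    rw [hFu, h0, mul_zero]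
  refine ⟨j, fun i => y i / y (j (pr i)), hj1, hj2, hyu, fun i => div_ne_zero (h.hy _) (h.hy _),
    fun l => ?_, fun i => ?_, hne, fun c => ?_⟩
  · change y (j l) / y (j (pr (j l))) = 1
    rw [hj1, div_self (h.hy _)]
  · right
    change 0 ≤ P.ord (y i / y (j (pr i)))
    rw [P.ord_div (h.hy i) (h.hy _), hj2]
    linarith [h.ha1 i]
  · have h1 := h.hv c
    rw [hFu, P.ord_mul (Finset.prod_ne_zero_iff.2 fun l _ => pow_ne_zero _ (h.hy _)) (hne c),
      ord_prod' P Finset.univ _ fun l _ => pow_ne_zero _ (h.hy _)] at h1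
    have h2 : ∑ l, P.ord (y (j l) ^ δ c l) = ∑ l, (δ c l : ℤ) * α l :=
      Finset.sum_congr rfl fun l _ => by rw [P.ord_pow, hj2]
    rw [h2] at h1
    linarith

theorem bw_norm {P : Place k K} (ε : ρ ⊕ Fin n ≃ σ) {y : σ → K} {α : ρ → ℤ}
    (hy : ∀ i, y i ≠ 0) {j : ρ → σ} {u : σ → K} (hj : ∀ l, P.ord (y (j l)) = α l)
    (hyu : ∀ i, y i = y (j (pr i)) * u i) (D : Fin n → Derivation k K K) {μ : ℤ}
    (h : Ge P μ (bwK ε pr D u)) : Ge P (∑ i, α (pr i) + μ) (bwK ε pr D y) := by
  have h1 : bwK ε pr D y = (∏ i, y (j (pr i))) * bwK ε pr D u := by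
    rw [← bwK_scale ε pr D (fun l => y (j l)) (fun l => hy _) u]
    congr 1
    funext i
    exact hyu i
  rw [h1]
  have h2 := (ge_ord P (∏ i, y (j (pr i)))).mul h
  rw [ord_prod' P Finset.univ _ fun i _ => hy _] at h2
  simp only [hj] at h2
  exact h2

/-- **The order on regular vector fields.** -/
theorem bw_regK {P : Place k K} (ε : ρ ⊕ Fin n ≃ σ) (hh : ∀ c, MH pr (δ c) (F c)) {y : σ → K}
    {α : ρ → ℤ} {v : κ → ℕ} (h : DatK P pr F δ y α v) {D : Fin n → Derivation k K K}
    (hD : ∀ l, DerReg P (D l)) : Ge P (∑ i, α (pr i)) (bwK ε pr D y) := by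
  obtain ⟨j, u, hj1, hj2, hyu, hu0, hu1, hureg, -, -⟩ := h.norm hh
  have h1 : Ge P 0 (bwK ε pr D u) := by
    refine Pool.Agent.W619.PQ.ge_det P _ fun r b => ?_
    unfold wmK
    rcases r with l | i
    · rw [Matrix.of_apply, Sum.elim_inl]
      have h2 := (Ge.natCast (P := P) (ud pr (ε b) l)).mul (hureg (ε b))
      simpa using h2
    · rw [Matrix.of_apply, Sum.elim_inr]
      exact hD i _ (hureg _)
  have h2 := bw_norm ε h.hy hj2 hyu D h1
  simpa using h2

/-- **The order on logarithmic vector fields.** -/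
theorem bw_logK [IsAlgClosed k] {P : Place k K} (ε : ρ ⊕ Fin n ≃ σ) (hS : SNC pr F)
    (hh : ∀ c, MH pr (δ c) (F c)) {y : σ → K} {α : ρ → ℤ} {v : κ → ℕ}
    (h : DatK P pr F δ y α v) {D : Fin n → Derivation k K K} (hD : ∀ l z, P.Reg (D l z / z)) :
    Ge P (∑ i, α (pr i) + ∑ c, (v c : ℤ)) (bwK ε pr D y) := by
  classical
  obtain ⟨j, u, hj1, hj2, hyu, hu0, hu1, hureg, hFu, hFv⟩ := h.norm hh
  obtain ⟨J, hJ⟩ : ∃ J : Finset κ, J = Finset.univ.filter fun e => v e ≠ 0 := ⟨_, rfl⟩
  obtain ⟨c, hc, hc0, hc1⟩ := exists_unit_selK P hS hureg hj1 hu1 J fun e he => by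
    right
    rw [hFv]
    rw [hJ, Finset.mem_filter] at he
    have := he.2
    omega
  have hsne : ∀ b, selK F c u b ≠ 0 := by
    intro b
    unfold selK
    rcases c b with _ | e
    · exact hu0 b
    · exact hFu e
  have hs0 : ∀ b, 0 ≤ P.ord (selK F c u b) := by
    intro b
    unfold selK
    rcases c b with _ | e
    · exact (hureg b).resolve_left (hu0 b)
    · change 0 ≤ P.ord (aeval u (F e))
      rw [hFv]
      positivity
  have hsum : ∑ e, (v e : ℤ) ≤ ∑ b, P.ord (selK F c u b) := by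
    have h1 : ∀ e : J, ∃ b, c b = some e.1 := fun e => hc.1 e.1 e.2
    choose φ hφ using h1
    have hinj : Function.Injective φ := by
      intro a b hab
      have h2 := hφ a
      rw [hab, hφ] at h2
      exact Subtype.ext (Option.some.inj h2).symm
    have h2 : ∑ e, (v e : ℤ) = ∑ e : J, (v e.1 : ℤ) := by
      rw [Finset.sum_coe_sort J fun e => (v e : ℤ), hJ, Finset.sum_filter]
      refine Finset.sum_congr rfl fun e _ => ?_
      by_cases he : v e = 0
      · rw [if_neg (by simpa using he), he]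
        rfl
      · rw [if_pos he]
    have h3 : ∑ e : J, (v e.1 : ℤ) = ∑ b ∈ Finset.univ.image φ, P.ord (selK F c u b) := by
      rw [Finset.sum_image fun a _ b _ hab => hinj hab]
      refine Finset.sum_congr rfl fun e _ => ?_
      unfold selK
      rw [hφ]
      exact (hFv e.1).symm
    rw [h2, h3]
    exact Finset.sum_le_sum_of_subset_of_nonneg (Finset.subset_univ _) fun b _ _ => hs0 b
  have h1 : Ge P (∑ e, (v e : ℤ)) (bwK ε pr D u) := by
    have h2 : Ge P (∑ e, (v e : ℤ)) (wmK ε D (seldK pr δ c) (selK F c u)).det := by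
      rw [wm_lmK ε D _ hsne]
      have h4 : Ge P 0 (lmK ε D (seldK pr δ c) (selK F c u)).det := by
        refine Pool.Agent.W619.PQ.ge_det P _ fun r b => ?_
        unfold lmK
        rcases r with l | i
        · rw [Matrix.of_apply, Sum.elim_inl]
          exact Ge.natCast _
        · rw [Matrix.of_apply, Sum.elim_inr]
          exact hD i _
      have h3 := (ge_ord P (∏ b, selK F c u b)).mul h4
      rw [ord_prod' P Finset.univ _ fun b _ => hsne b] at h3
      exact h3.mono (by linarith)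
    rw [← bw_selK ε hh] at h2
    rcases h2 with h2 | h2
    · exact Or.inl ((mul_eq_zero.1 h2).resolve_right hc0)
    · by_cases h0 : bwK ε pr D u = 0
      · exact Or.inl h0
      · right
        rwa [P.ord_mul h0 hc0, hc1, add_zero] at h2
  exact bw_norm ε h.hy hj2 hyu D h1

/-- the canonical form does not vanish -/
theorem bw_oneK (ε : ρ ⊕ Fin n ≃ σ) {y : σ → K} {o : ρ → σ} (ho : ∀ l, pr (o l) = l)
    (hε : ∀ l, ε (Sum.inl l) = o l) (hy : ∀ l, y (o l) = 1) {D : Fin n → Derivation k K K}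
    (hD : ∀ i j, D i (y (ε (Sum.inr j))) = if i = j then 1 else 0) : bwK ε pr D y = 1 := by
  have h1 : wmK ε D (ud pr) y = Matrix.fromBlocks 1
      (Matrix.of fun l j => (ud pr (ε (Sum.inr j)) l : K) * y (ε (Sum.inr j))) 0 1 := by
    ext r b
    unfold wmK
    rw [Matrix.of_apply]
    rcases r with l | i <;> rcases b with l' | j
    · rw [Sum.elim_inl, Matrix.fromBlocks_apply₁₁, Matrix.one_apply, hε, hy, mul_one]
      unfold ud
      rw [ho]
      by_cases h : l = l'
      · rw [if_pos h, if_pos h.symm, Nat.cast_one]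
      · rw [if_neg h, if_neg (Ne.symm h), Nat.cast_zero]
    · rw [Sum.elim_inl, Matrix.fromBlocks_apply₁₂, Matrix.of_apply]
    · rw [Sum.elim_inr, Matrix.fromBlocks_apply₂₁, hε, hy, (D i).map_one_eq_zero, Matrix.zero_apply]
    · rw [Sum.elim_inr, Matrix.fromBlocks_apply₂₂, Matrix.one_apply, hD]
  unfold bwK
  rw [h1, Matrix.det_fromBlocks_zero₂₁, Matrix.det_one, Matrix.det_one, one_mul]

end Pool.Agent.Q41.RC
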