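import Pool.Agent.Q41.RC.Main

/-!
Removing the hypersurfaces over which the cover is not branched.
-/

set_option autoImplicit false

open FF Cardinal Polynomial
open Pool.Agent.W619.PL Pool.Agent.W619.PQ

namespace Pool.Agent.Q41.RC

open scoped Classical in
theorem prod_sub {κ M : Type} [Fintype κ] [CommMonoid M] (R : κ → Prop) (f : κ → M) :
    ∏ c : {c // R c}, f c.1 = ∏ c, if R c then f c else 1 := by
  rw [← Finset.prod_filter]
  exact (Finset.prod_subtype (Finset.univ.filter R) (fun x => by simp) f).symm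

open scoped Classical in
theorem sum_sub {κ M : Type} [Fintype κ] [AddCommMonoid M] (R : κ → Prop) (f : κ → M) :
    ∑ c : {c // R c}, f c.1 = ∑ c, if R c then f c else 0 := by
  rw [← Finset.sum_filter]
  exact (Finset.sum_subtype (Finset.univ.filter R) (fun x => by simp) f).symm

section

variable {ρ σ κ J : Type} [Fintype ρ] [Fintype σ] [Fintype κ] {pr : σ → ρ} {δ : κ → ρ → ℕ}
  {m : J → ℕ} {a : J → κ → ℕ} {S : κ → Prop}

open scoped Classical in
theorem dvd_sub {M : ℕ} {A : κ → ℕ} (f : κ → ℕ) (R : κ → Prop) (hR : ∀ c, ¬ R c → M ∣ A c)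
    (h : M ∣ ∑ c, A c * f c) : M ∣ ∑ c : {c // R c}, A c.1 * f c.1 := by
  rw [sum_sub R (fun c => A c * f c)]
  have h1 : ∑ c, A c * f c = (∑ c, if R c then A c * f c else 0) +
      ∑ c, if R c then 0 else A c * f c := by
    rw [← Finset.sum_add_distrib]
    refine Finset.sum_congr rfl fun c _ => ?_
    split_ifs <;> simp
  rw [h1] at h
  refine (Nat.dvd_add_left (Finset.dvd_sum fun c _ => ?_)).1 h
  split_ifs with hc
  · exact dvd_zero _
  · exact (hR c hc).mul_right _

open scoped Classical in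
theorem HasDat.sub {N : ℕ} (hN : HasDat pr δ m a S N) (R : κ → Prop)
    (hR : ∀ c, ¬ R c → ∀ j, m j ∣ a j c) :
    HasDat pr (fun c : {c // R c} => δ c.1) m (fun j c => a j c.1) (fun c => S c.1) N := by
  obtain ⟨D, I, hI, V, h, hD⟩ := hN
  obtain ⟨Q, hQ⟩ : ∃ Q : I → Prop, ∀ i, Q i ↔ ∃ c, R c ∧ V i c ≠ 0 := ⟨_, fun _ => Iff.rfl⟩
  let I' := {i : I // Q i}
  refine ⟨D, I', inferInstance, fun i c => V i.1 c.1, ⟨h.hD, ?_, fun i c hc => h.hS i.1 c.1 hc, ?_,
    ?_, ?_⟩, hD⟩
  · rintro ⟨i, hi⟩ h0
    obtain ⟨c, hc, hi⟩ := (hQ i).1 hi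
    exact hi (congrFun h0 ⟨c, hc⟩)
  · intro i j
    exact dvd_sub (V i.1) R (fun c hc => hR c hc j) (h.hA i.1 j)
  · intro c
    refine le_trans ?_ (h.hle c.1)
    rw [sum_sub Q (fun i => V i c.1)]
    refine Finset.sum_le_sum fun i _ => ?_
    split_ifs
    · exact le_rfl
    · exact Nat.zero_le _
  · rw [sum_sub R (fun c => ∑ l, D l * δ c l)]
    have h1 : ∑ c, ∑ l, D l * δ c l = (∑ c, if R c then ∑ l, D l * δ c l else 0) +
        ∑ c, if R c then 0 else ∑ l, D l * δ c l := by
      rw [← Finset.sum_add_distrib]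
      refine Finset.sum_congr rfl fun c _ => ?_
      split_ifs <;> simp
    have h2 : Fintype.card I = Fintype.card I' +
        ∑ i, if Q i then 0 else 1 := by
      have h3 : Fintype.card I' = ∑ i, if Q i then 1 else 0 := by
        rw [← sum_sub Q (fun _ => 1)]
        simp [I']
      rw [h3, ← Finset.sum_add_distrib, ← Finset.card_univ, Finset.card_eq_sum_ones]
      refine Finset.sum_congr rfl fun i _ => ?_
      split_ifs <;> simp
    have h4 : (∑ i, if Q i then 0 else 1) ≤
        ∑ c, if R c then 0 else ∑ l, D l * δ c l := by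
      calc (∑ i, if Q i then 0 else 1)
          ≤ ∑ i, ∑ c, (if R c then 0 else V i c) := by
            refine Finset.sum_le_sum fun i _ => ?_
            split_ifs with hi
            · exact Nat.zero_le _
            · obtain ⟨c, hc⟩ := Function.ne_iff.1 (h.hV i)
              have hRc : ¬ R c := fun h5 => hi ((hQ i).2 ⟨c, h5, hc⟩)
              have h6 : (if R c then 0 else V i c) ≤ ∑ c, (if R c then 0 else V i c) :=
                Finset.single_le_sum (f := fun c => if R c then 0 else V i c)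
                  (fun _ _ => Nat.zero_le _) (Finset.mem_univ c)
              rw [if_neg hRc] at h6
              exact (Nat.one_le_iff_ne_zero.2 hc).trans h6
        _ = ∑ c, ∑ i, (if R c then 0 else V i c) := Finset.sum_comm
        _ ≤ ∑ c, if R c then 0 else ∑ l, D l * δ c l := by
            refine Finset.sum_le_sum fun c _ => ?_
            split_ifs
            · simp
            · exact h.hle c
    have h5 := h.hlt
    omega

end

variable {k K ρ σ κ J : Type} [Field k] [Field K] [Algebra k K] [Fintype ρ] [Fintype σ]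
    [Fintype κ] [Fintype J] {pr : σ → ρ} {o : ρ → σ} {δ : κ → ρ → ℕ} {F : κ → MvPolynomial σ k}
    {m : J → ℕ} {a : J → κ → ℕ} {y : σ → K} {z : J → K}

open scoped Classical in
omit [Fintype J] in
theorem IsCov.sub (h : IsCov pr o δ F m a y z) (R : κ → Prop)
    (hR : ∀ c, ¬ R c → ∀ j, m j ∣ a j c) :
    IsCov pr o (fun c : {c // R c} => δ c.1) (fun c => F c.1) m (fun j c => a j c.1) y
      (fun j => z j / ∏ c, if R c then 1 else MvPolynomial.aeval y (F c) ^ (a j c / m j)) := by
  have hP : ∀ j, (∏ c, if R c then 1 else MvPolynomial.aeval y (F c) ^ (a j c / m j)) ≠ 0 := by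
    intro j
    refine Finset.prod_ne_zero_iff.2 fun c _ => ?_
    split_ifs
    · exact one_ne_zero
    · exact pow_ne_zero _ (h.hFy c)
  refine ⟨h.ho, h.hdim, fun c => h.hF c.1, h.hm, ?_, h.hy, h.hbas, fun c => h.hFy c.1, ?_, ?_⟩
  · intro j l
    exact dvd_sub (fun c => δ c l) R (fun c hc => hR c hc j) (h.hdiv j l)
  · intro j
    rw [div_pow, h.hz, prod_sub R (fun c => MvPolynomial.aeval y (F c) ^ a j c),
      div_eq_iff (pow_ne_zero _ (hP j)), ← Finset.prod_pow, ← Finset.prod_mul_distrib]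
    refine Finset.prod_congr rfl fun c _ => ?_
    split_ifs with hc
    · rw [one_pow, mul_one]
    · rw [one_mul, ← pow_mul, Nat.div_mul_cancel (hR c hc j)]
  · rw [← top_le_iff, ← h.hgen, IntermediateField.adjoin_le_iff]
    have hmem : ∀ P : MvPolynomial σ k, MvPolynomial.aeval y P ∈
        IntermediateField.adjoin k (Set.range y ∪ Set.range fun j => z j / ∏ c, if R c then 1 else
          MvPolynomial.aeval y (F c) ^ (a j c / m j)) := by
      intro P
      induction P using MvPolynomial.induction_on with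
      | C a => rw [MvPolynomial.aeval_C]; exact IntermediateField.algebraMap_mem _ _
      | add p q h1 h2 => rw [map_add]; exact add_mem h1 h2
      | mul_X p i h1 =>
        rw [map_mul, MvPolynomial.aeval_X]
        exact mul_mem h1 (IntermediateField.subset_adjoin _ _ (Or.inl ⟨i, rfl⟩))
    rintro w (⟨i, rfl⟩ | ⟨j, rfl⟩)
    · exact IntermediateField.subset_adjoin _ _ (Or.inl ⟨i, rfl⟩)
    · have h1 : z j = z j / (∏ c, if R c then 1 else MvPolynomial.aeval y (F c) ^ (a j c / m j)) *
          ∏ c, if R c then 1 else MvPolynomial.aeval y (F c) ^ (a j c / m j) :=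
        (div_mul_cancel₀ _ (hP j)).symm
      rw [h1]
      refine mul_mem (IntermediateField.subset_adjoin _ _ (Or.inr ⟨j, rfl⟩)) (prod_mem fun c _ => ?_)
      split_ifs
      · exact one_mem _
      · exact pow_mem (hmem _) _

/-- **Data give affine lines.** -/
theorem a1_of_dat [IsAlgClosed k] [CharZero k] (h : IsCov pr o δ F m a y z) {n : ℕ}
    (htr : Algebra.trdeg k K = n) {S : κ → Prop} {N : ℕ} (hN : HasDat pr δ m a S N) :
    IsA1Uniruled k K n (OverS pr δ F y S) := by
  classical
  obtain ⟨R, hRdef⟩ : ∃ R : κ → Prop, ∀ c, R c ↔ (S c ∨ ∃ j, ¬ m j ∣ a j c) := ⟨_, fun _ => Iff.rfl⟩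
  have hR : ∀ c, ¬ R c → ∀ j, m j ∣ a j c := by
    intro c hc j
    by_contra h1
    exact hc ((hRdef c).2 (Or.inr ⟨j, h1⟩))
  have h1 := a1_of_dat_rel (h.sub R hR) htr (S := fun c => S c.1) (fun c hc => by
    rcases (hRdef c.1).1 c.2 with h2 | h2
    · exact absurd h2 hc
    · exact h2) (hN.sub R hR)
  have h2 : OverS pr (fun c : {c // R c} => δ c.1) (fun c => F c.1) y (fun c => S c.1) =
      OverS pr δ F y S := by
    funext v
    refine propext ⟨?_, ?_⟩
    · rintro ⟨c, hc, hμ⟩
      exact ⟨c.1, hc, hμ⟩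
    · rintro ⟨c, hc, hμ⟩
      exact ⟨⟨c, (hRdef c).2 (Or.inl hc)⟩, hc, hμ⟩
  rw [h2] at h1
  exact h1

end Pool.Agent.Q41.RC
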