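import Pool.Agent.Q41.RC.Zs

/-!
From a curve with rational coordinates through the generic point to a family of curves with a
parameter space of dimension one less (following `Pool.Agent.Y199.NN.Spec`, where the coordinates
are polynomials).
-/

set_option autoImplicit false

open FF Cardinal
open Pool.Agent.Y199.NN (inj_of_alg pick isFF_of exists_good_place basis_adjoin)

namespace Pool.Agent.Q41.RC

variable {k : Type} [Field k]

/-- **Specialization.** -/
theorem spec [CharZero k] {K' : Type} [Field K'] [Algebra k K']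
    [Algebra.EssFiniteType k K'] {m n : ℕ} (htr : Algebra.trdeg k K' = m)
    (x : Fin n → K') (hx : Algebra.IsAlgebraic (Algebra.adjoin k (Set.range x)) K')
    {τ : Type} [Finite τ] (Q : τ → Polynomial K') (nu de : Fin n → MvPolynomial τ k)
    (hde : ∀ i, (MvPolynomial.aeval Q (de i)).eval 0 = 1)
    (hnu : ∀ i, (MvPolynomial.aeval Q (nu i)).eval 0 = x i) (i0 : Fin n)
    (hi0 : MvPolynomial.aeval Q (nu i0) ≠ Polynomial.C (x i0) * MvPolynomial.aeval Q (de i0))
    (htrans : Transcendental k (x i0))
    (hid : ∀ P : MvPolynomial (Fin n) k, MvPolynomial.aeval x P = 0 →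
      MvPolynomial.aeval (fun i => zs Q (nu i) (de i)) P = 0)
    {κ : Type} [Finite κ] (G : κ → MvPolynomial τ k)
    (hG : ∀ l, ∃ c : K', c ≠ 0 ∧ MvPolynomial.aeval Q (G l) = Polynomial.C c) :
    ∃ (M : Type) (_ : Field M) (_ : Algebra k M) (Q' : τ → Polynomial M),
      Algebra.EssFiniteType k M ∧ Algebra.trdeg k M + 1 = m ∧
      (∀ i, (MvPolynomial.aeval Q' (de i)).eval 0 = 1) ∧
      (∀ P : MvPolynomial (Fin n) k, MvPolynomial.aeval x P = 0 ↔
        MvPolynomial.aeval (fun i => zs Q' (nu i) (de i)) P = 0) ∧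
      (∀ P : MvPolynomial τ k, MvPolynomial.aeval Q P = 0 → MvPolynomial.aeval Q' P = 0) ∧
      ∀ l, ∃ c : M, c ≠ 0 ∧ MvPolynomial.aeval Q' (G l) = Polynomial.C c := by
  classical
  have := Fintype.ofFinite κ
  have := Fintype.ofFinite τ
  obtain ⟨J, idx, hJf, hJm, hbas⟩ := pick htr x hx i0 htrans
  have hopt := (AlgebraicIndependent.option_iff (x := fun j => x (idx j)) (a := x i0)).1 hbas.1
  obtain ⟨hy, hyt⟩ := hopt
  obtain ⟨hFF, htr1⟩ := isFF_of htr hJm (fun j => x (idx j)) hy
  set k₁ := IntermediateField.adjoin k (Set.range fun j => x (idx j)) with hk₁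
  have hc1 : CharZero k₁ := charZero_of_injective_algebraMap (algebraMap k k₁).injective
  have hft : Transcendental k₁ (x i0) := by
    intro halg
    apply hyt
    open scoped IntermediateField.algebraAdjoinAdjoin in
    exact (IsFractionRing.isAlgebraic_iff (Algebra.adjoin k (Set.range fun j => x (idx j)))
      (IntermediateField.adjoin k (Set.range fun j => x (idx j))) K').2 halg
  choose d hd0 hd using hG
  obtain ⟨W, hWdef⟩ : ∃ W, W = MvPolynomial.aeval Q (nu i0) -
    Polynomial.C (x i0) * MvPolynomial.aeval Q (de i0) := ⟨_, rfl⟩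
  have hW0 : W ≠ 0 := by
    rw [hWdef]
    exact sub_ne_zero.2 hi0
  let S : Finset K' := ((Finset.univ.biUnion fun i => (Q i).support.image (Q i).coeff) ∪
    Finset.univ.image d) ∪ {W.leadingCoeff}
  obtain ⟨c, P, hPc, hPS⟩ := exists_good_place (k := k) (algebraMap k k₁) (x i0) hft S
  have hcoef : ∀ i e, P.Reg ((Q i).coeff e) := by
    intro i e
    by_cases h0 : (Q i).coeff e = 0
    · exact Or.inl h0
    · have h1 : P.ord ((Q i).coeff e) = 0 := by
        apply hPS
        refine Finset.mem_union_left _ (Finset.mem_union_left _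
          (Finset.mem_biUnion.2 ⟨i, Finset.mem_univ i, ?_⟩))
        exact Finset.mem_image.2 ⟨e, Polynomial.mem_support_iff.2 h0, rfl⟩
      exact Or.inr h1.ge
  have hdl : ∀ l, P.ord (d l) = 0 := fun l => hPS _ (Finset.mem_union_left _
    (Finset.mem_union_right _ (Finset.mem_image.2 ⟨l, Finset.mem_univ l, rfl⟩)))
  have hWl : P.ord W.leadingCoeff = 0 := hPS _ (Finset.mem_union_right _
    (Finset.mem_singleton_self _))
  -- algebra structures over `k`
  have hregk : ∀ a : k, P.Reg (algebraMap k K' a) := by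
    intro a
    have h1 : algebraMap k K' a = algebraMap k₁ K' (algebraMap k k₁ a) := rfl
    rw [h1]
    exact P.reg_const _
  let ρ : k →+* P.O := (algebraMap k K').codRestrict P.O hregk
  let _ : Algebra k P.O := ρ.toAlgebra
  let _ : Algebra k P.RF := (P.resHom.comp ρ).toAlgebra
  have hst : IsScalarTower k k₁ P.RF := IsScalarTower.of_algebraMap_eq fun a => by
    change P.resHom (ρ a) = P.red (algebraMap k₁ K' (algebraMap k k₁ a))
    rw [P.red_of_reg (P.reg_const _)]
    rfl
  let α : P.O →ₐ[k] K' := { P.O.subtype with commutes' := fun _ => rfl }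
  let β : P.O →ₐ[k] P.RF := { P.resHom with commutes' := fun _ => rfl }
  have hα : Function.Injective (α : P.O →+* K') := Subtype.val_injective
  have hlift : ∀ i, ∃ q : Polynomial P.O, q.map (α : P.O →+* K') = Q i := by
    intro i
    have h1 : Q i ∈ Polynomial.lifts (α : P.O →+* K') := by
      rw [Polynomial.lifts_iff_coeff_lifts]
      intro e
      exact ⟨⟨(Q i).coeff e, hcoef i e⟩, rfl⟩
    exact (Polynomial.mem_lifts _).1 h1
  choose q hq using hlift
  have hqf : (fun i => (q i).map (α : P.O →+* K')) = Q := funext hq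
  let Q' : τ → Polynomial P.RF := fun i => (q i).map (β : P.O →+* P.RF)
  have hQα : ∀ R : MvPolynomial τ k, (MvPolynomial.aeval q R).map (α : P.O →+* K') =
      MvPolynomial.aeval Q R := by
    intro R
    rw [map_aeval, hqf]
  have hQβ : ∀ R : MvPolynomial τ k, (MvPolynomial.aeval q R).map (β : P.O →+* P.RF) =
      MvPolynomial.aeval Q' R := fun R => map_aeval β q R
  have hev : ∀ R : MvPolynomial τ k, (((MvPolynomial.aeval q R).eval 0 : P.O) : K') =
      (MvPolynomial.aeval Q R).eval 0 := by
    intro R
    rw [← hQα R, Polynomial.eval_map, ← Polynomial.coeff_zero_eq_eval_zero,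
      Polynomial.eval₂_at_zero]
    rfl
  have hevβ : ∀ R : MvPolynomial τ k, (MvPolynomial.aeval Q' R).eval 0 =
      P.resHom ((MvPolynomial.aeval q R).eval 0) := by
    intro R
    rw [← hQβ R, Polynomial.eval_map, Polynomial.eval₂_at_zero,
      ← Polynomial.coeff_zero_eq_eval_zero]
    rfl
  have hdeq : ∀ i, (MvPolynomial.aeval q (de i)).eval 0 = 1 := fun i => by
    apply Subtype.ext
    rw [hev, hde]
    rfl
  have hde' : ∀ i, (MvPolynomial.aeval Q' (de i)).eval 0 = 1 := fun i => by
    rw [hevβ, hdeq, map_one]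
  have hdir : ∀ R : MvPolynomial (Fin n) k, MvPolynomial.aeval x R = 0 →
      MvPolynomial.aeval (fun i => zs Q' (nu i) (de i)) R = 0 := by
    intro R hR
    have h1 : MvPolynomial.aeval (fun i => zs q (nu i) (de i)) R = 0 := by
      apply pmap_injective (γ := α) hα
      rw [map_zero, ← AlgHom.comp_apply, MvPolynomial.comp_aeval]
      have h2 : (fun i => pmap α (zs q (nu i) (de i))) = fun i => zs Q (nu i) (de i) := by
        funext i
        rw [pmap_apply, zs_map α (hdeq i), hqf]
      rw [h2]
      exact hid R hR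
    have h3 := congrArg (pmap β) h1
    rw [map_zero, ← AlgHom.comp_apply, MvPolynomial.comp_aeval] at h3
    have h2 : (fun i => pmap β (zs q (nu i) (de i))) = fun i => zs Q' (nu i) (de i) := by
      funext i
      rw [pmap_apply, zs_map β (hdeq i)]
    rw [h2] at h3
    exact h3
  have hxreg : ∀ i, P.Reg (x i) := by
    intro i
    rw [← hnu i, ← hev]
    exact ((MvPolynomial.aeval q (nu i)).eval 0).2
  have haug : ∀ i, aug (k := k) (zs Q' (nu i) (de i)) = P.red (x i) := by
    intro i
    rw [aug_apply, zs_const (hde' i), hevβ, P.red_of_reg (hxreg i)]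
    congr 1
    exact Subtype.ext ((hev _).trans (hnu i))
  have hind : AlgebraicIndependent k
      (fun j => aug (k := k) (zs Q' (nu (idx j)) (de (idx j)))) := by
    have hb := (basis_adjoin (fun j => x (idx j)) hy).1
    have h1 := hb.map' (f := (IsScalarTower.toAlgHom k k₁ P.RF))
      (algebraMap k₁ P.RF).injective
    have h2 : (fun j => aug (k := k) (zs Q' (nu (idx j)) (de (idx j)))) =
        (IsScalarTower.toAlgHom k k₁ P.RF) ∘
        (fun j => (⟨x (idx j), IntermediateField.subset_adjoin k _ ⟨j, rfl⟩⟩ : k₁)) := by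
      funext j
      rw [haug]
      rfl
    rw [h2]
    exact h1
  have hredc : P.red (x i0) = algebraMap k P.RF c := by
    have h1 : P.red (x i0 - algebraMap k₁ K' (algebraMap k k₁ c)) = 0 := by
      rw [P.red_eq_zero_iff (Or.inr hPc.le)]
      exact Or.inr hPc
    rw [P.red_sub (hxreg i0) (P.reg_const _)] at h1
    rw [sub_eq_zero.1 h1]
    exact (IsScalarTower.algebraMap_apply k k₁ P.RF c).symm
  have hc' : aug (k := k) (zs Q' (nu i0) (de i0)) = algebraMap k P.RF c := by
    rw [haug, hredc]
  have hdeg : zs Q' (nu i0) (de i0) ≠ algebraMap k (PowerSeries P.RF) c := by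
    intro heq
    have h1 := zs_mul (nu := nu i0) (hde' i0)
    rw [heq, PowerSeries.algebraMap_apply] at h1
    have h2 : Polynomial.C (algebraMap k P.RF c) * MvPolynomial.aeval Q' (de i0) =
        MvPolynomial.aeval Q' (nu i0) := by
      apply Polynomial.coe_injective P.RF
      rw [Polynomial.coe_mul, Polynomial.coe_C]
      exact h1
    -- the lift of `W`
    let w : Polynomial P.O := MvPolynomial.aeval q (nu i0) -
      Polynomial.C ⟨x i0, hxreg i0⟩ * MvPolynomial.aeval q (de i0)
    have hwα : w.map (α : P.O →+* K') = W := by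
      rw [hWdef, Polynomial.map_sub, Polynomial.map_mul, hQα, hQα, Polynomial.map_C]
      rfl
    have hwβ : w.map (β : P.O →+* P.RF) = 0 := by
      rw [Polynomial.map_sub, Polynomial.map_mul, hQβ, hQβ, Polynomial.map_C, ← h2, sub_eq_zero]
      congr 2
      rw [← hredc, P.red_of_reg (hxreg i0)]
      rfl
    have h3 : ((w.coeff W.natDegree : P.O) : K') = W.leadingCoeff := by
      rw [← Polynomial.coeff_natDegree, ← hwα, Polynomial.coeff_map]
      rfl
    have h4 := congrArg (fun p => Polynomial.coeff p W.natDegree) hwβ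
    simp only [Polynomial.coeff_map, Polynomial.coeff_zero] at h4
    have h5 := P.red_ne_zero (Polynomial.leadingCoeff_ne_zero.2 hW0) hWl
    apply h5
    rw [P.red_of_reg (Or.inr hWl.ge)]
    refine Eq.trans ?_ h4
    change P.resHom _ = P.resHom _
    congr 1
    exact Subtype.ext h3.symm
  have hlim : ∀ R : MvPolynomial (Fin n) k,
      MvPolynomial.aeval (fun i => zs Q' (nu i) (de i)) R = 0 → MvPolynomial.aeval x R = 0 := by
    clear_value Q'
    exact limit_zs x (fun i => zs Q' (nu i) (de i)) i0 idx hbas hind c hc' hdeg hdir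
  refine ⟨P.RF, inferInstance, inferInstance, Q', ?_, ?_, hde', fun R => ⟨hdir R, fun hR => ?_⟩,
    fun R hR => ?_, fun l => ?_⟩
  · have h1 : Algebra.EssFiniteType k k₁ := by
      have hfin : Finite (Set.range fun j => x (idx j)) := Set.finite_range _
      exact (IntermediateField.essFiniteType_iff).2
        ⟨(Set.finite_range fun j => x (idx j)).toFinset, by simp [hk₁]⟩
    have h2 : FiniteDimensional k₁ P.RF := inferInstance
    exact Algebra.EssFiniteType.comp k k₁ P.RF
  · have h1 := _root_.trdeg_add_eq k k₁ (A := P.RF)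
    have h2 : FiniteDimensional k₁ P.RF := inferInstance
    have h3 : Algebra.trdeg k₁ P.RF = 0 := _root_.trdeg_eq_zero_iff.2 inferInstance
    rw [h3, add_zero, htr1] at h1
    rw [← h1, ← hJm]
    push_cast
    rfl
  · exact hlim R hR
  · rw [← hQβ]
    have h1 : MvPolynomial.aeval q R = 0 := by
      apply Polynomial.map_injective _ hα
      rw [hQα, hR, Polynomial.map_zero]
    rw [h1, Polynomial.map_zero]
  · have hreg : P.Reg (d l) := Or.inr (hdl l).ge
    refine ⟨P.resHom ⟨d l, hreg⟩, ?_, ?_⟩
    · rw [← P.red_of_reg hreg]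
      exact P.red_ne_zero (hd0 l) (hdl l)
    · have h1 : MvPolynomial.aeval q (G l) = Polynomial.C ⟨d l, hreg⟩ := by
        apply Polynomial.map_injective _ hα
        rw [hQα, hd l, Polynomial.map_C]
        rfl
      rw [← hQβ, h1, Polynomial.map_C]
      rfl

end Pool.Agent.Q41.RC
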