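import Pool.Agent.Q41.RC.Kap

/-!
The main theorem for abelian covers of products of projective spaces.
-/

set_option autoImplicit false

open FF MvPolynomial Pool.Agent.W603.LV Pool.Agent.W602.GT
open Pool.Agent.W619.PL Pool.Agent.W619.PQ Pool.Agent.W619.TW

namespace Pool.Agent.Q41.RC

theorem reg_pow' {k K : Type} [Field k] [Field K] [Algebra k K] {P : Place k K} {f : K}
    (h : P.Reg f) (N : ℕ) : 0 ≤ P.ord (f ^ N) := by
  rcases h with h | h
  · rw [h]
    by_cases hN : N = 0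
    · rw [hN, pow_zero, P.ord_one]
    · rw [zero_pow hN, P.ord_zero]
  · rw [P.ord_pow]
    positivity

/-- effective implies pseudo-effective -/
theorem psef_of_not_neg {k K : Type} [Field k] [Field K] [Algebra k K] {n : ℕ}
    {Bd : Place k K → Prop} (h : ¬ LogKodairaNeg k K n Bd) : IsPsef k K n Bd := by
  classical
  unfold LogKodairaNeg at h
  push Not at h
  obtain ⟨m, hm, ω, hω, hreg, hlog, D0, hD0⟩ := h
  refine ⟨{1}, fun N => ⟨m, hm, fun D => ω D ^ N, ⟨?_, ?_, ?_⟩, D0, pow_ne_zero _ hD0⟩⟩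
  · intro A D
    change ω (fun i => ∑ j, A i j • D j) ^ N = A.det ^ (m * N) * ω D ^ N
    rw [hω, mul_pow, pow_mul]
  · intro P hP hb D hD
    refine Or.inr ⟨1, Finset.mem_singleton_self _, one_ne_zero, ?_⟩
    rw [P.ord_one, mul_zero]
    exact reg_pow' (hreg P hP hb D hD) N
  · intro P hP hb D hD
    refine Or.inr ⟨1, Finset.mem_singleton_self _, one_ne_zero, ?_⟩
    rw [P.ord_one, mul_zero]
    exact reg_pow' (hlog P hP hb D hD) N

variable {k K ρ σ κ J : Type} [Field k] [Field K] [Algebra k K] [Fintype ρ] [Fintype σ]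
    [Fintype κ] [Fintype J] {pr : σ → ρ} {o : ρ → σ} {δ : κ → ρ → ℕ} {F : κ → MvPolynomial σ k}
    {m : J → ℕ} {a : J → κ → ℕ} {y : σ → K} {z : J → K}

/-- **The main theorem.** -/
theorem main_tfae [IsAlgClosed k] [CharZero k] (h : IsCov pr o δ F m a y z) {n : ℕ}
    (htr : Algebra.trdeg k K = n) (hS : ∀ [DecidableEq σ], SNC pr F) (S : κ → Prop) :
    List.TFAE [LogKodairaNeg k K n (OverS pr δ F y S), IsA1Uniruled k K n (OverS pr δ F y S),
      ¬ IsPsef k K n (OverS pr δ F y S), ¬ ∃ e, IsExp pr δ m a S F e,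
      ∃ N, HasDat pr δ m a S N] := by
  have hess := h.ess
  tfae_have 1 → 4 := fun h1 h2 => eff_of_exp h htr hS h2 h1
  tfae_have 4 → 5 := exp_or_dat
  tfae_have 5 → 2 := fun ⟨N, hN⟩ => a1_of_dat h htr hN
  tfae_have 2 → 3 := not_psef_of_a1 htr
  tfae_have 3 → 1 := fun h1 => by
    by_contra h2
    exact h1 (psef_of_not_neg h2)
  tfae_finish

end Pool.Agent.Q41.RC
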