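import Pool.Agent.Y199.NN.Pick

/-!
Rational functions in one variable which are regular at the origin, as power series; the field
generated by a generic point and curves with rational coordinates.
-/

set_option autoImplicit false

open FF Cardinal
open Pool.Agent.Y199.NN (inj_of_alg)

namespace Pool.Agent.Q41.RC

section

variable {k : Type} [Field k] {τ : Type}

theorem map_aeval {A B : Type} [CommRing A] [Algebra k A] [CommRing B] [Algebra k B]
    (γ : A →ₐ[k] B) (Q : τ → Polynomial A) (R : MvPolynomial τ k) :
    (MvPolynomial.aeval Q R).map (γ : A →+* B) =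
      MvPolynomial.aeval (fun i => (Q i).map (γ : A →+* B)) R := by
  have h1 : (Polynomial.mapAlgHom γ).comp (MvPolynomial.aeval Q) =
      MvPolynomial.aeval (fun i => (Q i).map (γ : A →+* B)) := by
    apply MvPolynomial.algHom_ext
    intro i
    rw [AlgHom.comp_apply, MvPolynomial.aeval_X, MvPolynomial.aeval_X]
    rfl
  exact congrArg (fun f => f R) (congrArg DFunLike.coe h1)

theorem eval_aeval {A : Type} [CommRing A] [Algebra k A] (Q : τ → Polynomial A)
    (t : A) (R : MvPolynomial τ k) :
    (MvPolynomial.aeval Q R).eval t = MvPolynomial.aeval (fun i => (Q i).eval t) R := by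
  have h1 : ((Polynomial.aeval (R := A) t).restrictScalars k).comp (MvPolynomial.aeval Q) =
      MvPolynomial.aeval (fun i => (Q i).eval t) := by
    apply MvPolynomial.algHom_ext
    intro i
    rw [AlgHom.comp_apply, MvPolynomial.aeval_X, MvPolynomial.aeval_X]
    change Polynomial.aeval t (Q i) = _
    rw [Polynomial.coe_aeval_eq_eval]
  have h2 := congrArg (fun f => f R) (congrArg DFunLike.coe h1)
  rw [← h2]
  change _ = Polynomial.aeval t (MvPolynomial.aeval Q R)
  rw [Polynomial.coe_aeval_eq_eval]

/-- the quotient of two polynomial expressions, as a power series -/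
noncomputable def zs {A : Type} [CommRing A] [Algebra k A] (Q : τ → Polynomial A)
    (nu de : MvPolynomial τ k) : PowerSeries A :=
  ((MvPolynomial.aeval Q nu : Polynomial A) : PowerSeries A) *
    PowerSeries.invOfUnit ((MvPolynomial.aeval Q de : Polynomial A) : PowerSeries A) 1

variable {A : Type} [CommRing A] [Algebra k A] {Q : τ → Polynomial A} {nu de : MvPolynomial τ k}

theorem de_mul (h : (MvPolynomial.aeval Q de).eval 0 = 1) :
    ((MvPolynomial.aeval Q de : Polynomial A) : PowerSeries A) *
      PowerSeries.invOfUnit ((MvPolynomial.aeval Q de : Polynomial A) : PowerSeries A) 1 = 1 := by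
  apply PowerSeries.mul_invOfUnit
  rw [Polynomial.constantCoeff_coe, Polynomial.coeff_zero_eq_eval_zero, h, Units.val_one]

theorem zs_mul (h : (MvPolynomial.aeval Q de).eval 0 = 1) :
    zs Q nu de * ((MvPolynomial.aeval Q de : Polynomial A) : PowerSeries A) =
      ((MvPolynomial.aeval Q nu : Polynomial A) : PowerSeries A) := by
  unfold zs
  rw [mul_assoc, mul_comm (PowerSeries.invOfUnit _ _), de_mul h, mul_one]

theorem eq_zs {f : PowerSeries A} (h : (MvPolynomial.aeval Q de).eval 0 = 1)
    (hf : f * ((MvPolynomial.aeval Q de : Polynomial A) : PowerSeries A) =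
      ((MvPolynomial.aeval Q nu : Polynomial A) : PowerSeries A)) : f = zs Q nu de := by
  unfold zs
  rw [← hf, mul_assoc, de_mul h, mul_one]

theorem zs_const (h : (MvPolynomial.aeval Q de).eval 0 = 1) :
    PowerSeries.constantCoeff (zs Q nu de) = (MvPolynomial.aeval Q nu).eval 0 := by
  have h1 := congrArg PowerSeries.constantCoeff (zs_mul (nu := nu) h)
  rw [map_mul, Polynomial.constantCoeff_coe, Polynomial.constantCoeff_coe,
    Polynomial.coeff_zero_eq_eval_zero, Polynomial.coeff_zero_eq_eval_zero, h, mul_one] at h1
  exact h1

theorem zs_map {B : Type} [CommRing B] [Algebra k B] (γ : A →ₐ[k] B)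
    (h : (MvPolynomial.aeval Q de).eval 0 = 1) :
    PowerSeries.map (γ : A →+* B) (zs Q nu de) = zs (fun i => (Q i).map (γ : A →+* B)) nu de := by
  have h0 : (MvPolynomial.aeval (fun i => (Q i).map (γ : A →+* B)) de).eval 0 = 1 := by
    rw [← map_aeval, Polynomial.eval_map, Polynomial.eval₂_at_zero,
      Polynomial.coeff_zero_eq_eval_zero, h, map_one]
  apply eq_zs h0
  rw [← map_aeval, ← map_aeval, Polynomial.polynomial_map_coe, Polynomial.polynomial_map_coe,
    ← map_mul, zs_mul h]

/-- the augmentation of the ring of power series -/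
noncomputable def aug : PowerSeries A →ₐ[k] A :=
  { (PowerSeries.constantCoeff : PowerSeries A →+* A) with
    commutes' := fun r => by
      change PowerSeries.constantCoeff (algebraMap k (PowerSeries A) r) = _
      rw [PowerSeries.algebraMap_apply]
      exact PowerSeries.constantCoeff_C _ }

theorem aug_apply (f : PowerSeries A) : aug (k := k) f = PowerSeries.constantCoeff f := rfl

/-- the map of power series as a homomorphism of algebras -/
noncomputable def pmap {B : Type} [CommRing B] [Algebra k B] (γ : A →ₐ[k] B) :
    PowerSeries A →ₐ[k] PowerSeries B :=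
  { (PowerSeries.map (γ : A →+* B)) with
    commutes' := fun r => by
      change PowerSeries.map (γ : A →+* B) (algebraMap k (PowerSeries A) r) = _
      rw [PowerSeries.algebraMap_apply, PowerSeries.algebraMap_apply, PowerSeries.map_C]
      exact congrArg _ (γ.commutes r) }

theorem pmap_apply {B : Type} [CommRing B] [Algebra k B] (γ : A →ₐ[k] B) (f : PowerSeries A) :
    pmap γ f = PowerSeries.map (γ : A →+* B) f := rfl

theorem pmap_injective {B : Type} [CommRing B] [Algebra k B] {γ : A →ₐ[k] B}
    (hγ : Function.Injective γ) : Function.Injective (pmap γ) := by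
  intro f g h
  ext n
  have h1 := congrArg (PowerSeries.coeff n) h
  rw [pmap_apply, pmap_apply, PowerSeries.coeff_map, PowerSeries.coeff_map] at h1
  exact hγ h1

end

/-- the limit curve satisfies the same equations -/
theorem limit_iff {k : Type} [Field k] {K' M B : Type} [Field K'] [Algebra k K'] [Field M]
    [Algebra k M] [CommRing B] [IsDomain B] [Algebra k B] (f2 : B →ₐ[k] M) {n : ℕ}
    (x : Fin n → K') (q' : Fin n → B) {J : Type} (i0 : Fin n) (idx : J → Fin n)
    (hbas : IsTranscendenceBasis k (fun o : Option J => o.elim (x i0) (fun j => x (idx j))))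
    (hind : AlgebraicIndependent k (fun j => f2 (q' (idx j)))) (c : k)
    (hc : f2 (q' i0) = algebraMap k M c) (hdeg : q' i0 ≠ algebraMap k B c)
    (hdir : ∀ R : MvPolynomial (Fin n) k, MvPolynomial.aeval x R = 0 →
      MvPolynomial.aeval q' R = 0) (R : MvPolynomial (Fin n) k)
    (hR : MvPolynomial.aeval q' R = 0) : MvPolynomial.aeval x R = 0 := by
  have hq : AlgebraicIndependent k (fun j => q' (idx j)) :=
    AlgebraicIndependent.of_comp f2 hind
  have htr : Transcendental (Algebra.adjoin k (Set.range fun j => q' (idx j))) (q' i0) := by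
    intro halg
    have h1 : IsAlgebraic (Algebra.adjoin k (Set.range fun j => q' (idx j)))
        (q' i0 - algebraMap k B c) := by
      refine halg.sub ?_
      exact isAlgebraic_algebraMap (algebraMap k (Algebra.adjoin k (Set.range fun j => q' (idx j))) c)
    have h2 := inj_of_alg f2 (fun j => q' (idx j)) hind _ h1 (by
      rw [map_sub, hc, AlgHom.commutes, sub_self])
    exact hdeg (sub_eq_zero.1 h2)
  have hall : AlgebraicIndependent k (fun o : Option J => o.elim (q' i0) (fun j => q' (idx j))) :=
    (hq.option_iff_transcendental _).2 htr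
  -- the homomorphism
  let ex : MvPolynomial (Fin n) k →ₐ[k] K' := MvPolynomial.aeval x
  let A := ex.range
  have hsurj : Function.Surjective ex.rangeRestrict := ex.rangeRestrict_surjective
  let g : MvPolynomial (Fin n) k →ₐ[k] B := MvPolynomial.aeval q'
  have hk : RingHom.ker ex.rangeRestrict ≤ RingHom.ker g := by
    intro P hP
    rw [RingHom.mem_ker] at hP ⊢
    exact hdir P (congrArg Subtype.val hP)
  let f1 : A →ₐ[k] B := AlgHom.liftOfSurjective ex.rangeRestrict hsurj g hk
  have hf1 : ∀ P, f1 (ex.rangeRestrict P) = g P := fun P =>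
    AlgHom.liftOfSurjective_apply ex.rangeRestrict hsurj g hk P
  let b : Option J → A := fun o => o.elim (ex.rangeRestrict (MvPolynomial.X i0))
    (fun j => ex.rangeRestrict (MvPolynomial.X (idx j)))
  have hbv : ∀ o, ((b o : A) : K') = o.elim (x i0) (fun j => x (idx j)) := by
    rintro (_ | j)
    · exact MvPolynomial.aeval_X x i0
    · exact MvPolynomial.aeval_X x (idx j)
  have hb1 : AlgebraicIndependent k (fun o => f1 (b o)) := by
    have h1 : (fun o => f1 (b o)) =
        fun o : Option J => o.elim (q' i0) (fun j => q' (idx j)) := by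
      funext o
      rcases o with _ | j
      · exact (hf1 _).trans (MvPolynomial.aeval_X q' i0)
      · exact (hf1 _).trans (MvPolynomial.aeval_X q' (idx j))
    rw [h1]
    exact hall
  have hz : IsAlgebraic (Algebra.adjoin k (Set.range b)) (ex.rangeRestrict R) := by
    have h1 : IsAlgebraic (Algebra.adjoin k
        (Set.range fun o : Option J => o.elim (x i0) (fun j => x (idx j))))
        ((ex.rangeRestrict R : A) : K') := hbas.isAlgebraic.isAlgebraic _
    have hmap : (Algebra.adjoin k (Set.range b)).map A.val =
        Algebra.adjoin k (Set.range fun o : Option J => o.elim (x i0) (fun j => x (idx j))) := by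
      rw [AlgHom.map_adjoin, ← Set.range_comp]
      congr 2
      funext o
      exact hbv o
    let f : Algebra.adjoin k (Set.range b) →+* Algebra.adjoin k
        (Set.range fun o : Option J => o.elim (x i0) (fun j => x (idx j))) :=
      (A.val.toRingHom.comp (Algebra.adjoin k (Set.range b)).val.toRingHom).codRestrict
        (Algebra.adjoin k (Set.range fun o : Option J => o.elim (x i0) (fun j => x (idx j))))
        (fun z => by
          rw [← hmap]
          exact ⟨z.1, z.2, rfl⟩)
    have hfs : Function.Surjective f := by
      intro z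
      obtain ⟨y, hy, hyz⟩ := hmap.ge z.2
      exact ⟨⟨y, hy⟩, Subtype.ext hyz⟩
    exact IsAlgebraic.of_ringHom_of_comp_eq (f := f) (g := (A.val : A →+* K')) h1 hfs
      Subtype.val_injective rfl
  have h0 := inj_of_alg f1 b hb1 (ex.rangeRestrict R) hz ((hf1 R).trans hR)
  exact congrArg Subtype.val h0

/-- the limit curve satisfies the same equations, for power series -/
theorem limit_zs {k : Type} [Field k] {K' M : Type} [Field K'] [Algebra k K'] [Field M]
    [Algebra k M] {n : ℕ} (x : Fin n → K') (q' : Fin n → PowerSeries M) {J : Type} (i0 : Fin n)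
    (idx : J → Fin n)
    (hbas : IsTranscendenceBasis k (fun o : Option J => o.elim (x i0) (fun j => x (idx j))))
    (hind : AlgebraicIndependent k (fun j => aug (k := k) (q' (idx j)))) (c : k)
    (hc : aug (k := k) (q' i0) = algebraMap k M c)
    (hdeg : q' i0 ≠ algebraMap k (PowerSeries M) c)
    (hdir : ∀ R : MvPolynomial (Fin n) k, MvPolynomial.aeval x R = 0 →
      MvPolynomial.aeval q' R = 0) : ∀ R : MvPolynomial (Fin n) k,
      MvPolynomial.aeval q' R = 0 → MvPolynomial.aeval x R = 0 := by
  have h := limit_iff (B := PowerSeries M) (aug (k := k) (A := M)) x q' i0 idx hbas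
  have h2 := h hind c hc
  have h3 := h2 hdeg
  have h4 := h3 hdir
  intro R hR
  have h5 := h4 R
  have h6 := h5 hR
  exact h6

end Pool.Agent.Q41.RC
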